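import Mathlib

/-! Standard complex Gaussian vectors. -/

set_option linter.unusedSectionVars false

open MeasureTheory Complex

namespace Pool.Agent.Q293.FH

/-- Density of the standard complex Gaussian law. -/
noncomputable def rho (z : ℂ) : ℝ := Real.pi⁻¹ * Real.exp (-‖z‖ ^ 2)

lemma rho_pos (z : ℂ) : 0 < rho z := by unfold rho; positivity

lemma continuous_rho : Continuous rho := by unfold rho; fun_prop

/-- The standard complex Gaussian law on the complex plane. -/
noncomputable def gC : Measure ℂ := volume.withDensity (fun z => ENNReal.ofReal (rho z))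

lemma integral_exp_neg_mul (b : ℝ) (hb : 0 < b) :
    ∫ z : ℂ, Real.exp (-b * ‖z‖ ^ 2) = Real.pi / b := by
  have h := GaussianFourier.integral_rexp_neg_mul_sq_norm (V := ℂ) hb
  rw [h, Complex.finrank_real_complex]
  norm_num

lemma integrable_exp_neg_mul (b : ℝ) (hb : 0 < b) :
    Integrable (fun z : ℂ => Real.exp (-b * ‖z‖ ^ 2)) := by
  by_contra h
  have h1 := integral_exp_neg_mul b hb
  rw [integral_undef h] at h1
  have : 0 < Real.pi / b := by positivity
  linarith

lemma integrable_rho : Integrable rho := by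
  have h := (integrable_exp_neg_mul 1 one_pos).const_mul Real.pi⁻¹
  unfold rho
  simpa using h

lemma integral_rho : ∫ z, rho z = 1 := by
  have h := integral_exp_neg_mul 1 one_pos
  unfold rho
  rw [integral_const_mul]
  simp only [neg_mul, one_mul] at h
  rw [h]
  field_simp

instance : IsProbabilityMeasure gC := by
  constructor
  unfold gC
  rw [withDensity_apply _ MeasurableSet.univ, Measure.restrict_univ,
    ← ofReal_integral_eq_lintegral_ofReal integrable_rho
      (Filter.Eventually.of_forall fun z => (rho_pos z).le), integral_rho]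
  simp

variable {κ : Type*} [Fintype κ]

/-- Law of a vector of independent standard complex Gaussians. -/
noncomputable def gam (κ : Type*) [Fintype κ] : Measure (κ → ℂ) := Measure.pi (fun _ => gC)

instance : IsProbabilityMeasure (gam κ) := by unfold gam; infer_instance

/-- squared Euclidean norm -/
noncomputable def Qd (v : κ → ℂ) : ℝ := ∑ i, ‖v i‖ ^ 2

lemma Qd_nonneg (v : κ → ℂ) : 0 ≤ Qd v := Finset.sum_nonneg fun _ _ => by positivity

lemma continuous_Qd : Continuous (Qd : (κ → ℂ) → ℝ) := by unfold Qd; fun_prop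

/-- density of gam -/
noncomputable def dens (v : κ → ℂ) : ℝ := ∏ i, rho (v i)

lemma dens_eq (v : κ → ℂ) : dens v = Real.pi⁻¹ ^ (Fintype.card κ) * Real.exp (-Qd v) := by
  unfold dens rho Qd
  rw [Finset.prod_mul_distrib, ← Real.exp_sum, Finset.sum_neg_distrib, Finset.prod_const,
    Finset.card_univ]

lemma dens_pos (v : κ → ℂ) : 0 < dens v := Finset.prod_pos fun _ _ => rho_pos _

lemma continuous_dens : Continuous (dens : (κ → ℂ) → ℝ) := by
  unfold dens
  exact continuous_finsetProd _ fun i _ => continuous_rho.comp (continuous_apply i)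

lemma integrable_dens : Integrable (dens : (κ → ℂ) → ℝ) := by
  unfold dens
  exact Integrable.fintype_prod (fun _ => integrable_rho)

lemma gam_eq : gam κ = volume.withDensity (fun v => ENNReal.ofReal (dens v)) := by
  unfold gam
  symm
  apply (Measure.pi_eq _).symm
  intro s hs
  rw [withDensity_apply _ (MeasurableSet.univ_pi hs)]
  rw [← ofReal_integral_eq_lintegral_ofReal (integrable_dens.integrableOn)
    (Filter.Eventually.of_forall fun z => (dens_pos z).le)]
  have h1 : ∫ v in Set.univ.pi s, dens v = ∏ i, ∫ z in s i, rho z := by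
    rw [← integral_indicator (MeasurableSet.univ_pi hs)]
    have : (fun v : κ → ℂ => (Set.univ.pi s).indicator dens v)
        = fun v => ∏ i, (s i).indicator rho (v i) := by
      funext v
      by_cases hv : v ∈ Set.univ.pi s
      · rw [Set.indicator_of_mem hv]
        unfold dens
        refine Finset.prod_congr rfl fun i _ => ?_
        rw [Set.indicator_of_mem (hv i (Set.mem_univ i))]
      · rw [Set.indicator_of_notMem hv]
        simp only [Set.mem_pi, Set.mem_univ, true_implies, not_forall] at hv
        obtain ⟨i, hi⟩ := hv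
        symm
        apply Finset.prod_eq_zero (Finset.mem_univ i)
        rw [Set.indicator_of_notMem hi]
    rw [this, integral_fintype_prod_volume_eq_prod (fun i z => (s i).indicator rho z)]
    refine Finset.prod_congr rfl fun i _ => ?_
    rw [integral_indicator (hs i)]
  rw [h1, ENNReal.ofReal_prod_of_nonneg]
  · refine Finset.prod_congr rfl fun i _ => ?_
    unfold gC
    rw [withDensity_apply _ (hs i), ofReal_integral_eq_lintegral_ofReal (integrable_rho.integrableOn)
      (Filter.Eventually.of_forall fun z => (rho_pos z).le)]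
  · intro i _
    exact setIntegral_nonneg (hs i) fun z _ => (rho_pos z).le

lemma integral_gam {F : Type*} [NormedAddCommGroup F] [NormedSpace ℝ F] (h : (κ → ℂ) → F) :
    ∫ v, h v ∂(gam κ) = ∫ v, dens v • h v := by
  rw [gam_eq, integral_withDensity_eq_integral_toReal_smul]
  · refine integral_congr_ae (Filter.Eventually.of_forall fun v => ?_)
    simp only
    rw [ENNReal.toReal_ofReal (dens_pos v).le]
  · exact (continuous_dens.measurable).ennreal_ofReal
  · exact Filter.Eventually.of_forall fun v => ENNReal.ofReal_lt_top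

lemma integrable_gam_iff {F : Type*} [NormedAddCommGroup F] [NormedSpace ℝ F] (h : (κ → ℂ) → F) :
    Integrable h (gam κ) ↔ Integrable (fun v => dens v • h v) := by
  rw [gam_eq, integrable_withDensity_iff_integrable_smul']
  · refine integrable_congr (Filter.Eventually.of_forall fun v => ?_)
    simp only
    rw [ENNReal.toReal_ofReal (dens_pos v).le]
  · exact (continuous_dens.measurable).ennreal_ofReal
  · exact Filter.Eventually.of_forall fun v => ENNReal.ofReal_lt_top

lemma integrable_gC_iff {F : Type*} [NormedAddCommGroup F] [NormedSpace ℝ F] (h : ℂ → F) :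
    Integrable h gC ↔ Integrable (fun v => rho v • h v) := by
  unfold gC
  rw [integrable_withDensity_iff_integrable_smul']
  · refine integrable_congr (Filter.Eventually.of_forall fun v => ?_)
    simp only
    rw [ENNReal.toReal_ofReal (rho_pos v).le]
  · exact (continuous_rho.measurable).ennreal_ofReal
  · exact Filter.Eventually.of_forall fun v => ENNReal.ofReal_lt_top

/-- a real linear map preserving a Gaussian-integrable function preserves Haar measure -/
lemma linPres {E : Type*} [NormedAddCommGroup E] [NormedSpace ℝ E] [MeasurableSpace E]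
    [BorelSpace E] [FiniteDimensional ℝ E] (lam : Measure E) [lam.IsAddHaarMeasure] (q : E → ℝ)
    (hpos : ∀ v, 0 < q v) (hi : Integrable q lam) (L : E →ₗ[ℝ] E)
    (hdet : LinearMap.det L ≠ 0) (hL : ∀ v, q (L v) = q v) :
    MeasurePreserving L lam lam := by
  have hcont : Continuous L := L.continuous_of_finiteDimensional
  have hmeas : Measurable L := hcont.measurable
  refine ⟨hmeas, ?_⟩
  have hmap := Measure.map_linearMap_addHaar_eq_smul_addHaar lam hdet
  have hne : NeZero lam := inferInstance
  have hint : 0 < ∫ v, q v ∂lam := by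
    rw [integral_pos_iff_support_of_nonneg (fun v => (hpos v).le) hi]
    have : Function.support q = Set.univ := by
      ext v; simp [(hpos v).ne']
    rw [this]
    exact Measure.measure_univ_pos.2 hne.out
  have h1 : ∫ v, q v ∂(Measure.map L lam) = ∫ v, q v ∂lam := by
    rw [integral_map hmeas.aemeasurable]
    · simp_rw [hL]
    · rw [hmap]
      exact hi.aestronglyMeasurable.smul_measure _
  rw [hmap, integral_smul_measure] at h1
  have h2 : (ENNReal.ofReal |(LinearMap.det L)⁻¹|).toReal = 1 := by
    have := hint.ne'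
    rw [smul_eq_mul] at h1
    exact mul_right_cancel₀ this (by rw [h1, one_mul])
  rw [ENNReal.toReal_ofReal (abs_nonneg _)] at h2
  rw [hmap, h2]
  simp

/-- real linear maps preserving Qd preserve gam -/
lemma gam_linear (L : (κ → ℂ) →ₗ[ℝ] (κ → ℂ)) (hL : ∀ v, Qd (L v) = Qd v) :
    MeasurePreserving L (gam κ) (gam κ) := by
  have hinj : Function.Injective L := by
    rw [injective_iff_map_eq_zero]
    intro v hv
    have h := hL v
    rw [hv] at h
    have h0 : Qd (0 : κ → ℂ) = 0 := by simp [Qd]
    rw [h0] at h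
    have h1 := (Finset.sum_eq_zero_iff_of_nonneg (fun i _ => by positivity)).1 h.symm
    funext i
    have := h1 i (Finset.mem_univ i)
    simpa using this
  have hdet : LinearMap.det L ≠ 0 := by
    have := LinearMap.isUnit_det L ?_
    · exact this.ne_zero
    · exact (LinearMap.isUnit_iff_ker_eq_bot L).2 (LinearMap.ker_eq_bot.2 hinj)
  have hd : ∀ v, dens (L v) = dens v := fun v => by rw [dens_eq, dens_eq, hL]
  have hvol := linPres (volume : Measure (κ → ℂ)) dens dens_pos integrable_dens L hdet hd
  refine ⟨hvol.measurable, ?_⟩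
  rw [gam_eq]
  ext s hs
  rw [Measure.map_apply hvol.measurable hs, withDensity_apply _ (hvol.measurable hs),
    withDensity_apply _ hs]
  have := hvol.setLIntegral_comp_preimage hs (f := fun v => ENNReal.ofReal (dens v))
    (continuous_dens.measurable.ennreal_ofReal)
  rw [← this]
  refine lintegral_congr fun v => ?_
  rw [hd]

/-- pair measure as Gaussian over the sum index type -/
lemma gam_sum (κ' : Type*) [Fintype κ'] :
    MeasurePreserving (MeasurableEquiv.sumPiEquivProdPi (fun _ : κ ⊕ κ' => ℂ))
      (gam (κ ⊕ κ')) ((gam κ).prod (gam κ')) := by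
  unfold gam
  exact measurePreserving_sumPiEquivProdPi (fun _ : κ ⊕ κ' => gC)

/-- rotation of a pair of independent Gaussian vectors -/
lemma gam_rot (a b : ℝ) (hab : a ^ 2 + b ^ 2 = 1) :
    MeasurePreserving (fun p : (κ → ℂ) × (κ → ℂ) =>
      ((a • p.1 + b • p.2 : κ → ℂ), (-b • p.1 + a • p.2 : κ → ℂ)))
      ((gam κ).prod (gam κ)) ((gam κ).prod (gam κ)) := by
  let L : ((κ ⊕ κ) → ℂ) →ₗ[ℝ] ((κ ⊕ κ) → ℂ) :=
    { toFun := fun v => Sum.elim (fun i => a • v (Sum.inl i) + b • v (Sum.inr i))
        (fun i => -b • v (Sum.inl i) + a • v (Sum.inr i))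
      map_add' := by
        intro v w
        funext i
        rcases i with i | i <;> simp <;> ring
      map_smul' := by
        intro c v
        funext i
        rcases i with i | i <;> simp <;> ring }
  have hL : ∀ v, Qd (L v) = Qd v := by
    intro v
    simp only [Qd, Fintype.sum_sum_type, L, LinearMap.coe_mk, AddHom.coe_mk, Sum.elim_inl,
      Sum.elim_inr]
    rw [← Finset.sum_add_distrib, ← Finset.sum_add_distrib]
    refine Finset.sum_congr rfl fun i _ => ?_
    simp only [← Complex.normSq_eq_norm_sq, Complex.normSq_apply, Complex.add_re, Complex.add_im,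
      Complex.real_smul, Complex.mul_re, Complex.mul_im, Complex.ofReal_re, Complex.ofReal_im,
      Complex.neg_re, Complex.neg_im, Complex.ofReal_neg]
    linear_combination (((v (Sum.inl i)).re)^2 + ((v (Sum.inl i)).im)^2
      + ((v (Sum.inr i)).re)^2 + ((v (Sum.inr i)).im)^2) * hab
  have h1 := gam_linear L hL
  have h2 := (gam_sum (κ := κ) κ)
  have h3 := (h2.comp h1).comp h2.symm
  convert h3 using 1
  funext p
  rfl

/-- homogeneity scaling map: multiply the coordinates in S by r -/
noncomputable def scl (S : Finset κ) [DecidableEq κ] (r : ℝ) (v : κ → ℂ) : κ → ℂ :=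
  fun i => if i ∈ S then (r : ℂ) * v i else v i

/-- part of the squared norm carried by S -/
noncomputable def Ns (S : Finset κ) (v : κ → ℂ) : ℝ := ∑ i ∈ S, ‖v i‖ ^ 2

lemma Ns_nonneg (S : Finset κ) (v : κ → ℂ) : 0 ≤ Ns S v :=
  Finset.sum_nonneg fun _ _ => by positivity

lemma Ns_le_Qd (S : Finset κ) (v : κ → ℂ) : Ns S v ≤ Qd v :=
  Finset.sum_le_sum_of_subset_of_nonneg (Finset.subset_univ _) fun _ _ _ => by positivity

lemma continuous_Ns (S : Finset κ) : Continuous (Ns S : (κ → ℂ) → ℝ) := by unfold Ns; fun_prop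

lemma continuous_scl (S : Finset κ) [DecidableEq κ] (r : ℝ) : Continuous (scl S r) := by
  unfold scl
  refine continuous_pi fun i => ?_
  split_ifs <;> fun_prop

lemma scl_scl (S : Finset κ) [DecidableEq κ] (r t : ℝ) (v : κ → ℂ) :
    scl S r (scl S t v) = scl S (r * t) v := by
  funext i
  unfold scl
  split_ifs
  · push_cast; ring
  · rfl

lemma scl_one (S : Finset κ) [DecidableEq κ] (v : κ → ℂ) : scl S 1 v = v := by
  funext i
  unfold scl
  simp

/-- scaling as a measurable equivalence -/
noncomputable def sclE (S : Finset κ) [DecidableEq κ] (r : ℝ) (hr : r ≠ 0) :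
    (κ → ℂ) ≃ᵐ (κ → ℂ) where
  toFun := scl S r
  invFun := scl S r⁻¹
  left_inv := fun v => by rw [scl_scl, inv_mul_cancel₀ hr, scl_one]
  right_inv := fun v => by rw [scl_scl, mul_inv_cancel₀ hr, scl_one]
  measurable_toFun := (continuous_scl S r).measurable
  measurable_invFun := (continuous_scl S r⁻¹).measurable

lemma map_scl (S : Finset κ) [DecidableEq κ] (r : ℝ) (hr : 0 < r) :
    Measure.map (scl S r) (volume : Measure (κ → ℂ))
      = ENNReal.ofReal ((r ^ (2 * S.card))⁻¹) • volume := by
  let d : κ → ℂ := fun i => if i ∈ S then (r : ℂ) else 1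
  let L : (κ → ℂ) →ₗ[ℂ] (κ → ℂ) := Matrix.toLin' (Matrix.diagonal d)
  have hLd : LinearMap.det (L.restrictScalars ℝ) = r ^ (2 * S.card) := by
    rw [LinearMap.det_restrictScalars, Algebra.norm_complex_apply]
    have : LinearMap.det L = (r : ℂ) ^ S.card := by
      rw [LinearMap.det_toLin', Matrix.det_diagonal]
      simp only [d]
      rw [Finset.prod_ite_mem, Finset.univ_inter, Finset.prod_const]
    rw [this, map_pow, Complex.normSq_ofReal, ← sq, ← pow_mul]
  have hLs : ∀ v, (L.restrictScalars ℝ) v = scl S r v := by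
    intro v
    funext i
    simp only [LinearMap.coe_restrictScalars, L, Matrix.toLin'_apply, Matrix.mulVec_diagonal, d, scl]
    split_ifs <;> simp
  have h := Measure.map_linearMap_addHaar_eq_smul_addHaar (volume : Measure (κ → ℂ))
    (f := L.restrictScalars ℝ) (by rw [hLd]; positivity)
  rw [hLd] at h
  have h2 : (fun v => (L.restrictScalars ℝ) v) = scl S r := funext hLs
  rw [show (⇑(L.restrictScalars ℝ)) = scl S r from h2] at h
  rw [h, abs_of_pos (by positivity)]

lemma integral_scl {F : Type*} [NormedAddCommGroup F] [NormedSpace ℝ F]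
    (S : Finset κ) [DecidableEq κ] (r : ℝ) (hr : 0 < r) (h : (κ → ℂ) → F) :
    ∫ v, h v = (r ^ (2 * S.card)) • ∫ v, h (scl S r v) := by
  have h1 := integral_map_equiv (μ := (volume : Measure (κ → ℂ))) (sclE S r hr.ne') h
  have h2 : Measure.map (sclE S r hr.ne') (volume : Measure (κ → ℂ))
      = ENNReal.ofReal ((r ^ (2 * S.card))⁻¹) • volume := map_scl S r hr
  rw [h2, integral_smul_measure, ENNReal.toReal_ofReal (by positivity)] at h1
  have h3 : (∫ v, h (scl S r v)) = (r ^ (2 * S.card))⁻¹ • ∫ v, h v := h1.symm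
  rw [h3, smul_smul, mul_inv_cancel₀ (by positivity), one_smul]

lemma Qd_split (S : Finset κ) (v : κ → ℂ) [DecidableEq κ] : Qd v = Ns S v + Ns Sᶜ v := by
  unfold Qd Ns
  rw [Finset.sum_add_sum_compl]

lemma Ns_scl (S : Finset κ) [DecidableEq κ] (r : ℝ) (v : κ → ℂ) :
    Ns S (scl S r v) = r ^ 2 * Ns S v := by
  unfold Ns scl
  rw [Finset.mul_sum]
  refine Finset.sum_congr rfl fun i hi => ?_
  rw [if_pos hi, norm_mul, mul_pow, Complex.norm_real, Real.norm_eq_abs, sq_abs]

lemma Ns_compl_scl (S : Finset κ) [DecidableEq κ] (r : ℝ) (v : κ → ℂ) :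
    Ns Sᶜ (scl S r v) = Ns Sᶜ v := by
  unfold Ns scl
  refine Finset.sum_congr rfl fun i hi => ?_
  rw [if_neg (Finset.mem_compl.1 hi)]

/-- scaling identity for homogeneous weights -/
lemma hom_exp (S : Finset κ) [DecidableEq κ] (w : (κ → ℂ) → ℂ) (a : ℂ)
    (hw : ∀ u : ℝ, ∀ᵐ v ∂(gam κ), w (scl S (Real.exp u) v) = Complex.exp (a * u) * w v)
    (u : ℝ) :
    ∫ v, w v * Complex.exp (-((Real.exp u - 1) * Ns S v : ℝ)) ∂(gam κ)
      = Complex.exp (-(S.card + a / 2) * u) * ∫ v, w v ∂(gam κ) := by
  rw [integral_gam, integral_gam, integral_scl S (Real.exp (-u / 2)) (Real.exp_pos _)]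
  rw [← integral_const_mul, ← integral_smul]
  have hae : ∀ᵐ v ∂(volume : Measure (κ → ℂ)),
      w (scl S (Real.exp (-u / 2)) v) = Complex.exp (a * (-u / 2 : ℝ)) * w v := by
    have h := hw (-u / 2)
    rw [gam_eq, ae_withDensity_iff (continuous_dens.measurable.ennreal_ofReal)] at h
    filter_upwards [h] with v hv
    apply hv
    simp [dens_pos v]
  refine integral_congr_ae ?_
  filter_upwards [hae] with v hv
  rw [hv, dens_eq, dens_eq, Qd_split S (scl S _ v), Ns_scl, Ns_compl_scl, Qd_split S v]
  have hr : Real.exp (-u / 2) ^ 2 = Real.exp (-u) := by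
    rw [← Real.exp_nat_mul]; congr 1; push_cast; ring
  have hr2 : Real.exp (-u / 2) ^ (2 * S.card) = Real.exp (-(S.card * u)) := by
    rw [← Real.exp_nat_mul]; congr 1; push_cast; ring
  rw [hr, hr2]
  simp only [Complex.real_smul]
  push_cast
  have e1 : Complex.exp (-(Complex.exp (-u) * (Ns S v) + (Ns Sᶜ v)))
      * Complex.exp (-((Complex.exp u - 1) * (Complex.exp (-u) * (Ns S v))))
      = Complex.exp (-((Ns S v : ℂ) + (Ns Sᶜ v : ℂ))) := by
    rw [← Complex.exp_add]
    congr 1
    have : Complex.exp u * Complex.exp (-u) = 1 := by rw [← Complex.exp_add]; simp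
    linear_combination (-(Ns S v : ℂ)) * this
  have e2 : Complex.exp (-((S.card : ℂ) * u)) * Complex.exp (a * (-u / 2))
      = Complex.exp (-((S.card : ℂ) + a / 2) * u) := by
    rw [← Complex.exp_add]; congr 1; ring
  calc _ = (Complex.exp (-((S.card : ℂ) * u)) * Complex.exp (a * (-u / 2)))
        * (((Real.pi : ℂ)⁻¹ ^ Fintype.card κ)
          * (Complex.exp (-(Complex.exp (-u) * (Ns S v) + (Ns Sᶜ v)))
      * Complex.exp (-((Complex.exp u - 1) * (Complex.exp (-u) * (Ns S v)))))) * w v := by
        ring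
    _ = _ := by rw [e1, e2]; ring

lemma hom_moment (S : Finset κ) [DecidableEq κ] (w : (κ → ℂ) → ℂ) (a : ℂ)
    (hw : ∀ u : ℝ, ∀ᵐ v ∂(gam κ), w (scl S (Real.exp u) v) = Complex.exp (a * u) * w v)
    (hi : Integrable w (gam κ)) (hi2 : Integrable (fun v => (Ns S v : ℂ) * w v) (gam κ)) :
    ∫ v, (Ns S v : ℂ) * w v ∂(gam κ) = (S.card + a / 2) * ∫ v, w v ∂(gam κ) := by
  set c : ℂ := S.card + a / 2 with hc
  set I : ℂ := ∫ v, w v ∂(gam κ) with hI
  have key : ∀ u : ℝ, 0 < u →
      ∫ v, w v * (((1 - Real.exp (-((Real.exp u - 1) * Ns S v))) / u : ℝ) : ℂ)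
      ∂(gam κ) = ((1 - Complex.exp (-c * u)) / u) * I := by
    intro u hu
    have h := hom_exp S w a hw u
    have hI2 : Integrable (fun v => w v * Complex.exp (-((Real.exp u - 1) * Ns S v : ℝ)))
        (gam κ) := by
      refine hi.mono (hi.aestronglyMeasurable.mul ?_) (Filter.Eventually.of_forall fun v => ?_)
      · apply Continuous.aestronglyMeasurable
        have := continuous_Ns S
        fun_prop
      · rw [norm_mul, Complex.norm_exp]
        have h1 : 0 ≤ (Real.exp u - 1) * Ns S v :=
          mul_nonneg (by linarith [Real.add_one_le_exp u]) (Ns_nonneg S v)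
        have h2 : Real.exp (-((Real.exp u - 1) * Ns S v : ℝ)) ≤ 1 := by
          rw [Real.exp_le_one_iff]; linarith
        have h3 : (-(((Real.exp u - 1) * Ns S v : ℝ) : ℂ)).re
            = -((Real.exp u - 1) * Ns S v : ℝ) := by
          rw [Complex.neg_re, Complex.ofReal_re]
        rw [h3]
        nlinarith [norm_nonneg (w v)]
    have e : (fun v => w v * (((1 - Real.exp (-((Real.exp u - 1) * Ns S v))) / u : ℝ) : ℂ))
        = fun v => (u : ℂ)⁻¹ * (w v - w v * Complex.exp (-((Real.exp u - 1) * Ns S v : ℝ))) := by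
      funext v
      push_cast
      ring
    rw [e, integral_const_mul, integral_sub hi hI2, h, ← hI, ← hc]
    ring
  have hpt : ∀ N : ℝ, Filter.Tendsto
      (fun u : ℝ => (1 - Real.exp (-((Real.exp u - 1) * N))) / u) (nhdsWithin 0 (Set.Ioi 0))
      (nhds N) := by
    intro N
    have hd : HasDerivAt (fun u : ℝ => 1 - Real.exp (-((Real.exp u - 1) * N))) N 0 := by
      have h1 : HasDerivAt (fun u : ℝ => -((Real.exp u - 1) * N)) (-(Real.exp 0 * N)) 0 :=
        (((Real.hasDerivAt_exp 0).sub_const 1).mul_const N).neg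
      have h2 := (h1.exp).const_sub 1
      refine h2.congr_deriv ?_
      simp
    have h3 := hd.tendsto_slope_zero_right
    refine h3.congr fun u => ?_
    rw [zero_add]
    simp only [smul_eq_mul, Real.exp_zero, sub_self, zero_mul, neg_zero]
    ring
  have hc2 : Filter.Tendsto (fun u : ℝ => ((1 - Complex.exp (-c * u)) / u) * I)
      (nhdsWithin 0 (Set.Ioi 0)) (nhds (c * I)) := by
    have hd : HasDerivAt (fun u : ℝ => 1 - Complex.exp (-c * u)) c 0 := by
      have h0 : HasDerivAt (fun u : ℝ => (u : ℂ)) 1 0 := Complex.ofRealCLM.hasDerivAt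
      have h1 : HasDerivAt (fun u : ℝ => -c * (u : ℂ)) (-c * 1) 0 := h0.const_mul (-c)
      have h2 := (h1.cexp).const_sub 1
      refine h2.congr_deriv ?_
      simp
    have h3 := hd.tendsto_slope_zero_right
    refine Filter.Tendsto.mul_const I (h3.congr fun u => ?_)
    rw [zero_add]
    simp only [Complex.real_smul, Complex.ofReal_zero, mul_zero, Complex.exp_zero, sub_self,
      Complex.ofReal_inv]
    ring
  have hlim : Filter.Tendsto (fun u : ℝ =>
      ∫ v, w v * (((1 - Real.exp (-((Real.exp u - 1) * Ns S v))) / u : ℝ) : ℂ) ∂(gam κ))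
      (nhdsWithin 0 (Set.Ioi 0)) (nhds (∫ v, (Ns S v : ℂ) * w v ∂(gam κ))) := by
    apply tendsto_integral_filter_of_dominated_convergence (fun v => 2 * ‖(Ns S v : ℂ) * w v‖)
    · refine Filter.Eventually.of_forall fun u => hi.aestronglyMeasurable.mul ?_
      apply Continuous.aestronglyMeasurable
      have := continuous_Ns S
      fun_prop
    · have hmem : Set.Ioc (0 : ℝ) 1 ∈ nhdsWithin (0 : ℝ) (Set.Ioi 0) :=
        Ioc_mem_nhdsGT one_pos
      filter_upwards [hmem] with u hu
      refine Filter.Eventually.of_forall fun v => ?_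
      have hN := Ns_nonneg S v
      have hx : 0 ≤ (Real.exp u - 1) * Ns S v :=
        mul_nonneg (by linarith [Real.add_one_le_exp u, hu.1]) hN
      have h1 : 1 - Real.exp (-((Real.exp u - 1) * Ns S v)) ≤ (Real.exp u - 1) * Ns S v := by
        linarith [Real.add_one_le_exp (-((Real.exp u - 1) * Ns S v))]
      have h2 : 0 ≤ 1 - Real.exp (-((Real.exp u - 1) * Ns S v)) := by
        have : Real.exp (-((Real.exp u - 1) * Ns S v)) ≤ 1 := by
          rw [Real.exp_le_one_iff]; linarith
        linarith
      have h3 : Real.exp u - 1 ≤ 2 * u := by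
        have := Real.abs_exp_sub_one_le (x := u) (by rw [abs_of_pos hu.1]; exact hu.2)
        rw [abs_of_pos hu.1] at this
        exact (le_abs_self _).trans this
      rw [norm_mul, norm_mul, Complex.norm_real, Complex.norm_real, Real.norm_eq_abs,
        Real.norm_eq_abs, abs_of_nonneg hN, abs_of_nonneg (div_nonneg h2 hu.1.le)]
      have h4 : (1 - Real.exp (-((Real.exp u - 1) * Ns S v))) / u ≤ 2 * Ns S v := by
        rw [div_le_iff₀ hu.1]
        nlinarith
      nlinarith [norm_nonneg (w v), mul_le_mul_of_nonneg_left h4 (norm_nonneg (w v))]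
    · exact (hi2.norm.const_mul 2)
    · refine Filter.Eventually.of_forall fun v => ?_
      rw [mul_comm (Ns S v : ℂ)]
      exact Filter.Tendsto.const_mul _ ((Complex.continuous_ofReal.tendsto _).comp (hpt (Ns S v)))
  have hlim2 : Filter.Tendsto (fun u : ℝ =>
      ∫ v, w v * (((1 - Real.exp (-((Real.exp u - 1) * Ns S v))) / u : ℝ) : ℂ) ∂(gam κ))
      (nhdsWithin 0 (Set.Ioi 0)) (nhds (c * I)) := by
    refine hc2.congr' ?_
    filter_upwards [self_mem_nhdsWithin] with u hu
    exact (key u hu).symm
  exact tendsto_nhds_unique hlim hlim2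

/-! Integrability of functions of polynomial growth. -/

lemma integrable_exp_Qd (t : ℝ) (ht : t < 1) :
    Integrable (fun v : κ → ℂ => Real.exp (t * Qd v)) (gam κ) := by
  have h : (fun v : κ → ℂ => Real.exp (t * Qd v)) = fun v => ∏ i, Real.exp (t * ‖v i‖ ^ 2) := by
    funext v
    rw [← Real.exp_sum]
    unfold Qd
    rw [Finset.mul_sum]
  rw [h]
  unfold gam
  apply Integrable.fintype_prod (f := fun (_ : κ) (z : ℂ) => Real.exp (t * ‖z‖ ^ 2))
  intro i
  rw [integrable_gC_iff]
  have h2 := (integrable_exp_neg_mul (1 - t) (by linarith)).const_mul Real.pi⁻¹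
  refine h2.congr (Filter.Eventually.of_forall fun z => ?_)
  simp only [rho, smul_eq_mul]
  rw [mul_assoc, ← Real.exp_add]
  congr 2
  ring

lemma pow_le_exp (m : ℕ) (y t : ℝ) (hy : 0 ≤ y) (ht : 0 < t) :
    (1 + y) ^ m ≤ (m.factorial * t⁻¹ ^ m * Real.exp t) * Real.exp (t * y) := by
  have h := Real.pow_div_factorial_le_exp (t * (1 + y)) (by positivity) m
  rw [div_le_iff₀ (by positivity), mul_pow] at h
  have h2 : Real.exp (t * (1 + y)) = Real.exp t * Real.exp (t * y) := by
    rw [← Real.exp_add]; congr 1; ring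
  rw [h2] at h
  calc (1 + y) ^ m = t⁻¹ ^ m * (t ^ m * (1 + y) ^ m) := by
        rw [← mul_assoc, ← mul_pow, inv_mul_cancel₀ ht.ne', one_pow, one_mul]
    _ ≤ t⁻¹ ^ m * (Real.exp t * Real.exp (t * y) * m.factorial) := by gcongr
    _ = _ := by ring

lemma integrable_pow_Qd (m : ℕ) : Integrable (fun v : κ → ℂ => (1 + Qd v) ^ m) (gam κ) := by
  refine ((integrable_exp_Qd (κ := κ) (1/2) (by norm_num)).const_mul
    (m.factorial * (1/2 : ℝ)⁻¹ ^ m * Real.exp (1/2))).mono' ?_
    (Filter.Eventually.of_forall fun v => ?_)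
  · apply Continuous.aestronglyMeasurable
    have := continuous_Qd (κ := κ)
    fun_prop
  · have := Qd_nonneg v
    rw [Real.norm_eq_abs, abs_of_nonneg (by positivity)]
    exact pow_le_exp m (Qd v) (1/2) this (by norm_num)

lemma norm_le_Qd (v : κ → ℂ) (i : κ) : ‖v i‖ ≤ 1 + Qd v := by
  have h : ‖v i‖ ^ 2 ≤ Qd v :=
    Finset.single_le_sum (f := fun i => ‖v i‖ ^ 2) (fun _ _ => by positivity) (Finset.mem_univ i)
  nlinarith [norm_nonneg (v i)]

end Pool.Agent.Q293.FH
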