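import Mathlib
import Pool.Agent.Q293.FH.Gauss

set_option linter.unusedSectionVars false

open MeasureTheory Complex

namespace Pool.Agent.Q293.FH

variable {κ : Type*} [Fintype κ]

/-- phase invariance -/
lemma gam_phase (c : ℂ) (hc : ‖c‖ = 1) :
    MeasurePreserving (fun v : κ → ℂ => c • v) (gam κ) (gam κ) := by
  let L : (κ → ℂ) →ₗ[ℝ] (κ → ℂ) :=
    { toFun := fun v => c • v
      map_add' := fun v w => smul_add c v w
      map_smul' := fun r v => smul_comm c r v }
  have h := gam_linear L (fun v => by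
    simp only [L, LinearMap.coe_mk, AddHom.coe_mk, Qd, Pi.smul_apply, smul_eq_mul, norm_mul, hc,
      one_mul])
  exact h

lemma eval_gam (i : κ) : MeasurePreserving (fun v : κ → ℂ => v i) (gam κ) gC := by
  unfold gam
  exact measurePreserving_eval (fun _ : κ => gC) i

lemma gC_phase (c : ℂ) (hc : ‖c‖ = 1) : MeasurePreserving (fun z : ℂ => c * z) gC gC := by
  have h1 := eval_gam (κ := Unit) ()
  have h2 := gam_phase (κ := Unit) c hc
  refine ⟨by fun_prop, ?_⟩
  rw [← h1.map_eq, Measure.map_map (by fun_prop) h1.measurable]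
  have : ((fun z : ℂ => c * z) ∘ fun v : Unit → ℂ => v ())
      = (fun v : Unit → ℂ => v ()) ∘ (fun v : Unit → ℂ => c • v) := by
    funext v; simp
  rw [this, ← Measure.map_map h1.measurable h2.measurable, h2.map_eq]

lemma integrable_gC_pow (j l : ℕ) :
    Integrable (fun z : ℂ => z ^ j * (starRingEnd ℂ z) ^ l) gC := by
  have h1 := eval_gam (κ := Unit) ()
  rw [← h1.integrable_comp (by
    apply Continuous.aestronglyMeasurable
    have := Complex.continuous_conj
    fun_prop)]
  refine (integrable_pow_Qd (κ := Unit) (j + l)).mono' ?_ (Filter.Eventually.of_forall fun v => ?_)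
  · apply Continuous.aestronglyMeasurable
    have := Complex.continuous_conj
    fun_prop
  · simp only [Function.comp, norm_mul, norm_pow, RCLike.norm_conj]
    rw [← pow_add]
    exact pow_le_pow_left₀ (norm_nonneg _) (norm_le_Qd v ()) _

/-- one dimensional moments -/
lemma gC_moment (j l : ℕ) :
    ∫ z : ℂ, z ^ j * (starRingEnd ℂ z) ^ l ∂gC = if j = l then (j.factorial : ℂ) else 0 := by
  split_ifs with hjl
  · subst hjl
    have h1 := eval_gam (κ := Unit) ()
    have hI : ∀ j : ℕ, ∫ z : ℂ, z ^ j * (starRingEnd ℂ z) ^ j ∂gC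
        = ∫ v : Unit → ℂ, (Complex.ofReal ((‖v ()‖ ^ 2) ^ j)) ∂(gam Unit) := by
      intro j
      rw [← h1.map_eq, integral_map h1.measurable.aemeasurable]
      · refine integral_congr_ae (Filter.Eventually.of_forall fun v => ?_)
        simp only
        rw [← mul_pow, Complex.mul_conj, Complex.normSq_eq_norm_sq]
        push_cast
        rfl
      · apply Continuous.aestronglyMeasurable
        have := Complex.continuous_conj
        fun_prop
    induction j with
    | zero => simp
    | succ j ih =>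
      rw [hI] at ih ⊢
      have hN : ∀ v : Unit → ℂ, Ns Finset.univ v = ‖v ()‖ ^ 2 := by
        intro v; simp [Ns]
      have hint : ∀ m : ℕ, Integrable (fun v : Unit → ℂ => Complex.ofReal ((‖v ()‖ ^ 2) ^ m))
          (gam Unit) := by
        intro m
        have h0 : Integrable (fun v : Unit → ℂ => (‖v ()‖ ^ 2) ^ m) (gam Unit) := by
          refine (integrable_pow_Qd (κ := Unit) m).mono' ?_
            (Filter.Eventually.of_forall fun v => ?_)
          · apply Continuous.aestronglyMeasurable
            fun_prop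
          · rw [Real.norm_eq_abs, abs_of_nonneg (by positivity)]
            apply pow_le_pow_left₀ (by positivity)
            simp [Qd]
        exact h0.ofReal
      have h := hom_moment (κ := Unit) Finset.univ
        (fun v => Complex.ofReal ((‖v ()‖ ^ 2) ^ j)) (2 * j) ?_ (hint j) ?_
      · have e : ∀ v : Unit → ℂ, Complex.ofReal ((‖v ()‖ ^ 2) ^ (j + 1))
            = (Ns Finset.univ v : ℂ) * Complex.ofReal ((‖v ()‖ ^ 2) ^ j) := by
          intro v
          rw [hN v]
          push_cast
          ring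
        simp_rw [e]
        rw [h, ih]
        rw [Nat.factorial_succ]
        push_cast
        simp only [Finset.card_univ, Fintype.card_unit, Nat.cast_one]
        ring
      · intro u
        refine Filter.Eventually.of_forall fun v => ?_
        simp only [scl, Finset.mem_univ, if_true, norm_mul, Complex.norm_real, Real.norm_eq_abs,
          Real.abs_exp]
        have : Complex.exp (2 * j * u) = ((Real.exp u) ^ 2) ^ j := by
          push_cast
          rw [← Complex.exp_nat_mul, ← Complex.exp_nat_mul]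
          congr 1
          push_cast
          ring
        rw [this]
        push_cast
        ring
      · have := hint (j + 1)
        refine this.congr (Filter.Eventually.of_forall fun v => ?_)
        simp only
        rw [hN v]
        push_cast
        ring
  · -- phases
    have hne : ((j : ℝ) - l) ≠ 0 := by
      intro h
      apply hjl
      have : (j : ℝ) = l := by linarith
      exact_mod_cast this
    set th : ℝ := Real.pi / (j - l) with hth
    set c : ℂ := Complex.exp (th * I) with hc
    have hcn : ‖c‖ = 1 := Complex.norm_exp_ofReal_mul_I th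
    have hp := gC_phase c hcn
    have h1 : ∫ z : ℂ, z ^ j * (starRingEnd ℂ z) ^ l ∂gC
        = ∫ z : ℂ, (c * z) ^ j * (starRingEnd ℂ (c * z)) ^ l ∂gC := by
      conv_lhs => rw [← hp.map_eq]
      rw [integral_map hp.measurable.aemeasurable]
      apply Continuous.aestronglyMeasurable
      have := Complex.continuous_conj
      fun_prop
    have h2 : ∀ z : ℂ, (c * z) ^ j * (starRingEnd ℂ (c * z)) ^ l
        = -(z ^ j * (starRingEnd ℂ z) ^ l) := by
      intro z
      have h3 : c ^ j * (starRingEnd ℂ c) ^ l = -1 := by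
        rw [hc, ← Complex.exp_conj, ← Complex.exp_nat_mul, ← Complex.exp_nat_mul,
          ← Complex.exp_add]
        simp only [map_mul, Complex.conj_ofReal, Complex.conj_I]
        have : (j : ℂ) * (th * I) + (l : ℂ) * (th * -I) = Real.pi * I := by
          have h4 : ((j : ℝ) - l) * th = Real.pi := by
            rw [hth]; field_simp
          have h5 : ((j : ℂ) - l) * (th : ℂ) = (Real.pi : ℂ) := by
            rw [← h4]; push_cast; ring
          linear_combination I * h5
        rw [this, Complex.exp_pi_mul_I]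
      rw [map_mul, mul_pow, mul_pow]
      linear_combination (z ^ j * (starRingEnd ℂ z) ^ l) * h3
    simp_rw [h2] at h1
    rw [integral_neg] at h1
    have h6 := eq_neg_iff_add_eq_zero.1 h1
    have h7 : (2 : ℂ) * ∫ z : ℂ, z ^ j * (starRingEnd ℂ z) ^ l ∂gC = 0 := by
      rw [two_mul]; exact h6
    simpa using h7

/-- Wick pairing for two linear forms -/
lemma pairing (a b : κ → ℂ) (k : ℕ) :
    ∫ v, (∑ i, a i * v i) ^ k * (∑ i, b i * starRingEnd ℂ (v i)) ^ k ∂(gam κ)
      = (k.factorial : ℂ) * (∑ i, a i * b i) ^ k := by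
  classical
  have h1 : ∀ v : κ → ℂ, (∑ i, a i * v i) ^ k * (∑ i, b i * starRingEnd ℂ (v i)) ^ k
      = ∑ α ∈ Finset.piAntidiag Finset.univ k, ∑ β ∈ Finset.piAntidiag Finset.univ k,
        ((Nat.multinomial Finset.univ α : ℂ) * (Nat.multinomial Finset.univ β : ℂ)
          * ∏ i, (a i ^ α i * b i ^ β i))
          * ∏ i, (v i ^ α i * (starRingEnd ℂ (v i)) ^ β i) := by
    intro v
    rw [Finset.sum_pow_eq_sum_piAntidiag, Finset.sum_pow_eq_sum_piAntidiag, Finset.sum_mul_sum]
    refine Finset.sum_congr rfl fun α _ => Finset.sum_congr rfl fun β _ => ?_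
    have e1 : ∏ i, (a i * v i) ^ α i = (∏ i, a i ^ α i) * ∏ i, v i ^ α i := by
      rw [← Finset.prod_mul_distrib]
      exact Finset.prod_congr rfl fun i _ => mul_pow _ _ _
    have e2 : ∏ i, (b i * starRingEnd ℂ (v i)) ^ β i
        = (∏ i, b i ^ β i) * ∏ i, (starRingEnd ℂ (v i)) ^ β i := by
      rw [← Finset.prod_mul_distrib]
      exact Finset.prod_congr rfl fun i _ => mul_pow _ _ _
    rw [e1, e2, Finset.prod_mul_distrib, Finset.prod_mul_distrib]
    ring
  have hint : ∀ α β : κ → ℕ, Integrable
      (fun v : κ → ℂ => ∏ i, (v i ^ α i * (starRingEnd ℂ (v i)) ^ β i)) (gam κ) := by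
    intro α β
    unfold gam
    exact Integrable.fintype_prod (f := fun (i : κ) (z : ℂ) => z ^ α i * (starRingEnd ℂ z) ^ β i)
      (fun i => integrable_gC_pow (α i) (β i))
  have hval : ∀ α β : κ → ℕ, ∫ v : κ → ℂ, ∏ i, (v i ^ α i * (starRingEnd ℂ (v i)) ^ β i) ∂(gam κ)
      = ∏ i, (if α i = β i then ((α i).factorial : ℂ) else 0) := by
    intro α β
    unfold gam
    rw [integral_fintype_prod_eq_prod (fun (i : κ) (z : ℂ) => z ^ α i * (starRingEnd ℂ z) ^ β i)]
    exact Finset.prod_congr rfl fun i _ => gC_moment (α i) (β i)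
  simp_rw [h1]
  rw [integral_finsetSum]
  swap
  · intro α _
    exact integrable_finsetSum _ fun β _ => (hint α β).const_mul _
  rw [Finset.sum_pow_eq_sum_piAntidiag, Finset.mul_sum]
  refine Finset.sum_congr rfl fun α hα => ?_
  rw [integral_finsetSum]
  swap
  · intro β _
    exact (hint α β).const_mul _
  simp_rw [integral_const_mul, hval]
  rw [Finset.sum_eq_single α]
  · have h2 : ∏ i, (if α i = α i then ((α i).factorial : ℂ) else 0)
        = ∏ i, ((α i).factorial : ℂ) := by simp
    have h3 : ∏ i, (a i ^ α i * b i ^ α i) = ∏ i, (a i * b i) ^ α i :=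
      Finset.prod_congr rfl fun i _ => (mul_pow _ _ _).symm
    have h4 : (∏ i, ((α i).factorial : ℂ)) * (Nat.multinomial Finset.univ α : ℂ)
        = (k.factorial : ℂ) := by
      have := Nat.multinomial_spec Finset.univ α
      rw [(Finset.mem_piAntidiag.1 hα).1] at this
      exact_mod_cast this
    rw [h2, h3]
    linear_combination ((Nat.multinomial Finset.univ α : ℂ) * ∏ i, (a i * b i) ^ α i) * h4
  · intro β _ hne
    have : ∃ i, α i ≠ β i := by
      by_contra hcon
      push Not at hcon
      exact hne (funext fun i => (hcon i).symm)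
    obtain ⟨i, hi⟩ := this
    have h5 : ∏ i, (if α i = β i then ((α i).factorial : ℂ) else 0) = 0 :=
      Finset.prod_eq_zero (Finset.mem_univ i) (if_neg hi)
    rw [h5, mul_zero]
  · intro h
    exact absurd hα h

/-- Hermitian pairing -/
noncomputable def ip (V B : κ → ℂ) : ℂ := ∑ i, V i * starRingEnd ℂ (B i)

lemma scl_univ (r : ℝ) [DecidableEq κ] (v : κ → ℂ) : scl Finset.univ r v = (r : ℂ) • v := by
  funext i; simp [scl]

lemma Qd_smul (r : ℝ) (v : κ → ℂ) : Qd ((r : ℂ) • v) = r ^ 2 * Qd v := by
  simp [Qd, Finset.mul_sum, mul_pow]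

lemma Qd_sub (ρ : ℝ) (V B : κ → ℂ) :
    Qd (V - (ρ : ℂ) • B) = Qd V + ρ ^ 2 * Qd B - 2 * ρ * (ip V B).re := by
  unfold Qd ip
  rw [Complex.re_sum, Finset.mul_sum, Finset.mul_sum, ← Finset.sum_add_distrib,
    ← Finset.sum_sub_distrib]
  refine Finset.sum_congr rfl fun i _ => ?_
  simp only [Pi.sub_apply, Pi.smul_apply, smul_eq_mul, ← Complex.normSq_eq_norm_sq,
    Complex.normSq_apply, Complex.sub_re, Complex.sub_im, Complex.mul_re, Complex.mul_im,
    Complex.ofReal_re, Complex.ofReal_im, Complex.conj_re, Complex.conj_im]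
  ring

/-- change of variables for a correlated Gaussian pair -/
lemma gauss_shift (ρ σ : ℝ) (hσ : 0 < σ) (h : ρ ^ 2 + σ ^ 2 = 1)
    (Φ : (κ → ℂ) → (κ → ℂ) → ℂ) :
    ∫ B, ∫ A, Φ ((ρ : ℂ) • B + (σ : ℂ) • A) B ∂(gam κ) ∂(gam κ)
      = ((σ : ℂ) ^ (2 * Fintype.card κ)) * ∫ B, ∫ V, Φ ((σ : ℂ) • V) ((σ : ℂ) • B)
        * Complex.exp (2 * ρ * (ip V B).re : ℝ) ∂(gam κ) ∂(gam κ) := by
  classical
  rw [integral_gam, integral_scl Finset.univ σ hσ, integral_gam, Finset.card_univ,
    Complex.real_smul]
  push_cast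
  congr 1
  refine integral_congr_ae (Filter.Eventually.of_forall fun B => ?_)
  simp only
  rw [integral_gam, integral_gam, scl_univ]
  have htr : ∫ A, dens A • Φ ((ρ : ℂ) • ((σ : ℂ) • B) + (σ : ℂ) • A) ((σ : ℂ) • B)
      = ∫ V, dens (V - (ρ : ℂ) • B) • Φ ((σ : ℂ) • V) ((σ : ℂ) • B) := by
    rw [← integral_sub_right_eq_self _ ((ρ : ℂ) • B)]
    refine integral_congr_ae (Filter.Eventually.of_forall fun V => ?_)
    simp only
    congr 2
    rw [smul_sub, smul_comm (ρ : ℂ) (σ : ℂ) B]
    abel
  rw [htr, ← integral_smul, ← integral_smul]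
  refine integral_congr_ae (Filter.Eventually.of_forall fun V => ?_)
  simp only [dens_eq, Complex.real_smul, Qd_smul, Qd_sub]
  push_cast
  have e : Complex.exp (-((σ : ℂ) ^ 2 * (Qd B)))
      * Complex.exp (-((Qd V : ℂ) + (ρ : ℂ) ^ 2 * (Qd B) - 2 * ρ * ((ip V B).re : ℂ)))
      = Complex.exp (-(Qd B : ℂ)) * Complex.exp (-(Qd V : ℂ))
        * Complex.exp (2 * ρ * ((ip V B).re : ℂ)) := by
    rw [← Complex.exp_add, ← Complex.exp_add, ← Complex.exp_add]
    congr 1
    have h' : (ρ : ℂ) ^ 2 + (σ : ℂ) ^ 2 = 1 := by exact_mod_cast h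
    linear_combination (-(Qd B : ℂ)) * h'
  linear_combination (((Real.pi : ℂ)⁻¹ ^ Fintype.card κ) ^ 2 * Φ ((σ : ℂ) • V) ((σ : ℂ) • B)) * e

end Pool.Agent.Q293.FH
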