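import Mathlib
import Pool.Agent.Q293.FH.Gauss2

set_option linter.unusedSectionVars false

open MeasureTheory Complex

namespace Pool.Agent.Q293.FH

variable {κ : Type*} [Fintype κ] {ι ι' : Type*} [Fintype ι] [Fintype ι']

/-- matrix with given entries -/
def toM (v : ι × ι' → ℂ) : Matrix ι ι' ℂ := Matrix.of fun i j => v (i, j)

/-- entries of a matrix -/
def ofM (M : Matrix ι ι' ℂ) : ι × ι' → ℂ := fun p => M p.1 p.2

@[simp] lemma toM_ofM (M : Matrix ι ι' ℂ) : toM (ofM M) = M := rfl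

@[simp] lemma ofM_toM (v : ι × ι' → ℂ) : ofM (toM v) = v := rfl

lemma Qd_trace (M : Matrix ι ι' ℂ) : (Qd (ofM M) : ℂ) = Matrix.trace (M.conjTranspose * M) := by
  unfold Qd ofM
  push_cast
  rw [Fintype.sum_prod_type, Finset.sum_comm, Matrix.trace]
  refine Finset.sum_congr rfl fun j _ => ?_
  rw [Matrix.diag_apply, Matrix.mul_apply]
  refine Finset.sum_congr rfl fun i _ => ?_
  rw [Matrix.conjTranspose_apply]
  simp only [← Complex.conj_mul', RCLike.star_def]

lemma gam_left [DecidableEq ι] (U : Matrix ι ι ℂ) (hU : U.conjTranspose * U = 1) :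
    MeasurePreserving (fun v : ι × ι' → ℂ => ofM (U * toM v)) (gam (ι × ι')) (gam (ι × ι')) := by
  let L : (ι × ι' → ℂ) →ₗ[ℝ] (ι × ι' → ℂ) :=
    { toFun := fun v => ofM (U * toM v)
      map_add' := by
        intro v w
        funext p
        have : toM (v + w) = toM v + toM w := rfl
        simp [ofM, this, Matrix.mul_add]
      map_smul' := by
        intro c v
        funext p
        have : toM (c • v) = c • toM v := rfl
        simp [ofM, this] }
  refine gam_linear L fun v => ?_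
  have h1 : (Qd (L v) : ℂ) = (Qd v : ℂ) := by
    change (Qd (ofM (U * toM v)) : ℂ) = Qd (ofM (toM v))
    rw [Qd_trace, Qd_trace, Matrix.conjTranspose_mul, Matrix.mul_assoc,
      ← Matrix.mul_assoc U.conjTranspose U, hU, Matrix.one_mul]
  exact_mod_cast h1

lemma gam_right [DecidableEq ι'] (U : Matrix ι' ι' ℂ) (hU : U * U.conjTranspose = 1) :
    MeasurePreserving (fun v : ι × ι' → ℂ => ofM (toM v * U)) (gam (ι × ι')) (gam (ι × ι')) := by
  let L : (ι × ι' → ℂ) →ₗ[ℝ] (ι × ι' → ℂ) :=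
    { toFun := fun v => ofM (toM v * U)
      map_add' := by
        intro v w
        funext p
        have : toM (v + w) = toM v + toM w := rfl
        simp [ofM, this, Matrix.add_mul]
      map_smul' := by
        intro c v
        funext p
        have : toM (c • v) = c • toM v := rfl
        simp [ofM, this] }
  refine gam_linear L fun v => ?_
  have h1 : (Qd (L v) : ℂ) = (Qd v : ℂ) := by
    change (Qd (ofM (toM v * U)) : ℂ) = Qd (ofM (toM v))
    rw [Qd_trace, Qd_trace, Matrix.conjTranspose_mul, Matrix.trace_mul_comm, Matrix.mul_assoc,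
      ← Matrix.mul_assoc U U.conjTranspose, hU, Matrix.one_mul, Matrix.trace_mul_comm]
  exact_mod_cast h1

lemma gam_reindex {κ' : Type*} [Fintype κ'] (e : κ ≃ κ') :
    MeasurePreserving (fun (v : κ' → ℂ) (i : κ) => v (e i)) (gam κ') (gam κ) := by
  have h := (measurePreserving_piCongrLeft (fun _ : κ' => gC) e).symm
  exact h

lemma gam_split {κ₁ κ₂ : Type*} [Fintype κ₁] [Fintype κ₂] (e : κ ≃ κ₁ ⊕ κ₂) :
    MeasurePreserving (fun (p : (κ₁ → ℂ) × (κ₂ → ℂ)) (i : κ) => Sum.elim p.1 p.2 (e i))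
      ((gam κ₁).prod (gam κ₂)) (gam κ) := by
  have h1 := (gam_sum (κ := κ₁) κ₂).symm
  have h2 := gam_reindex e
  have h3 := h2.comp h1
  convert h3 using 1
  funext p
  funext i
  change Sum.elim p.1 p.2 (e i)
    = (MeasurableEquiv.sumPiEquivProdPi (fun _ : κ₁ ⊕ κ₂ => ℂ)).symm p (e i)
  rcases e i with j | j <;> rfl

/-- splitting off the first column -/
def eCol (n : ℕ) : Fin (n + 1) × Fin (n + 1) ≃ Fin (n + 1) ⊕ (Fin (n + 1) × Fin n) where
  toFun := fun p => Fin.cases (Sum.inl p.1) (fun j => Sum.inr (p.1, j)) p.2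
  invFun := Sum.elim (fun i => (i, 0)) (fun q => (q.1, q.2.succ))
  left_inv := by
    rintro ⟨i, j⟩
    refine Fin.cases ?_ (fun j => ?_) j <;> simp
  right_inv := by
    rintro (i | q) <;> simp

/-- splitting off the first row -/
def eRow (n : ℕ) : Fin (n + 1) × Fin n ≃ Fin n ⊕ (Fin n × Fin n) where
  toFun := fun p => Fin.cases (Sum.inl p.2) (fun i => Sum.inr (i, p.2)) p.1
  invFun := Sum.elim (fun j => (0, j)) (fun q => (q.1.succ, q.2))
  left_inv := by
    rintro ⟨i, j⟩
    refine Fin.cases ?_ (fun i => ?_) i <;> simp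
  right_inv := by
    rintro (i | q) <;> simp

/-- assemble a square matrix from its first column and the rest -/
def asm {n : ℕ} (v : Fin (n + 1) → ℂ) (W : Fin (n + 1) × Fin n → ℂ) :
    Matrix (Fin (n + 1)) (Fin (n + 1)) ℂ :=
  Matrix.of fun i j => Fin.cases (v i) (fun j' => W (i, j')) j

lemma toM_split {n : ℕ} (v : Fin (n + 1) → ℂ) (W : Fin (n + 1) × Fin n → ℂ) :
    toM (fun i => Sum.elim v W (eCol n i)) = asm v W := by
  ext i j
  simp only [toM, asm, Matrix.of_apply, eCol, Equiv.coe_fn_mk]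
  refine Fin.cases ?_ (fun j => ?_) j <;> simp

lemma mul_asm {n : ℕ} (U : Matrix (Fin (n + 1)) (Fin (n + 1)) ℂ) (v : Fin (n + 1) → ℂ)
    (W : Fin (n + 1) × Fin n → ℂ) :
    U * asm v W = asm (U.mulVec v) (ofM (U * toM W)) := by
  ext i j
  rw [Matrix.mul_apply]
  refine Fin.cases ?_ (fun j => ?_) j
  · simp [asm, Matrix.mulVec, dotProduct]
  · simp [asm, ofM, toM, Matrix.mul_apply]

lemma det_asm_single {n : ℕ} (c : ℂ) (W : Fin (n + 1) × Fin n → ℂ) :
    (asm (Pi.single 0 c) W).det = c * (toM (fun q : Fin n × Fin n => W (q.1.succ, q.2))).det := by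
  rw [Matrix.det_succ_column_zero, Fin.sum_univ_succ]
  have h0 : ∀ i : Fin n, asm (Pi.single 0 c) W i.succ 0 = 0 := by
    intro i
    simp [asm]
  simp only [h0, mul_zero, zero_mul, Finset.sum_const_zero, add_zero]
  have h1 : (asm (Pi.single 0 c) W) 0 0 = c := by simp [asm]
  rw [h1]
  simp only [Fin.val_zero, pow_zero, one_mul]
  congr 2

/-- a unitary matrix sending v to a multiple of the first basis vector -/
lemma exists_unitary {n : ℕ} (v : Fin (n + 1) → ℂ) (hv : v ≠ 0) :
    ∃ U : Matrix (Fin (n + 1)) (Fin (n + 1)) ℂ, U.conjTranspose * U = 1 ∧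
      U * U.conjTranspose = 1 ∧ U.mulVec v = Pi.single 0 ((Real.sqrt (Qd v) : ℝ) : ℂ) := by
  let x : EuclideanSpace ℂ (Fin (n + 1)) := WithLp.toLp 2 v
  have hx : x ≠ 0 := by
    intro h
    apply hv
    have := congrArg (WithLp.ofLp) h
    simpa [x] using this
  have hnx : ‖x‖ = Real.sqrt (Qd v) := by
    rw [EuclideanSpace.norm_eq]
    rfl
  have hnx0 : ‖x‖ ≠ 0 := norm_ne_zero_iff.2 hx
  let u : EuclideanSpace ℂ (Fin (n + 1)) := ((‖x‖⁻¹ : ℝ) : ℂ) • x
  have hu : ‖u‖ = 1 := by
    simp only [u]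
    rw [norm_smul, Complex.norm_real, norm_inv, norm_norm, inv_mul_cancel₀ hnx0]
  have hxu : x = ((‖x‖ : ℝ) : ℂ) • u := by
    simp only [u]
    rw [smul_smul, ← Complex.ofReal_mul, mul_inv_cancel₀ hnx0, Complex.ofReal_one, one_smul]
  let f : Fin (n + 1) → EuclideanSpace ℂ (Fin (n + 1)) := fun _ => u
  have horth : Orthonormal ℂ (Set.domRestrict ({0} : Set (Fin (n + 1))) f) := by
    rw [orthonormal_iff_ite]
    rintro ⟨i, hi⟩ ⟨j, hj⟩
    rw [Set.mem_singleton_iff] at hi hj
    subst hi hj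
    simp [f, Set.domRestrict, inner_self_eq_norm_sq_to_K, hu]
  obtain ⟨b, hb⟩ := horth.exists_orthonormalBasis_extension_of_card_eq (by simp)
  have hb0 : b 0 = u := hb 0 (by simp)
  let U : Matrix (Fin (n + 1)) (Fin (n + 1)) ℂ := Matrix.of fun i j => starRingEnd ℂ (b i j)
  have hUU : U * U.conjTranspose = 1 := by
    ext i j
    rw [Matrix.mul_apply]
    have h := orthonormal_iff_ite.1 b.orthonormal i j
    rw [EuclideanSpace.inner_eq_star_dotProduct] at h
    rw [Matrix.one_apply, ← h]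
    simp only [U, Matrix.of_apply, Matrix.conjTranspose_apply, RCLike.star_def, Complex.conj_conj,
      dotProduct, Pi.star_apply]
    exact Finset.sum_congr rfl fun k _ => mul_comm _ _
  refine ⟨U, mul_eq_one_comm.1 hUU, hUU, ?_⟩
  funext i
  have h1 : U.mulVec v i = inner ℂ (b i) x := by
    rw [EuclideanSpace.inner_eq_star_dotProduct]
    simp only [U, Matrix.mulVec, dotProduct, Matrix.of_apply, Pi.star_apply, RCLike.star_def, x]
    exact Finset.sum_congr rfl fun k _ => mul_comm _ _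
  rw [h1, hxu, inner_smul_right, ← hb0, orthonormal_iff_ite.1 b.orthonormal i 0]
  rw [hnx]
  by_cases hi : i = 0
  · subst hi; simp
  · simp [hi]

end Pool.Agent.Q293.FH
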