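import Mathlib
import Pool.Agent.Q293.FH.Mat

set_option linter.unusedSectionVars false

open MeasureTheory Complex

namespace Pool.Agent.Q293.FH

lemma continuous_det_toM (n : ℕ) :
    Continuous (fun v : Fin n × Fin n → ℂ => (toM v).det) := by
  apply Continuous.matrix_det
  refine continuous_matrix fun i j => ?_
  exact continuous_apply (i, j)

lemma det_unitary_norm {n : ℕ} (U : Matrix (Fin n) (Fin n) ℂ) (hU : U.conjTranspose * U = 1) :
    ‖U.det‖ = 1 := by
  have h := congrArg Matrix.det hU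
  rw [Matrix.det_mul, Matrix.det_conjTranspose, Matrix.det_one] at h
  have h2 := congrArg norm h
  rw [norm_mul, norm_star, norm_one] at h2
  nlinarith [norm_nonneg U.det]

lemma det_rec (n : ℕ) (φ : ℝ → ENNReal) (hφ : Measurable φ) :
    ∫⁻ v, φ ‖(toM v).det‖ ∂(gam (Fin (n + 1) × Fin (n + 1)))
      = ∫⁻ v : Fin (n + 1) → ℂ, ∫⁻ W : Fin n × Fin n → ℂ,
        φ (Real.sqrt (Qd v) * ‖(toM W).det‖) ∂(gam (Fin n × Fin n)) ∂(gam (Fin (n + 1))) := by
  have hmeas : Measurable (fun v : Fin (n + 1) × Fin (n + 1) → ℂ => φ ‖(toM v).det‖) :=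
    hφ.comp (continuous_det_toM _).norm.measurable
  rw [← (gam_split (eCol n)).lintegral_comp hmeas, lintegral_prod]
  swap
  · exact (hmeas.comp (gam_split (eCol n)).measurable).aemeasurable
  refine lintegral_congr fun v => ?_
  simp only [toM_split]
  -- inner integral for fixed first column
  have hlow : ∀ c : ℝ, 0 ≤ c →
      ∫⁻ W : Fin (n + 1) × Fin n → ℂ, φ ‖(asm (Pi.single 0 (c : ℂ)) W).det‖
        ∂(gam (Fin (n + 1) × Fin n))
      = ∫⁻ W : Fin n × Fin n → ℂ, φ (c * ‖(toM W).det‖) ∂(gam (Fin n × Fin n)) := by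
    intro c hc
    simp only [det_asm_single, norm_mul, Complex.norm_real, Real.norm_eq_abs, abs_of_nonneg hc]
    have hm2 : Measurable (fun W : Fin n × Fin n → ℂ => φ (c * ‖(toM W).det‖)) :=
      hφ.comp ((continuous_det_toM _).norm.measurable.const_mul c)
    have h3 : MeasurePreserving
        (fun W : Fin (n + 1) × Fin n → ℂ => fun q : Fin n × Fin n => W (q.1.succ, q.2))
        (gam (Fin (n + 1) × Fin n)) (gam (Fin n × Fin n)) := by
      have h4 := gam_split (eRow n)
      refine ⟨?_, ?_⟩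
      · exact measurable_pi_lambda _ fun q => measurable_pi_apply _
      · rw [← h4.map_eq, Measure.map_map _ h4.measurable]
        · have : ((fun W : Fin (n + 1) × Fin n → ℂ => fun q : Fin n × Fin n => W (q.1.succ, q.2))
              ∘ fun p : (Fin n → ℂ) × (Fin n × Fin n → ℂ) =>
                fun i => Sum.elim p.1 p.2 (eRow n i)) = Prod.snd := by
            funext p q
            simp [eRow]
          rw [this]
          exact (measurePreserving_snd).map_eq
        · exact measurable_pi_lambda _ fun q => measurable_pi_apply _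
    exact h3.lintegral_comp hm2
  by_cases hv : v = 0
  · subst hv
    have h0 : Real.sqrt (Qd (0 : Fin (n + 1) → ℂ)) = 0 := by simp [Qd]
    rw [h0]
    have h1 := hlow 0 le_rfl
    rw [← h1]
    simp
  · obtain ⟨U, hU1, hU2, hUv⟩ := exists_unitary v hv
    have hpres := gam_left (ι' := Fin n) U hU1
    have hm : Measurable (fun W : Fin (n + 1) × Fin n → ℂ =>
        φ ‖(asm (Pi.single 0 ((Real.sqrt (Qd v) : ℝ) : ℂ)) W).det‖) := by
      apply hφ.comp
      apply Continuous.measurable
      apply Continuous.norm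
      apply Continuous.matrix_det
      refine continuous_matrix fun i j => ?_
      simp only [asm, Matrix.of_apply]
      refine Fin.cases ?_ (fun j => ?_) j
      · simp only [Fin.cases_zero]
        exact continuous_const
      · simp only [Fin.cases_succ]
        exact continuous_apply _
    rw [← hlow _ (Real.sqrt_nonneg _), ← hpres.lintegral_comp hm]
    refine lintegral_congr fun W => ?_
    have : ‖(asm v W).det‖ = ‖(U * asm v W).det‖ := by
      rw [Matrix.det_mul, norm_mul, det_unitary_norm U hU1, one_mul]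
    rw [this, mul_asm, hUv]

lemma gam_ae_ne_zero (n : ℕ) : ∀ᵐ v ∂(gam (Fin (n + 1))), v ≠ 0 := by
  rw [gam_eq]
  have : ∀ᵐ v ∂(volume : Measure (Fin (n + 1) → ℂ)), v ≠ 0 := by
    rw [ae_iff]
    simp
  exact (withDensity_absolutelyContinuous _ _).ae_le this

lemma det_ae_ne_zero (n : ℕ) : ∀ᵐ v ∂(gam (Fin n × Fin n)), (toM v).det ≠ 0 := by
  induction n with
  | zero => simp
  | succ n ih =>
    have hφ : Measurable (Set.indicator {(0 : ℝ)} (fun _ => (1 : ENNReal))) :=
      measurable_const.indicator (measurableSet_singleton _)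
    have h := det_rec n _ hφ
    have h1 : ∫⁻ v : Fin (n + 1) → ℂ, ∫⁻ W : Fin n × Fin n → ℂ,
        (Set.indicator {(0 : ℝ)} (fun _ => (1 : ENNReal))) (Real.sqrt (Qd v) * ‖(toM W).det‖)
          ∂(gam (Fin n × Fin n)) ∂(gam (Fin (n + 1))) = 0 := by
      rw [← lintegral_zero]
      refine lintegral_congr_ae ?_
      filter_upwards [gam_ae_ne_zero n] with v hv
      rw [← lintegral_zero (μ := gam (Fin n × Fin n))]
      refine lintegral_congr_ae ?_
      filter_upwards [ih] with W hW
      rw [Set.indicator_of_notMem]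
      rw [Set.mem_singleton_iff, mul_eq_zero, not_or]
      refine ⟨?_, norm_ne_zero_iff.2 hW⟩
      rw [Real.sqrt_eq_zero (Qd_nonneg v)]
      intro h0
      apply hv
      have := (Finset.sum_eq_zero_iff_of_nonneg (fun i _ => by positivity)).1 h0
      funext i
      simpa using this i (Finset.mem_univ i)
    rw [h1] at h
    rw [lintegral_eq_zero_iff] at h
    · filter_upwards [h] with v hv h0
      simp only [Pi.zero_apply, h0, norm_zero] at hv
      simp at hv
    · exact hφ.comp (continuous_det_toM _).norm.measurable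

/-- radial integral -/
lemma radial_integral (m : ℕ) :
    ∃ C : ℝ, ∀ g : ℝ → ℝ, ∫ v : Fin (m + 1) → ℂ, g (Real.sqrt (Qd v))
      = C * ∫ y in Set.Ioi (0 : ℝ), y ^ (2 * m + 1) * g y := by
  let L : (Fin (m + 1) → ℂ) ≃L[ℂ] EuclideanSpace ℂ (Fin (m + 1)) :=
    (EuclideanSpace.equiv (Fin (m + 1)) ℂ).symm
  let μE : Measure (EuclideanSpace ℂ (Fin (m + 1))) := Measure.map L volume
  have : μE.IsAddHaarMeasure := L.isAddHaarMeasure_map volume
  have hdim : Module.finrank ℝ (EuclideanSpace ℂ (Fin (m + 1))) = 2 * (m + 1) := by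
    rw [← Module.finrank_mul_finrank ℝ ℂ, Complex.finrank_real_complex]
    simp
  refine ⟨(Module.finrank ℝ (EuclideanSpace ℂ (Fin (m + 1))) : ℝ) * μE.real (Metric.ball 0 1),
    fun g => ?_⟩
  have h := integral_fun_norm_addHaar μE g
  have h2 : ∫ x, g ‖x‖ ∂μE = ∫ v : Fin (m + 1) → ℂ, g (Real.sqrt (Qd v)) := by
    rw [show μE = Measure.map L volume from rfl]
    have hme : MeasurableEmbedding L := L.toHomeomorph.measurableEmbedding
    rw [hme.integral_map]
    refine integral_congr_ae (Filter.Eventually.of_forall fun v => ?_)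
    simp only
    rw [EuclideanSpace.norm_eq]
    rfl
  rw [← h2, h, hdim]
  simp only [nsmul_eq_mul, smul_eq_mul]
  rw [show 2 * (m + 1) - 1 = 2 * m + 1 by omega]
  push_cast
  ring

lemma radial_moment (m : ℕ) (α : ℝ) (hα : -(m + 1 : ℝ) < α) :
    ∫⁻ v : Fin (m + 1) → ℂ, ENNReal.ofReal (Real.exp (2 * α * Real.log (Real.sqrt (Qd v))))
      ∂(gam (Fin (m + 1)))
      = ENNReal.ofReal (Real.Gamma (m + 1 + α) / Real.Gamma (m + 1)) := by
  obtain ⟨C, hC⟩ := radial_integral m
  have hI : ∀ β : ℝ, -(m + 1 : ℝ) < β →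
      ∫ v : Fin (m + 1) → ℂ, Real.exp (2 * β * Real.log (Real.sqrt (Qd v))) ∂(gam (Fin (m + 1)))
        = (C * Real.pi⁻¹ ^ (m + 1) / 2) * Real.Gamma (m + 1 + β) := by
    intro β hβ
    rw [integral_gam]
    have h1 := hC (fun y => Real.pi⁻¹ ^ (m + 1) * Real.exp (-y ^ 2)
      * Real.exp (2 * β * Real.log y))
    have h2 : ∀ v : Fin (m + 1) → ℂ, dens v • Real.exp (2 * β * Real.log (Real.sqrt (Qd v)))
        = Real.pi⁻¹ ^ (m + 1) * Real.exp (-(Real.sqrt (Qd v)) ^ 2)
          * Real.exp (2 * β * Real.log (Real.sqrt (Qd v))) := by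
      intro v
      rw [dens_eq, Real.sq_sqrt (Qd_nonneg v), Fintype.card_fin, smul_eq_mul]
    simp_rw [h2]
    rw [h1]
    have h3 : ∫ y in Set.Ioi (0 : ℝ), y ^ (2 * m + 1) * (Real.pi⁻¹ ^ (m + 1) * Real.exp (-y ^ 2)
        * Real.exp (2 * β * Real.log y))
        = Real.pi⁻¹ ^ (m + 1) * ∫ y in Set.Ioi (0 : ℝ), y ^ (2 * m + 1 + 2 * β)
          * Real.exp (-y ^ (2 : ℝ)) := by
      rw [← integral_const_mul]
      refine setIntegral_congr_fun measurableSet_Ioi fun y hy => ?_
      have hy0 : (0 : ℝ) < y := hy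
      rw [Real.rpow_add hy0, Real.rpow_def_of_pos hy0 (2 * β),
        show (2 * (m : ℝ) + 1) = ((2 * m + 1 : ℕ) : ℝ) by push_cast; ring, Real.rpow_natCast,
        show y ^ (2 : ℝ) = y ^ 2 by exact_mod_cast Real.rpow_natCast y 2]
      rw [show Real.log y * (2 * β) = 2 * β * Real.log y by ring]
      ring
    rw [h3, _root_.integral_rpow_mul_exp_neg_rpow (p := 2) (by norm_num) (by linarith)]
    rw [show ((2 * (m : ℝ) + 1 + 2 * β + 1) / 2) = m + 1 + β by ring]
    ring
  have h0 := hI 0 (by linarith [show (0 : ℝ) ≤ m from Nat.cast_nonneg m])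
  simp only [mul_zero, zero_mul, Real.exp_zero, integral_const, probReal_univ,
    smul_eq_mul, add_zero] at h0
  have hG : 0 < Real.Gamma (m + 1) := Real.Gamma_pos_of_pos (by positivity)
  have hG2 : 0 < Real.Gamma (m + 1 + α) := Real.Gamma_pos_of_pos (by linarith)
  have hC2 : C * Real.pi⁻¹ ^ (m + 1) / 2 = 1 / Real.Gamma (m + 1) := by
    field_simp
    field_simp at h0
    linarith
  have h1 := hI α hα
  rw [hC2] at h1
  have hpos : 0 < ∫ v : Fin (m + 1) → ℂ, Real.exp (2 * α * Real.log (Real.sqrt (Qd v)))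
      ∂(gam (Fin (m + 1))) := by rw [h1]; positivity
  have hint : Integrable (fun v : Fin (m + 1) → ℂ =>
      Real.exp (2 * α * Real.log (Real.sqrt (Qd v)))) (gam (Fin (m + 1))) := by
    by_contra hcon
    rw [integral_undef hcon] at hpos
    exact lt_irrefl _ hpos
  rw [← ofReal_integral_eq_lintegral_ofReal hint
    (Filter.Eventually.of_forall fun v => (Real.exp_pos _).le), h1]
  congr 1
  ring

/-- real moments of the modulus of a Ginibre determinant -/
noncomputable def Mr (n : ℕ) (α : ℝ) : ℝ :=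
  ∏ j ∈ Finset.range n, Real.Gamma (j + 1 + α) / Real.Gamma (j + 1)

lemma Mr_pos (n : ℕ) (α : ℝ) (hα : -1 < α) : 0 < Mr n α := by
  unfold Mr
  refine Finset.prod_pos fun j _ => div_pos (Real.Gamma_pos_of_pos ?_) (Real.Gamma_pos_of_pos ?_)
  · have : (0 : ℝ) ≤ j := Nat.cast_nonneg j
    linarith
  · positivity

lemma det_moment (n : ℕ) (α : ℝ) (hα : -1 < α) :
    ∫⁻ v : Fin n × Fin n → ℂ, ENNReal.ofReal (Real.exp (2 * α * Real.log ‖(toM v).det‖))
      ∂(gam (Fin n × Fin n)) = ENNReal.ofReal (Mr n α) := by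
  induction n with
  | zero =>
    simp [Mr]
  | succ n ih =>
    have hφ : Measurable (fun y : ℝ => ENNReal.ofReal (Real.exp (2 * α * Real.log y))) := by
      fun_prop
    rw [det_rec n _ hφ]
    have h1 : ∫⁻ v : Fin (n + 1) → ℂ, ∫⁻ W : Fin n × Fin n → ℂ,
        ENNReal.ofReal (Real.exp (2 * α * Real.log (Real.sqrt (Qd v) * ‖(toM W).det‖)))
          ∂(gam (Fin n × Fin n)) ∂(gam (Fin (n + 1)))
        = ∫⁻ v : Fin (n + 1) → ℂ, ENNReal.ofReal (Real.exp (2 * α * Real.log (Real.sqrt (Qd v))))
          * ENNReal.ofReal (Mr n α) ∂(gam (Fin (n + 1))) := by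
      refine lintegral_congr_ae ?_
      filter_upwards [gam_ae_ne_zero n] with v hv
      have hs : Real.sqrt (Qd v) ≠ 0 := by
        intro h0
        rw [Real.sqrt_eq_zero (Qd_nonneg v)] at h0
        apply hv
        have := (Finset.sum_eq_zero_iff_of_nonneg (fun i _ => by positivity)).1 h0
        funext i
        simpa using this i (Finset.mem_univ i)
      rw [← ih, ← lintegral_const_mul]
      swap
      · exact hφ.comp (continuous_det_toM _).norm.measurable
      refine lintegral_congr_ae ?_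
      filter_upwards [det_ae_ne_zero n] with W hW
      rw [Real.log_mul hs (norm_ne_zero_iff.2 hW), mul_add, Real.exp_add,
        ENNReal.ofReal_mul (Real.exp_pos _).le]
    rw [h1, lintegral_mul_const, radial_moment n α, ← ENNReal.ofReal_mul]
    · unfold Mr
      rw [Finset.prod_range_succ]
      congr 1
      ring
    · have h2 : 0 < Real.Gamma (n + 1 + α) := Real.Gamma_pos_of_pos
        (by linarith [show (0 : ℝ) ≤ n from Nat.cast_nonneg n])
      have h3 : 0 < Real.Gamma (n + 1) := Real.Gamma_pos_of_pos (by positivity)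
      positivity
    · linarith [show (0 : ℝ) ≤ n from Nat.cast_nonneg n]
    · apply hφ.comp
      exact (Real.continuous_sqrt.comp continuous_Qd).measurable

end Pool.Agent.Q293.FH
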