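import Mathlib
import Pool.Agent.Q293.FH.Det

set_option linter.unusedSectionVars false

open MeasureTheory Complex
open scoped ComplexOrder

namespace Pool.Agent.Q293.FH

/-! Interpolation facts. -/

/-- Lagrange weights at the nodes 0..k evaluated at z -/
noncomputable def lw (k : ℕ) (z : ℂ) (l : ℕ) : ℂ :=
  (Lagrange.basis (Finset.range (k + 1)) (fun l : ℕ => (l : ℂ)) l).eval z

lemma lagrange_eval (k : ℕ) (P : Polynomial ℂ) (hP : P.natDegree ≤ k) (z : ℂ) :
    P.eval z = ∑ l ∈ Finset.range (k + 1), P.eval (l : ℂ) * lw k z l := by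
  have hinj : Set.InjOn (fun l : ℕ => (l : ℂ)) (Finset.range (k + 1) : Finset ℕ) :=
    fun a _ b _ h => Nat.cast_injective (R := ℂ) h
  have hdeg : P.degree < (Finset.range (k + 1)).card := by
    rw [Finset.card_range]
    exact lt_of_le_of_lt (Polynomial.degree_le_natDegree) (by exact_mod_cast Nat.lt_succ_of_le hP)
  conv_lhs => rw [Lagrange.eq_interpolate hinj hdeg, Lagrange.interpolate_apply]
  rw [Polynomial.eval_finsetSum]
  refine Finset.sum_congr rfl fun l _ => ?_
  rw [Polynomial.eval_mul, Polynomial.eval_C]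
  rfl

lemma pow_lagrange (k : ℕ) (a b z : ℂ) :
    (a + z * b) ^ k = ∑ l ∈ Finset.range (k + 1), (a + l * b) ^ k * lw k z l := by
  let P : Polynomial ℂ := (Polynomial.C a + Polynomial.X * Polynomial.C b) ^ k
  have hP : P.natDegree ≤ k := by
    refine (Polynomial.natDegree_pow_le).trans ?_
    have h1 : (Polynomial.C a + Polynomial.X * Polynomial.C b).natDegree ≤ 1 := by
      refine (Polynomial.natDegree_add_le _ _).trans ?_
      rw [Polynomial.natDegree_C]
      refine max_le (by norm_num) ?_
      refine (Polynomial.natDegree_mul_le).trans ?_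
      rw [Polynomial.natDegree_C, add_zero]
      exact Polynomial.natDegree_X_le
    calc k * (Polynomial.C a + Polynomial.X * Polynomial.C b).natDegree ≤ k * 1 :=
          Nat.mul_le_mul_left k h1
      _ = k := mul_one k
  have h := lagrange_eval k P hP z
  simp only [P, Polynomial.eval_pow, Polynomial.eval_add, Polynomial.eval_C, Polynomial.eval_mul,
    Polynomial.eval_X] at h
  exact h

/-- two polynomial functions agreeing on the unit circle agree -/
lemma poly_circle (P R : Polynomial ℂ) (h : ∀ c : ℂ, ‖c‖ = 1 → P.eval c = R.eval c) : P = R := by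
  apply Polynomial.eq_of_infinite_eval_eq
  have hinf : Set.Infinite (Metric.sphere (0 : ℂ) 1) := by
    intro hfin
    have h1 := hfin.image Complex.re
    refine (Set.Icc_infinite (zero_lt_one (α := ℝ))) (h1.subset fun x hx => ?_)
    refine ⟨⟨x, Real.sqrt (1 - x ^ 2)⟩, ?_, rfl⟩
    rw [mem_sphere_zero_iff_norm]
    have h2 : ‖(⟨x, Real.sqrt (1 - x ^ 2)⟩ : ℂ)‖ ^ 2 = 1 := by
      rw [← Complex.normSq_eq_norm_sq, Complex.normSq_apply]
      simp only
      rw [Real.mul_self_sqrt (by nlinarith [hx.1, hx.2])]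
      ring
    nlinarith [norm_nonneg (⟨x, Real.sqrt (1 - x ^ 2)⟩ : ℂ)]
  refine hinf.mono fun c hc => ?_
  exact h c (by simpa using hc)

/-! Growth bounds. -/

variable {κ : Type*} [Fintype κ]

lemma norm_ip_le (X B : κ → ℂ) : ‖ip X B‖ ≤ (1 + Qd X) * (1 + Qd B) := by
  have h1 : ‖ip X B‖ ≤ Qd X + Qd B := by
    unfold ip Qd
    refine (norm_sum_le _ _).trans ?_
    rw [← Finset.sum_add_distrib]
    refine Finset.sum_le_sum fun i _ => ?_
    rw [norm_mul, RCLike.norm_conj]
    nlinarith [sq_nonneg (‖X i‖ - ‖B i‖), norm_nonneg (X i), norm_nonneg (B i)]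
  nlinarith [Qd_nonneg X, Qd_nonneg B]

lemma continuous_ip_right (X : κ → ℂ) : Continuous (fun B : κ → ℂ => ip X B) := by
  unfold ip
  have := Complex.continuous_conj
  fun_prop

lemma continuous_ip_left (X : κ → ℂ) : Continuous (fun B : κ → ℂ => ip B X) := by
  unfold ip
  fun_prop

lemma conj_ip (X B : κ → ℂ) : starRingEnd ℂ (ip X B) = ip B X := by
  unfold ip
  rw [map_sum]
  refine Finset.sum_congr rfl fun i _ => ?_
  rw [map_mul, Complex.conj_conj, mul_comm]

/-- functions of polynomial growth are integrable -/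
lemma integrable_growth (h : (κ → ℂ) → ℂ) (hm : AEStronglyMeasurable h (gam κ)) (C : ℝ) (m : ℕ)
    (hb : ∀ v, ‖h v‖ ≤ C * (1 + Qd v) ^ m) : Integrable h (gam κ) :=
  ((integrable_pow_Qd (κ := κ) m).const_mul C).mono' hm (Filter.Eventually.of_forall hb)

/-- the kernel -/
noncomputable def Kk (k : ℕ) (g : (κ → ℂ) → ℂ) (X Y : κ → ℂ) : ℂ :=
  ∫ B, g B * (ip X B) ^ k * (ip B Y) ^ k ∂(gam κ)

lemma integral_poly (k : ℕ) (h u w : (κ → ℂ) → ℂ)
    (hint : ∀ l, l ≤ k → Integrable (fun B => h B * (u B ^ l * w B ^ (k - l))) (gam κ)) :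
    ∃ P : Polynomial ℂ, ∀ c : ℂ, ∫ B, h B * (c * u B + w B) ^ k ∂(gam κ) = P.eval c := by
  refine ⟨∑ l ∈ Finset.range (k + 1), Polynomial.C ((k.choose l : ℂ)
    * ∫ B, h B * (u B ^ l * w B ^ (k - l)) ∂(gam κ)) * Polynomial.X ^ l, fun c => ?_⟩
  rw [Polynomial.eval_finsetSum]
  have h1 : ∀ B, h B * (c * u B + w B) ^ k
      = ∑ l ∈ Finset.range (k + 1), ((k.choose l : ℂ) * c ^ l)
        * (h B * (u B ^ l * w B ^ (k - l))) := by
    intro B
    rw [add_pow, Finset.mul_sum]
    refine Finset.sum_congr rfl fun l _ => ?_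
    rw [mul_pow]
    ring
  simp_rw [h1]
  rw [integral_finsetSum]
  · refine Finset.sum_congr rfl fun l _ => ?_
    rw [integral_const_mul, Polynomial.eval_mul, Polynomial.eval_C, Polynomial.eval_pow,
      Polynomial.eval_X]
    ring
  · intro l hl
    exact (hint l (by simpa [Nat.lt_succ_iff] using hl)).const_mul _

/-! The unitary trick. -/

variable {n : ℕ}

/-- left action of a matrix -/
def act (A : Matrix (Fin n) (Fin n) ℂ) (X : Fin n × Fin n → ℂ) : Fin n × Fin n → ℂ :=
  ofM (A * toM X)

lemma act_act (A B : Matrix (Fin n) (Fin n) ℂ) (X : Fin n × Fin n → ℂ) :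
    act A (act B X) = act (A * B) X := by
  unfold act
  rw [toM_ofM, Matrix.mul_assoc]

lemma act_one (X : Fin n × Fin n → ℂ) : act 1 X = X := by
  unfold act
  rw [Matrix.one_mul, ofM_toM]

lemma ip_trace (X B : Fin n × Fin n → ℂ) : ip X B = (toM X * (toM B).conjTranspose).trace := by
  unfold ip
  rw [Fintype.sum_prod_type, Matrix.trace]
  refine Finset.sum_congr rfl fun i _ => ?_
  rw [Matrix.diag_apply, Matrix.mul_apply]
  rfl

lemma ip_act (A : Matrix (Fin n) (Fin n) ℂ) (X B : Fin n × Fin n → ℂ) :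
    ip (act A X) B = ip X (act A.conjTranspose B) := by
  rw [ip_trace, ip_trace]
  unfold act
  rw [toM_ofM, toM_ofM, Matrix.conjTranspose_mul, Matrix.conjTranspose_conjTranspose,
    Matrix.mul_assoc, Matrix.trace_mul_comm, Matrix.mul_assoc]

lemma gam_act (U : Matrix (Fin n) (Fin n) ℂ) (hU : U.conjTranspose * U = 1) :
    MeasurePreserving (act U) (gam (Fin n × Fin n)) (gam (Fin n × Fin n)) := gam_left U hU

/-- admissible weights: bounded measurable and left unitarily invariant -/
structure Adm (g : (Fin n × Fin n → ℂ) → ℂ) : Prop where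
  meas : Measurable g
  bdd : ∀ B, ‖g B‖ ≤ 1
  inv : ∀ U : Matrix (Fin n) (Fin n) ℂ, U.conjTranspose * U = 1 → ∀ B, g (act U B) = g B

lemma K_unitary {g : (Fin n × Fin n → ℂ) → ℂ} (hg : Adm g) (k : ℕ)
    (U : Matrix (Fin n) (Fin n) ℂ) (hU : U.conjTranspose * U = 1) (X Y : Fin n × Fin n → ℂ) :
    Kk k g (act U X) (act U Y) = Kk k g X Y := by
  unfold Kk
  have hp := gam_act U hU
  have hm : Measurable (fun B => g B * (ip (act U X) B) ^ k * (ip B (act U Y)) ^ k) :=
    (hg.meas.mul ((continuous_ip_right _).measurable.pow_const k)).mul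
      ((continuous_ip_left _).measurable.pow_const k)
  conv_lhs => rw [← hp.map_eq]
  rw [integral_map hp.measurable.aemeasurable hm.aestronglyMeasurable]
  refine integral_congr_ae (Filter.Eventually.of_forall fun B => ?_)
  simp only
  rw [hg.inv U hU, ip_act, ip_act, act_act, act_act, hU, act_one, act_one]

lemma K_unitary' {g : (Fin n × Fin n → ℂ) → ℂ} (hg : Adm g) (k : ℕ)
    (U : Matrix (Fin n) (Fin n) ℂ) (hU : U.conjTranspose * U = 1) (X Y : Fin n × Fin n → ℂ) :
    Kk k g (act U X) Y = Kk k g X (act U.conjTranspose Y) := by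
  have h := K_unitary hg k U hU X (act U.conjTranspose Y)
  rw [act_act, mul_eq_one_comm.1 hU, act_one] at h
  exact h

/-- part of a matrix in row i / outside row i -/
def rowp (i : Fin n) (X : Fin n × Fin n → ℂ) : Fin n × Fin n → ℂ :=
  fun p => if p.1 = i then X p else 0

def rowc (i : Fin n) (X : Fin n × Fin n → ℂ) : Fin n × Fin n → ℂ :=
  fun p => if p.1 = i then 0 else X p

/-- diagonal matrix with a single nontrivial entry -/
noncomputable def Di (i : Fin n) (c : ℂ) : Matrix (Fin n) (Fin n) ℂ :=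
  Matrix.diagonal (fun j => if j = i then c else 1)

lemma act_Di (i : Fin n) (c : ℂ) (X : Fin n × Fin n → ℂ) :
    act (Di i c) X = c • rowp i X + rowc i X := by
  funext p
  unfold act Di ofM
  rw [Matrix.diagonal_mul]
  simp only [toM, Matrix.of_apply, Pi.add_apply, Pi.smul_apply, rowp, rowc, smul_eq_mul]
  split_ifs <;> simp

lemma Di_conjTranspose (i : Fin n) (c : ℂ) :
    (Di i c).conjTranspose = Di i (starRingEnd ℂ c) := by
  unfold Di
  rw [Matrix.diagonal_conjTranspose]
  congr 1
  funext j
  simp only [Pi.star_apply]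
  split_ifs <;> simp

lemma Di_unitary (i : Fin n) (c : ℂ) (hc : ‖c‖ = 1) :
    (Di i c).conjTranspose * Di i c = 1 := by
  rw [Di_conjTranspose]
  unfold Di
  rw [Matrix.diagonal_mul_diagonal, ← Matrix.diagonal_one]
  congr 1
  funext j
  split_ifs
  · rw [← Complex.normSq_eq_conj_mul_self, Complex.normSq_eq_norm_sq, hc]
    simp
  · simp

lemma integrable_K {g : (Fin n × Fin n → ℂ) → ℂ} (hg : Adm g) (a b c d : ℕ)
    (X Y Z W : Fin n × Fin n → ℂ) :
    Integrable (fun B => g B * (ip X B) ^ a * (ip Y B) ^ b * (ip B Z) ^ c * (ip B W) ^ d)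
      (gam (Fin n × Fin n)) := by
  refine integrable_growth _ ?_ ((1 + Qd X) ^ a * (1 + Qd Y) ^ b * (1 + Qd Z) ^ c
    * (1 + Qd W) ^ d) (a + b + c + d) ?_
  · exact ((((hg.meas.mul ((continuous_ip_right _).measurable.pow_const a)).mul
      ((continuous_ip_right _).measurable.pow_const b)).mul
      ((continuous_ip_left _).measurable.pow_const c)).mul
      ((continuous_ip_left _).measurable.pow_const d)).aestronglyMeasurable
  · intro B
    simp only [norm_mul, norm_pow]
    have h1 := norm_ip_le X B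
    have h2 := norm_ip_le Y B
    have h3 := norm_ip_le B Z
    have h4 := norm_ip_le B W
    have hx : 0 ≤ 1 + Qd X := by linarith [Qd_nonneg X]
    have hy : 0 ≤ 1 + Qd Y := by linarith [Qd_nonneg Y]
    have hz : 0 ≤ 1 + Qd Z := by linarith [Qd_nonneg Z]
    have hw : 0 ≤ 1 + Qd W := by linarith [Qd_nonneg W]
    have hb : 0 ≤ 1 + Qd B := by linarith [Qd_nonneg B]
    generalize 1 + Qd X = x at *
    generalize 1 + Qd Y = y at *
    generalize 1 + Qd Z = z at *
    generalize 1 + Qd W = w at *
    generalize 1 + Qd B = q at *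
    calc ‖g B‖ * ‖ip X B‖ ^ a * ‖ip Y B‖ ^ b * ‖ip B Z‖ ^ c * ‖ip B W‖ ^ d
        ≤ 1 * (x * q) ^ a * (y * q) ^ b
          * (q * z) ^ c * (q * w) ^ d := by
          have := hg.bdd B
          gcongr
      _ = _ := by simp only [mul_pow, pow_add]; ring

lemma ip_smul_left (c : ℂ) (X B : κ → ℂ) : ip (c • X) B = c * ip X B := by
  unfold ip
  rw [Finset.mul_sum]
  refine Finset.sum_congr rfl fun i _ => ?_
  simp only [Pi.smul_apply, smul_eq_mul]
  ring

lemma ip_add_left (X Y B : κ → ℂ) : ip (X + Y) B = ip X B + ip Y B := by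
  unfold ip
  rw [← Finset.sum_add_distrib]
  refine Finset.sum_congr rfl fun i _ => ?_
  simp only [Pi.add_apply]
  ring

lemma ip_smul_right (c : ℂ) (X B : κ → ℂ) : ip X (c • B) = starRingEnd ℂ c * ip X B := by
  rw [← conj_ip, ip_smul_left, map_mul, conj_ip]

lemma ip_add_right (X Y B : κ → ℂ) : ip X (Y + B) = ip X Y + ip X B := by
  rw [← conj_ip, ip_add_left, map_add, conj_ip, conj_ip]

lemma K_Di {g : (Fin n × Fin n → ℂ) → ℂ} (hg : Adm g) (k : ℕ) (i : Fin n) (c : ℂ)
    (X Y : Fin n × Fin n → ℂ) :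
    Kk k g (act (Di i c) X) Y = Kk k g X (act (Di i (starRingEnd ℂ c)) Y) := by
  have hL : ∃ P : Polynomial ℂ, ∀ c : ℂ, Kk k g (act (Di i c) X) Y = P.eval c := by
    obtain ⟨P, hP⟩ := integral_poly k (fun B => g B * (ip B Y) ^ k)
      (fun B => ip (rowp i X) B) (fun B => ip (rowc i X) B) (by
        intro l _
        refine (integrable_K hg l (k - l) k 0 (rowp i X) (rowc i X) Y Y).congr
          (Filter.Eventually.of_forall fun B => ?_)
        simp only
        ring)
    refine ⟨P, fun c => ?_⟩
    rw [← hP c]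
    unfold Kk
    refine integral_congr_ae (Filter.Eventually.of_forall fun B => ?_)
    simp only
    rw [act_Di, ip_add_left, ip_smul_left]
    ring
  have hR : ∃ P : Polynomial ℂ, ∀ c : ℂ,
      Kk k g X (act (Di i (starRingEnd ℂ c)) Y) = P.eval c := by
    obtain ⟨P, hP⟩ := integral_poly k (fun B => g B * (ip X B) ^ k)
      (fun B => ip B (rowp i Y)) (fun B => ip B (rowc i Y)) (by
        intro l _
        refine (integrable_K hg k 0 l (k - l) X X (rowp i Y) (rowc i Y)).congr
          (Filter.Eventually.of_forall fun B => ?_)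
        simp only
        ring)
    refine ⟨P, fun c => ?_⟩
    rw [← hP c]
    unfold Kk
    refine integral_congr_ae (Filter.Eventually.of_forall fun B => ?_)
    simp only
    rw [act_Di, ip_add_right, ip_smul_right, Complex.conj_conj]
  obtain ⟨P, hP⟩ := hL
  obtain ⟨R, hR⟩ := hR
  have hPR : P = R := poly_circle P R fun c hc => by
    rw [← hP, ← hR, K_unitary' hg k (Di i c) (Di_unitary i c hc), Di_conjTranspose]
  rw [hP, hR, hPR]

lemma K_diag {g : (Fin n × Fin n → ℂ) → ℂ} (hg : Adm g) (k : ℕ) (d : Fin n → ℂ)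
    (X Y : Fin n × Fin n → ℂ) :
    Kk k g (act (Matrix.diagonal d) X) Y
      = Kk k g X (act (Matrix.diagonal d).conjTranspose Y) := by
  classical
  have key : ∀ (F : Finset (Fin n)) (X Y : Fin n × Fin n → ℂ),
      Kk k g (act (Matrix.diagonal (fun i => if i ∈ F then d i else 1)) X) Y
      = Kk k g X (act (Matrix.diagonal (fun i => if i ∈ F then d i else 1)).conjTranspose Y) := by
    intro F
    induction F using Finset.induction_on with
    | empty =>
      intro X Y
      simp [act_one]
    | insert i F hi ih =>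
      intro X Y
      have e : Matrix.diagonal (fun j => if j ∈ insert i F then d j else 1)
          = Di i (d i) * Matrix.diagonal (fun j => if j ∈ F then d j else 1) := by
        unfold Di
        rw [Matrix.diagonal_mul_diagonal]
        congr 1
        funext j
        by_cases hj : j = i
        · subst hj; simp [hi]
        · simp [hj]
      have e2 : Matrix.diagonal (fun j => if j ∈ insert i F then d j else 1)
          = Matrix.diagonal (fun j => if j ∈ F then d j else 1) * Di i (d i) := by
        unfold Di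
        rw [Matrix.diagonal_mul_diagonal]
        congr 1
        funext j
        by_cases hj : j = i
        · subst hj; simp [hi]
        · simp [hj]
      conv_rhs => rw [e, Matrix.conjTranspose_mul, ← act_act, ← ih, Di_conjTranspose, ← K_Di hg,
        act_act, ← e]
  have h := key Finset.univ X Y
  simpa using h

lemma exists_svd (A : Matrix (Fin n) (Fin n) ℂ) (hA : A.det ≠ 0) :
    ∃ (U W : Matrix (Fin n) (Fin n) ℂ) (d : Fin n → ℂ), U.conjTranspose * U = 1 ∧
      W.conjTranspose * W = 1 ∧ A = U * Matrix.diagonal d * W := by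
  have hH : (A * A.conjTranspose).IsHermitian := Matrix.isHermitian_mul_conjTranspose_self A
  have hps : (A * A.conjTranspose).PosSemidef := Matrix.posSemidef_self_mul_conjTranspose A
  set lam := hH.eigenvalues with hlam
  have hnn : ∀ i, 0 ≤ lam i := fun i => hps.eigenvalues_nonneg i
  have hne : ∀ i, lam i ≠ 0 := by
    intro i h0
    have h1 := hH.det_eq_prod_eigenvalues
    rw [Matrix.det_mul, Matrix.det_conjTranspose] at h1
    have h2 : ∏ i, ((hH.eigenvalues i : ℝ) : ℂ) = 0 :=
      Finset.prod_eq_zero (Finset.mem_univ i) (by rw [← hlam, h0]; simp)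
    have h3 : A.det * star A.det ≠ 0 := mul_ne_zero hA (star_ne_zero.2 hA)
    exact h3 (h1.trans h2)
  have hpos : ∀ i, 0 < Real.sqrt (lam i) := fun i =>
    Real.sqrt_pos.2 (lt_of_le_of_ne (hnn i) (hne i).symm)
  let U : Matrix (Fin n) (Fin n) ℂ := (hH.eigenvectorUnitary : Matrix (Fin n) (Fin n) ℂ)
  have hUU : U.conjTranspose * U = 1 := by
    have := (Matrix.mem_unitaryGroup_iff' (A := U)).1 hH.eigenvectorUnitary.2
    exact this
  have hUU' : U * U.conjTranspose = 1 := mul_eq_one_comm.1 hUU
  have hspec : A * A.conjTranspose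
      = U * Matrix.diagonal (fun i => ((lam i : ℝ) : ℂ)) * U.conjTranspose := by
    have := hH.spectral_theorem
    rw [Unitary.conjStarAlgAut_apply] at this
    exact this
  let d : Fin n → ℂ := fun i => ((Real.sqrt (lam i) : ℝ) : ℂ)
  let e : Fin n → ℂ := fun i => (((Real.sqrt (lam i))⁻¹ : ℝ) : ℂ)
  have hde : Matrix.diagonal d * Matrix.diagonal e = 1 := by
    rw [Matrix.diagonal_mul_diagonal, ← Matrix.diagonal_one]
    congr 1
    funext i
    simp only [d, e]
    rw [← Complex.ofReal_mul, mul_inv_cancel₀ (hpos i).ne']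
    simp
  have hee : (Matrix.diagonal e).conjTranspose = Matrix.diagonal e := by
    rw [Matrix.diagonal_conjTranspose]
    congr 1
    funext i
    simp [e]
  let W := Matrix.diagonal e * U.conjTranspose * A
  have hW : W * W.conjTranspose = 1 := by
    simp only [W]
    rw [Matrix.conjTranspose_mul, Matrix.conjTranspose_mul, Matrix.conjTranspose_conjTranspose, hee]
    calc Matrix.diagonal e * U.conjTranspose * A * (A.conjTranspose * (U * Matrix.diagonal e))
        = Matrix.diagonal e * U.conjTranspose * (A * A.conjTranspose) * U * Matrix.diagonal e := by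
          simp only [Matrix.mul_assoc]
      _ = Matrix.diagonal e * (U.conjTranspose * U) * Matrix.diagonal (fun i => ((lam i : ℝ) : ℂ))
          * (U.conjTranspose * U) * Matrix.diagonal e := by
          rw [hspec]; simp only [Matrix.mul_assoc]
      _ = 1 := by
          rw [hUU, Matrix.mul_one, Matrix.mul_one, Matrix.diagonal_mul_diagonal,
            Matrix.diagonal_mul_diagonal, ← Matrix.diagonal_one]
          congr 1
          funext i
          simp only [e]
          rw [← Complex.ofReal_mul, ← Complex.ofReal_mul]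
          have : (Real.sqrt (lam i))⁻¹ * lam i * (Real.sqrt (lam i))⁻¹ = 1 := by
            have h4 := Real.mul_self_sqrt (hnn i)
            have h5 := (hpos i).ne'
            field_simp
            nlinarith
          rw [this]
          simp
  refine ⟨U, W, d, hUU, mul_eq_one_comm.1 hW, ?_⟩
  simp only [W]
  calc A = (U * U.conjTranspose) * A := by rw [hUU', Matrix.one_mul]
    _ = U * (Matrix.diagonal d * Matrix.diagonal e) * U.conjTranspose * A := by
        rw [hde, Matrix.mul_one]
    _ = _ := by simp only [Matrix.mul_assoc]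

lemma K_gen {g : (Fin n × Fin n → ℂ) → ℂ} (hg : Adm g) (k : ℕ)
    (A : Matrix (Fin n) (Fin n) ℂ) (hA : A.det ≠ 0) (X Y : Fin n × Fin n → ℂ) :
    Kk k g (act A X) Y = Kk k g X (act A.conjTranspose Y) := by
  obtain ⟨U, W, d, hU, hW, hAe⟩ := exists_svd A hA
  rw [hAe, Matrix.conjTranspose_mul, Matrix.conjTranspose_mul, ← act_act, ← act_act, ← act_act,
    ← act_act, K_unitary' hg k U hU, K_diag hg, K_unitary' hg k W hW]

end Pool.Agent.Q293.FH
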