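import Mathlib
import Pool.Agent.Q293.FH.Ker

set_option linter.unusedSectionVars false

open MeasureTheory Complex

namespace Pool.Agent.Q293.FH

variable {κ : Type*} [Fintype κ]

/-- rising factorial -/
noncomputable def rf (p : ℂ) (m : ℕ) : ℂ := (ascPochhammer ℂ m).eval p

lemma rf_zero (p : ℂ) : rf p 0 = 1 := by simp [rf]

lemma rf_succ (p : ℂ) (m : ℕ) : rf p (m + 1) = rf p m * (p + m) := by
  unfold rf
  rw [ascPochhammer_succ_eval]

lemma prodN_le {J : Type*} (S : J → Finset κ) (F : Finset J) (α : J → ℕ) (v : κ → ℂ) :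
    ∏ j ∈ F, (Ns (S j) v) ^ α j ≤ (1 + Qd v) ^ (∑ j ∈ F, α j) := by
  rw [← Finset.prod_pow_eq_pow_sum]
  refine Finset.prod_le_prod (fun j _ => pow_nonneg (Ns_nonneg _ _) _) fun j _ => ?_
  refine pow_le_pow_left₀ (Ns_nonneg _ _) ?_ _
  linarith [Ns_le_Qd (S j) v]

lemma integrable_wN {J : Type*} (S : J → Finset κ) (F : Finset J) (α : J → ℕ)
    (w0 : (κ → ℂ) → ℂ) (hm : Measurable w0) (hb : ∀ v, ‖w0 v‖ ≤ 1) :
    Integrable (fun v => w0 v * ((∏ j ∈ F, (Ns (S j) v) ^ α j : ℝ) : ℂ)) (gam κ) := by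
  refine integrable_growth _ ?_ 1 (∑ j ∈ F, α j) fun v => ?_
  · refine (hm.mul ?_).aestronglyMeasurable
    refine (Complex.continuous_ofReal.comp ?_).measurable
    exact continuous_finsetProd _ fun j _ => (continuous_Ns _).pow _
  · rw [norm_mul, Complex.norm_real, Real.norm_eq_abs,
      abs_of_nonneg (Finset.prod_nonneg fun j _ => pow_nonneg (Ns_nonneg _ _) _)]
    have h1 := prodN_le S F α v
    have h2 : 0 ≤ ∏ j ∈ F, (Ns (S j) v) ^ α j :=
      Finset.prod_nonneg fun j _ => pow_nonneg (Ns_nonneg _ _) _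
    calc ‖w0 v‖ * ∏ j ∈ F, (Ns (S j) v) ^ α j ≤ 1 * (1 + Qd v) ^ (∑ j ∈ F, α j) := by
          gcongr
          exact hb v
      _ = _ := rfl

lemma Ns_scl_disj (S T : Finset κ) [DecidableEq κ] (h : Disjoint S T) (r : ℝ) (v : κ → ℂ) :
    Ns T (scl S r v) = Ns T v := by
  unfold Ns scl
  refine Finset.sum_congr rfl fun i hi => ?_
  rw [if_neg (Finset.disjoint_right.1 h hi)]

/-- joint moments of disjoint squared norms under a homogeneous weight -/
lemma gamma_moments {J : Type*} [Fintype J] [DecidableEq J] [DecidableEq κ] (S : J → Finset κ)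
    (hS : ∀ i j, i ≠ j → Disjoint (S i) (S j)) (w0 : (κ → ℂ) → ℂ) (a0 : ℂ) (c0 : ℕ)
    (hcard : ∀ j, (S j).card = c0)
    (hw0 : ∀ j, ∀ u : ℝ, ∀ᵐ v ∂(gam κ), w0 (scl (S j) (Real.exp u) v) = Complex.exp (a0 * u) * w0 v)
    (hm : Measurable w0) (hb : ∀ v, ‖w0 v‖ ≤ 1) (α : J → ℕ) :
    ∫ v, w0 v * ((∏ j, (Ns (S j) v) ^ α j : ℝ) : ℂ) ∂(gam κ)
      = (∏ j, rf (c0 + a0 / 2) (α j)) * ∫ v, w0 v ∂(gam κ) := by
  have key : ∀ F : Finset J, ∫ v, w0 v * ((∏ j ∈ F, (Ns (S j) v) ^ α j : ℝ) : ℂ) ∂(gam κ)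
      = (∏ j ∈ F, rf (c0 + a0 / 2) (α j)) * ∫ v, w0 v ∂(gam κ) := by
    intro F
    induction F using Finset.induction_on with
    | empty => simp
    | insert i F hi ih =>
      rw [Finset.prod_insert hi]
      have hstep : ∀ m : ℕ, ∫ v, w0 v * ((∏ j ∈ F, (Ns (S j) v) ^ α j : ℝ) : ℂ)
          * ((Ns (S i) v ^ m : ℝ) : ℂ) ∂(gam κ) = rf (c0 + a0 / 2) m
            * ∫ v, w0 v * ((∏ j ∈ F, (Ns (S j) v) ^ α j : ℝ) : ℂ) ∂(gam κ) := by
        intro m
        induction m with
        | zero => simp [rf_zero]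
        | succ m ihm =>
          have hintm : ∀ m : ℕ, Integrable (fun v => w0 v
              * ((∏ j ∈ F, (Ns (S j) v) ^ α j : ℝ) : ℂ) * ((Ns (S i) v ^ m : ℝ) : ℂ))
              (gam κ) := by
            intro m
            have h1 := integrable_wN S (insert i F) (Function.update α i m) w0 hm hb
            refine h1.congr (Filter.Eventually.of_forall fun v => ?_)
            simp only
            rw [Finset.prod_insert hi, Function.update_self]
            have : ∏ j ∈ F, (Ns (S j) v) ^ (Function.update α i m) j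
                = ∏ j ∈ F, (Ns (S j) v) ^ α j := by
              refine Finset.prod_congr rfl fun j hj => ?_
              rw [Function.update_of_ne (show j ≠ i from fun h => hi (h ▸ hj))]
            rw [this]
            push_cast
            ring
          have h := hom_moment (S i) (fun v => w0 v
              * ((∏ j ∈ F, (Ns (S j) v) ^ α j : ℝ) : ℂ) * ((Ns (S i) v ^ m : ℝ) : ℂ))
              (a0 + 2 * m) ?_ (hintm m) ?_
          · rw [rf_succ]
            rw [ihm, hcard] at h
            have e : ∀ v : κ → ℂ, w0 v * ((∏ j ∈ F, (Ns (S j) v) ^ α j : ℝ) : ℂ)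
                * ((Ns (S i) v ^ (m + 1) : ℝ) : ℂ) = (Ns (S i) v : ℂ) * (w0 v
                * ((∏ j ∈ F, (Ns (S j) v) ^ α j : ℝ) : ℂ) * ((Ns (S i) v ^ m : ℝ) : ℂ)) := by
              intro v
              push_cast
              ring
            simp_rw [e]
            rw [h]
            ring
          · intro u
            filter_upwards [hw0 i u] with v hv
            rw [hv, Ns_scl]
            have h2 : ∏ j ∈ F, (Ns (S j) (scl (S i) (Real.exp u) v)) ^ α j
                = ∏ j ∈ F, (Ns (S j) v) ^ α j := by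
              refine Finset.prod_congr rfl fun j hj => ?_
              rw [Ns_scl_disj (S i) (S j) (hS i j (fun h : i = j => hi (h.symm ▸ hj)))]
            rw [h2]
            have h3 : Complex.exp ((a0 + 2 * m) * u)
                = Complex.exp (a0 * u) * (Complex.exp u ^ 2) ^ m := by
              rw [← Complex.exp_nat_mul, ← Complex.exp_nat_mul, ← Complex.exp_add]
              congr 1
              push_cast
              ring
            rw [h3]
            push_cast
            ring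
          · refine (hintm (m + 1)).congr (Filter.Eventually.of_forall fun v => ?_)
            simp only
            push_cast
            ring
      have h4 := hstep (α i)
      rw [ih] at h4
      have e : ∀ v : κ → ℂ, w0 v * ((∏ j ∈ insert i F, (Ns (S j) v) ^ α j : ℝ) : ℂ)
          = w0 v * ((∏ j ∈ F, (Ns (S j) v) ^ α j : ℝ) : ℂ) * ((Ns (S i) v ^ α i : ℝ) : ℂ) := by
        intro v
        rw [Finset.prod_insert hi]
        push_cast
        ring
      simp_rw [e]
      rw [h4]
      ring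
  exact key Finset.univ

/-- moments of weighted sums of squared norms are polynomial in the shape parameter -/
lemma sum_moments {J : Type*} [Fintype J] [DecidableEq J] (d : J → ℂ) (k : ℕ) :
    ∃ R : Polynomial ℂ, R.natDegree ≤ k ∧ ∀ (κ : Type) [Fintype κ] [DecidableEq κ]
      (S : J → Finset κ), (∀ i j, i ≠ j → Disjoint (S i) (S j)) →
      ∀ (w0 : (κ → ℂ) → ℂ) (a0 : ℂ) (c0 : ℕ), (∀ j, (S j).card = c0) →
      (∀ j, ∀ u : ℝ, ∀ᵐ v ∂(gam κ),
        w0 (scl (S j) (Real.exp u) v) = Complex.exp (a0 * u) * w0 v) →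
      Measurable w0 → (∀ v, ‖w0 v‖ ≤ 1) →
      ∫ v, w0 v * (∑ j, d j * (Ns (S j) v : ℂ)) ^ k ∂(gam κ)
        = R.eval (c0 + a0 / 2) * ∫ v, w0 v ∂(gam κ) := by
  refine ⟨∑ α ∈ Finset.piAntidiag Finset.univ k, Polynomial.C
    ((Nat.multinomial Finset.univ α : ℂ) * ∏ j, d j ^ α j) * ∏ j, ascPochhammer ℂ (α j), ?_, ?_⟩
  · refine Polynomial.natDegree_sum_le_of_forall_le _ _ fun α hα => ?_
    refine (Polynomial.natDegree_C_mul_le _ _).trans ?_
    refine (Polynomial.natDegree_prod_le _ _).trans ?_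
    simp only [ascPochhammer_natDegree]
    rw [(Finset.mem_piAntidiag.1 hα).1]
  · intro κ _ _ S hS w0 a0 c0 hcard hw0 hm hb
    have h1 : ∀ v : κ → ℂ, w0 v * (∑ j, d j * (Ns (S j) v : ℂ)) ^ k
        = ∑ α ∈ Finset.piAntidiag Finset.univ k, ((Nat.multinomial Finset.univ α : ℂ)
          * ∏ j, d j ^ α j) * (w0 v * ((∏ j, (Ns (S j) v) ^ α j : ℝ) : ℂ)) := by
      intro v
      rw [Finset.sum_pow_eq_sum_piAntidiag, Finset.mul_sum]
      refine Finset.sum_congr rfl fun α _ => ?_
      simp only [mul_pow]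
      rw [Finset.prod_mul_distrib]
      push_cast
      ring
    simp_rw [h1]
    rw [integral_finsetSum]
    · rw [Polynomial.eval_finsetSum, Finset.sum_mul]
      refine Finset.sum_congr rfl fun α _ => ?_
      rw [integral_const_mul, gamma_moments S hS w0 a0 c0 hcard hw0 hm hb α, Polynomial.eval_mul,
        Polynomial.eval_C, Polynomial.eval_prod]
      unfold rf
      ring
    · intro α _
      exact (integrable_wN S Finset.univ α w0 hm hb).const_mul _

/-! The unimodular weight and its symmetries. -/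

variable {n : ℕ}

/-- the phase weight -/
noncomputable def ph (t : ℝ) (v : Fin n × Fin n → ℂ) : ℂ :=
  Complex.exp ((2 * t * Real.log ‖(toM v).det‖ : ℝ) * I)

lemma norm_ph (t : ℝ) (v : Fin n × Fin n → ℂ) : ‖ph t v‖ = 1 := by
  unfold ph
  exact Complex.norm_exp_ofReal_mul_I _

lemma measurable_ph (t : ℝ) : Measurable (ph t : (Fin n × Fin n → ℂ) → ℂ) := by
  unfold ph
  have h : Measurable (fun v : Fin n × Fin n → ℂ => ‖(toM v).det‖) :=
    (continuous_det_toM n).norm.measurable
  have h2 : Measurable (fun v : Fin n × Fin n → ℂ => 2 * t * Real.log ‖(toM v).det‖) :=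
    (Real.measurable_log.comp h).const_mul _
  exact Complex.measurable_exp.comp ((Complex.measurable_ofReal.comp h2).mul_const I)

lemma ph_congr (t : ℝ) (v w : Fin n × Fin n → ℂ) (h : ‖(toM v).det‖ = ‖(toM w).det‖) :
    ph t v = ph t w := by
  unfold ph
  rw [h]

lemma adm_ph (t : ℝ) : Adm (ph t : (Fin n × Fin n → ℂ) → ℂ) where
  meas := measurable_ph t
  bdd := fun B => (norm_ph t B).le
  inv := fun U hU B => ph_congr t _ _ (by
    unfold act
    rw [toM_ofM, Matrix.det_mul, norm_mul, det_unitary_norm U hU, one_mul])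

lemma adm_one : Adm (fun _ : Fin n × Fin n → ℂ => (1 : ℂ)) where
  meas := measurable_const
  bdd := fun B => by simp
  inv := fun U hU B => rfl

/-- truncated columns -/
def colT (n m : ℕ) (j : Fin n) : Finset (Fin n × Fin n) :=
  Finset.univ.filter (fun p => (p.1 : ℕ) < m ∧ p.2 = j)

lemma colT_card (n m : ℕ) (hm : m ≤ n) (j : Fin n) : (colT n m j).card = m := by
  unfold colT
  have h1 : (Finset.univ.filter (fun p : Fin n × Fin n => (p.1 : ℕ) < m ∧ p.2 = j))
      = (Finset.univ.filter (fun i : Fin n => (i : ℕ) < m)).map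
        ⟨fun i => (i, j), fun a b h => (Prod.ext_iff.1 h).1⟩ := by
    ext p
    simp only [Finset.mem_filter, Finset.mem_univ, true_and, Finset.mem_map]
    constructor
    · rintro ⟨h1, h2⟩
      exact ⟨p.1, h1, Prod.ext rfl h2.symm⟩
    · rintro ⟨i, hi, rfl⟩
      exact ⟨hi, rfl⟩
  rw [h1, Finset.card_map, Fin.card_filter_val_lt]
  exact min_eq_right hm

lemma colT_disj (n m : ℕ) (i j : Fin n) (h : i ≠ j) : Disjoint (colT n m i) (colT n m j) := by
  rw [Finset.disjoint_left]
  intro p h1 h2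
  simp only [colT, Finset.mem_filter, Finset.mem_univ, true_and] at h1 h2
  exact h (h1.2.symm.trans h2.2)

/-- truncated rows -/
def rowT (n m : ℕ) : Finset (Fin n × Fin n) := Finset.univ.filter (fun p => (p.1 : ℕ) < m)

lemma rowT_card (n m : ℕ) (hm : m ≤ n) : (rowT n m).card = m * n := by
  unfold rowT
  have h1 : (Finset.univ.filter (fun p : Fin n × Fin n => (p.1 : ℕ) < m))
      = (Finset.univ.filter (fun i : Fin n => (i : ℕ) < m)) ×ˢ Finset.univ := by
    ext p
    simp
  rw [h1, Finset.card_product, Finset.card_univ, Fintype.card_fin, Fin.card_filter_val_lt,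
    min_eq_right hm]

lemma det_scl_rowT (m : ℕ) (hm : m ≤ n) (r : ℝ) (v : Fin n × Fin n → ℂ) :
    (toM (scl (rowT n m) r v)).det = (r : ℂ) ^ m * (toM v).det := by
  have h1 : toM (scl (rowT n m) r v)
      = Matrix.diagonal (fun i : Fin n => if (i : ℕ) < m then (r : ℂ) else 1) * toM v := by
    ext i j
    rw [Matrix.diagonal_mul]
    simp only [toM, Matrix.of_apply, scl, rowT, Finset.mem_filter, Finset.mem_univ, true_and]
    split_ifs <;> simp
  rw [h1, Matrix.det_mul, Matrix.det_diagonal]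
  congr 1
  rw [Finset.prod_ite, Finset.prod_const, Finset.prod_const_one, mul_one,
    Fin.card_filter_val_lt, min_eq_right hm]

lemma det_scl_colT (j : Fin n) (r : ℝ) (v : Fin n × Fin n → ℂ) :
    (toM (scl (colT n n j) r v)).det = (r : ℂ) * (toM v).det := by
  have h1 : toM (scl (colT n n j) r v)
      = toM v * Matrix.diagonal (fun i : Fin n => if i = j then (r : ℂ) else 1) := by
    ext i l
    rw [Matrix.mul_diagonal]
    simp only [toM, Matrix.of_apply, scl, colT, Finset.mem_filter, Finset.mem_univ, true_and,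
      Fin.is_lt]
    split_ifs <;> simp [mul_comm]
  rw [h1, Matrix.det_mul, Matrix.det_diagonal, Finset.prod_ite_eq' Finset.univ j]
  simp [mul_comm]

lemma ph_scale (t : ℝ) (m : ℕ) (u : ℝ) (v w : Fin n × Fin n → ℂ) (hv : (toM v).det ≠ 0)
    (h : (toM w).det = ((Real.exp u : ℝ) : ℂ) ^ m * (toM v).det) :
    ph t w = Complex.exp ((2 * t * m * I) * u) * ph t v := by
  unfold ph
  rw [h, norm_mul, norm_pow, Complex.norm_real, Real.norm_eq_abs, Real.abs_exp,
    Real.log_mul (by positivity) (norm_ne_zero_iff.2 hv), Real.log_pow, Real.log_exp,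
    ← Complex.exp_add]
  congr 1
  push_cast
  ring

end Pool.Agent.Q293.FH
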