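import Mathlib
import Pool.Agent.Q293.FH.Mom

set_option linter.unusedSectionVars false

open MeasureTheory Complex

namespace Pool.Agent.Q293.FH

variable {n : ℕ}

/-- coordinate projection matrix -/
noncomputable def Xm (n m : ℕ) : Matrix (Fin n) (Fin n) ℂ :=
  Matrix.diagonal (fun i : Fin n => if (i : ℕ) < m then 1 else 0)

lemma Xm_conjTranspose (m : ℕ) : (Xm n m).conjTranspose = Xm n m := by
  unfold Xm
  rw [Matrix.diagonal_conjTranspose]
  congr 1
  funext i
  simp only [Pi.star_apply]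
  split_ifs <;> simp

lemma Xm_self : Xm n n = 1 := by
  unfold Xm
  rw [← Matrix.diagonal_one]
  congr 1
  funext i
  simp

/-- truncated Gram matrix -/
noncomputable def Zm (m : ℕ) (V : Fin n × Fin n → ℂ) : Fin n × Fin n → ℂ :=
  ofM ((toM V).conjTranspose * (Xm n m * toM V))

lemma Zm_eq_act (m : ℕ) (V : Fin n × Fin n → ℂ) :
    Zm m V = act (toM V).conjTranspose (act (Xm n m) V) := by
  unfold Zm act
  rw [toM_ofM]

lemma Zm_herm (m : ℕ) (V : Fin n × Fin n → ℂ) :
    (toM (Zm m V)).conjTranspose = toM (Zm m V) := by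
  unfold Zm
  rw [toM_ofM, Matrix.conjTranspose_mul, Matrix.conjTranspose_mul, Matrix.conjTranspose_conjTranspose,
    Xm_conjTranspose, Matrix.mul_assoc]

lemma continuous_Zm (m : ℕ) : Continuous (Zm m : (Fin n × Fin n → ℂ) → (Fin n × Fin n → ℂ)) := by
  unfold Zm
  refine continuous_pi fun p => ?_
  have h1 : Continuous (fun V : Fin n × Fin n → ℂ => toM V) :=
    continuous_matrix fun i j => continuous_apply (i, j)
  have h2 : Continuous (fun V : Fin n × Fin n → ℂ =>
      (toM V).conjTranspose * (Xm n m * toM V)) :=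
    (h1.matrix_conjTranspose).matrix_mul (continuous_const.matrix_mul h1)
  exact h2.matrix_elem p.1 p.2

lemma Qd_act_Xm (m : ℕ) (V : Fin n × Fin n → ℂ) : Qd (act (Xm n m) V) ≤ Qd V := by
  unfold Qd
  refine Finset.sum_le_sum fun p _ => ?_
  unfold act Xm ofM
  rw [Matrix.diagonal_mul]
  simp only [toM, Matrix.of_apply]
  split_ifs
  · simp
  · simp

lemma norm_Zm_le (m : ℕ) (V : Fin n × Fin n → ℂ) (p : Fin n × Fin n) : ‖Zm m V p‖ ≤ Qd V := by
  have h0 : Zm m V p = ∑ l, starRingEnd ℂ (V (l, p.1)) * (act (Xm n m) V) (l, p.2) := by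
    unfold Zm ofM
    rw [Matrix.mul_apply]
    rfl
  rw [h0]
  have h1 : ∀ l, ‖starRingEnd ℂ (V (l, p.1)) * (act (Xm n m) V) (l, p.2)‖
      ≤ (‖V (l, p.1)‖ ^ 2 + ‖V (l, p.2)‖ ^ 2) / 2 := by
    intro l
    rw [norm_mul, RCLike.norm_conj]
    have h2 : ‖(act (Xm n m) V) (l, p.2)‖ ≤ ‖V (l, p.2)‖ := by
      unfold act Xm ofM
      rw [Matrix.diagonal_mul]
      simp only [toM, Matrix.of_apply]
      split_ifs
      · simp
      · simp
    nlinarith [sq_nonneg (‖V (l, p.1)‖ - ‖V (l, p.2)‖), norm_nonneg (V (l, p.1)),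
      norm_nonneg (V (l, p.2)), norm_nonneg ((act (Xm n m) V) (l, p.2))]
  refine (norm_sum_le _ _).trans ((Finset.sum_le_sum fun l _ => h1 l).trans ?_)
  have h3 : ∀ j : Fin n, ∑ l, ‖V (l, j)‖ ^ 2 ≤ Qd V := by
    intro j
    unfold Qd
    rw [Fintype.sum_prod_type_right]
    exact Finset.single_le_sum (f := fun j => ∑ l, ‖V (l, j)‖ ^ 2)
      (fun _ _ => Finset.sum_nonneg fun _ _ => by positivity) (Finset.mem_univ j)
  rw [← Finset.sum_div, Finset.sum_add_distrib]
  linarith [h3 p.1, h3 p.2]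

lemma Qd_Zm_le (m : ℕ) (V : Fin n × Fin n → ℂ) : Qd (Zm m V) ≤ (n : ℝ) ^ 2 * Qd V ^ 2 := by
  have h1 : Qd (Zm m V) ≤ ∑ _p : Fin n × Fin n, Qd V ^ 2 := by
    unfold Qd
    refine Finset.sum_le_sum fun p _ => ?_
    exact pow_le_pow_left₀ (norm_nonneg _) (norm_Zm_le m V p) 2
  refine h1.trans (le_of_eq ?_)
  simp [sq]

lemma norm_tq_le (m : ℕ) (B V : Fin n × Fin n → ℂ) :
    ‖ip B (Zm m V)‖ ≤ (1 + (n : ℝ) ^ 2) * (1 + Qd B) * (1 + Qd V) ^ 2 := by
  refine (norm_ip_le B (Zm m V)).trans ?_
  have h1 := Qd_Zm_le m V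
  have h2 := Qd_nonneg V
  have h3 := Qd_nonneg B
  have h4 : 1 + Qd (Zm m V) ≤ (1 + (n : ℝ) ^ 2) * (1 + Qd V) ^ 2 := by
    nlinarith [sq_nonneg (n : ℝ), mul_nonneg (sq_nonneg (n : ℝ)) h2]
  calc (1 + Qd B) * (1 + Qd (Zm m V)) ≤ (1 + Qd B) * ((1 + (n : ℝ) ^ 2) * (1 + Qd V) ^ 2) := by
        gcongr
    _ = _ := by ring

lemma tq_diag (m : ℕ) (U : Matrix (Fin n) (Fin n) ℂ) (d : Fin n → ℂ) (V : Fin n × Fin n → ℂ) :
    ip (ofM (U * Matrix.diagonal d * U.conjTranspose)) (Zm m V)
      = ∑ j, d j * (Ns (colT n m j) (ofM (toM V * U)) : ℂ) := by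
  rw [ip_trace, Zm_herm]
  unfold Zm
  rw [toM_ofM, toM_ofM]
  have h1 : (U * Matrix.diagonal d * U.conjTranspose * ((toM V).conjTranspose * (Xm n m * toM V))).trace
      = (Matrix.diagonal d * ((toM V * U).conjTranspose * (Xm n m * (toM V * U)))).trace := by
    rw [Matrix.conjTranspose_mul, Matrix.mul_assoc, Matrix.mul_assoc, Matrix.trace_mul_comm]
    simp only [Matrix.mul_assoc]
  rw [h1, Matrix.trace]
  refine Finset.sum_congr rfl fun j _ => ?_
  rw [Matrix.diag_apply, Matrix.diagonal_mul]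
  congr 1
  rw [Matrix.mul_apply]
  unfold Ns
  push_cast
  have h2 : ∀ l : Fin n, (toM V * U).conjTranspose j l * (Xm n m * (toM V * U)) l j
      = if (l : ℕ) < m then ((‖(toM V * U) l j‖ : ℂ)) ^ 2 else 0 := by
    intro l
    unfold Xm
    rw [Matrix.diagonal_mul, Matrix.conjTranspose_apply]
    split_ifs
    · rw [one_mul, ← Complex.conj_mul']
      rfl
    · simp
  simp_rw [h2]
  have h3 : ∑ p ∈ colT n m j, ((‖ofM (toM V * U) p‖ : ℂ)) ^ 2
      = ∑ p : Fin n × Fin n, if ((p.1 : ℕ) < m ∧ p.2 = j) then ((‖(toM V * U) p.1 p.2‖ : ℂ)) ^ 2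
        else 0 := by
    unfold colT
    rw [Finset.sum_filter]
    rfl
  rw [h3, Fintype.sum_prod_type]
  refine Finset.sum_congr rfl fun l _ => ?_
  rw [Finset.sum_eq_single j]
  · simp
  · intro b _ hb
    simp [hb]
  · intro h
    exact absurd (Finset.mem_univ j) h

/-- conclusion shared by all matrices B -/
def TrMom (k : ℕ) (B : Fin n × Fin n → ℂ) (R : Polynomial ℂ) : Prop :=
  R.natDegree ≤ k ∧
  (∀ t : ℝ, ∫ V, ph t V * (ip B (Zm n V)) ^ k ∂(gam (Fin n × Fin n))
    = R.eval (n + t * I) * ∫ V, ph t V ∂(gam (Fin n × Fin n))) ∧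
  (∀ m : ℕ, m ≤ n → ∫ G, (ip B (Zm m G)) ^ k ∂(gam (Fin n × Fin n)) = R.eval (m : ℂ))

lemma trMom_herm (k : ℕ) (B : Fin n × Fin n → ℂ) (hB : (toM B).IsHermitian) :
    ∃ R : Polynomial ℂ, TrMom k B R := by
  let U : Matrix (Fin n) (Fin n) ℂ := (hB.eigenvectorUnitary : Matrix (Fin n) (Fin n) ℂ)
  have hUU : U.conjTranspose * U = 1 :=
    (Matrix.mem_unitaryGroup_iff' (A := U)).1 hB.eigenvectorUnitary.2
  have hUU' : U * U.conjTranspose = 1 := mul_eq_one_comm.1 hUU
  let d : Fin n → ℂ := fun i => ((hB.eigenvalues i : ℝ) : ℂ)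
  have hspec : toM B = U * Matrix.diagonal d * U.conjTranspose := by
    have := hB.spectral_theorem
    rw [Unitary.conjStarAlgAut_apply] at this
    exact this
  have hB2 : B = ofM (U * Matrix.diagonal d * U.conjTranspose) := by
    rw [← hspec, ofM_toM]
  have hpres := gam_right (ι := Fin n) U hUU'
  have hNmeas : ∀ m : ℕ, Measurable (fun V : Fin n × Fin n → ℂ =>
      (∑ j, d j * (Ns (colT n m j) V : ℂ)) ^ k) := by
    intro m
    apply Continuous.measurable
    apply Continuous.pow
    refine continuous_finsetSum _ fun j _ => ?_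
    exact continuous_const.mul (Complex.continuous_ofReal.comp (continuous_Ns _))
  obtain ⟨R, hR1, hR2⟩ := sum_moments d k
  refine ⟨R, hR1, fun t => ?_, fun m hm => ?_⟩
  · have h := hR2 (Fin n × Fin n) (fun j => colT n n j) (fun i j hij => colT_disj n n i j hij)
      (ph t) (2 * t * I) n (fun j => colT_card n n le_rfl j) (fun j u => by
        filter_upwards [det_ae_ne_zero n] with v hv
        have := ph_scale t 1 u v (scl (colT n n j) (Real.exp u) v) hv (by
          rw [det_scl_colT, pow_one])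
        rw [this]
        congr 2
        push_cast
        ring) (measurable_ph t) (fun v => (norm_ph t v).le)
    have e : ((n : ℂ) + 2 * t * I / 2) = n + t * I := by ring
    rw [e] at h
    rw [← h]
    have hmm : Measurable (fun V : Fin n × Fin n → ℂ => ph t V
        * (∑ j, d j * (Ns (colT n n j) V : ℂ)) ^ k) := (measurable_ph t).mul (hNmeas n)
    conv_rhs => rw [← hpres.map_eq]
    rw [integral_map hpres.measurable.aemeasurable hmm.aestronglyMeasurable]
    refine integral_congr_ae (Filter.Eventually.of_forall fun V => ?_)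
    simp only
    rw [hB2, tq_diag]
    congr 1
    apply ph_congr
    rw [toM_ofM, Matrix.det_mul, norm_mul, det_unitary_norm U hUU, mul_one]
  · have h := hR2 (Fin n × Fin n) (fun j => colT n m j) (fun i j hij => colT_disj n m i j hij)
      (fun _ => 1) 0 m (fun j => colT_card n m hm j) (fun j u => by simp)
      measurable_const (fun v => by simp)
    simp only [one_mul, zero_div, add_zero, integral_const, probReal_univ, one_smul, mul_one] at h
    rw [← h]
    conv_rhs => rw [← hpres.map_eq]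
    rw [integral_map hpres.measurable.aemeasurable (hNmeas m).aestronglyMeasurable]
    refine integral_congr_ae (Filter.Eventually.of_forall fun V => ?_)
    simp only
    rw [hB2, tq_diag]

lemma integrable_tq (k m : ℕ) (w0 : (Fin n × Fin n → ℂ) → ℂ) (hm : Measurable w0)
    (hb : ∀ v, ‖w0 v‖ ≤ 1) (B : Fin n × Fin n → ℂ) :
    Integrable (fun V => w0 V * (ip B (Zm m V)) ^ k) (gam (Fin n × Fin n)) := by
  refine integrable_growth _ ?_ (((1 + (n : ℝ) ^ 2) * (1 + Qd B)) ^ k) (2 * k) fun V => ?_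
  · refine (hm.mul ?_).aestronglyMeasurable
    exact (((continuous_ip_right B).comp (continuous_Zm m)).pow k).measurable
  · rw [norm_mul, norm_pow]
    have h1 := norm_tq_le m B V
    have h2 := Qd_nonneg V
    have h3 := Qd_nonneg B
    calc ‖w0 V‖ * ‖ip B (Zm m V)‖ ^ k
        ≤ 1 * ((1 + (n : ℝ) ^ 2) * (1 + Qd B) * (1 + Qd V) ^ 2) ^ k := by
          gcongr
          exact hb V
      _ = _ := by rw [one_mul, mul_pow, ← pow_mul]

lemma trMom_all (k : ℕ) (B : Fin n × Fin n → ℂ) : ∃ R : Polynomial ℂ, TrMom k B R := by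
  -- Hermitian decomposition
  let H1 : Fin n × Fin n → ℂ := fun p => (B p + starRingEnd ℂ (B (p.2, p.1))) / 2
  let H2 : Fin n × Fin n → ℂ := fun p => (B p - starRingEnd ℂ (B (p.2, p.1))) / (2 * I)
  have hH1 : ∀ p : Fin n × Fin n, starRingEnd ℂ (H1 (p.2, p.1)) = H1 p := by
    intro p
    simp only [H1, map_div₀, map_add, Complex.conj_conj, map_ofNat]
    ring
  have hH2 : ∀ p : Fin n × Fin n, starRingEnd ℂ (H2 (p.2, p.1)) = H2 p := by
    intro p
    simp only [H2, map_div₀, map_sub, Complex.conj_conj, map_ofNat, map_mul, Complex.conj_I]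
    field_simp
    ring
  have hdec : B = H1 + I • H2 := by
    funext p
    simp only [H1, H2, Pi.add_apply, Pi.smul_apply, smul_eq_mul]
    field_simp
    ring
  have hherm : ∀ l : ℕ, (toM (H1 + (l : ℂ) • H2)).IsHermitian := by
    intro l
    ext i j
    rw [Matrix.conjTranspose_apply]
    simp only [toM, Matrix.of_apply, Pi.add_apply, Pi.smul_apply, smul_eq_mul, RCLike.star_def,
      map_add, map_mul]
    rw [← hH1 (i, j), ← hH2 (i, j)]
    simp
  choose R hR using fun l : ℕ => trMom_herm k (H1 + (l : ℂ) • H2) (hherm l)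
  have hexp : ∀ (m : ℕ) (V : Fin n × Fin n → ℂ), (ip B (Zm m V)) ^ k
      = ∑ l ∈ Finset.range (k + 1), (ip (H1 + (l : ℂ) • H2) (Zm m V)) ^ k * lw k I l := by
    intro m V
    conv_lhs => rw [hdec]
    rw [ip_add_left, ip_smul_left, pow_lagrange k _ _ I]
    refine Finset.sum_congr rfl fun l _ => ?_
    rw [ip_add_left, ip_smul_left]
  refine ⟨∑ l ∈ Finset.range (k + 1), R l * Polynomial.C (lw k I l), ?_, fun t => ?_,
    fun m hm => ?_⟩
  · refine Polynomial.natDegree_sum_le_of_forall_le _ _ fun l _ => ?_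
    exact (Polynomial.natDegree_mul_C_le _ _).trans (hR l).1
  · simp_rw [hexp, Finset.mul_sum]
    rw [integral_finsetSum]
    · rw [Polynomial.eval_finsetSum, Finset.sum_mul]
      refine Finset.sum_congr rfl fun l _ => ?_
      rw [Polynomial.eval_mul, Polynomial.eval_C]
      have h := (hR l).2.1 t
      have e : ∀ V, ph t V * ((ip (H1 + (l : ℂ) • H2) (Zm n V)) ^ k * lw k I l)
          = lw k I l * (ph t V * (ip (H1 + (l : ℂ) • H2) (Zm n V)) ^ k) := fun V => by ring
      simp_rw [e]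
      rw [integral_const_mul, h]
      ring
    · intro l _
      have h1 := (integrable_tq k n (ph t) (measurable_ph t) (fun v => (norm_ph t v).le)
        (H1 + (l : ℂ) • H2)).mul_const (lw k I l)
      refine h1.congr (Filter.Eventually.of_forall fun V => ?_)
      simp only
      ring
  · simp_rw [hexp]
    rw [integral_finsetSum]
    · rw [Polynomial.eval_finsetSum]
      refine Finset.sum_congr rfl fun l _ => ?_
      rw [Polynomial.eval_mul, Polynomial.eval_C, integral_mul_const, (hR l).2.2 m hm]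
    · intro l _
      have h1 := (integrable_tq k m (fun _ => 1) measurable_const (fun v => by simp)
        (H1 + (l : ℂ) • H2)).mul_const (lw k I l)
      simpa using h1

/-! Integrability on the product space. -/

lemma integrable_growth2 {κ : Type*} [Fintype κ] (h : (κ → ℂ) × (κ → ℂ) → ℂ)
    (hm : AEStronglyMeasurable h ((gam κ).prod (gam κ))) (C : ℝ) (a b : ℕ)
    (hb : ∀ p, ‖h p‖ ≤ C * (1 + Qd p.1) ^ a * (1 + Qd p.2) ^ b) :
    Integrable h ((gam κ).prod (gam κ)) := by
  have h1 := ((integrable_pow_Qd (κ := κ) a).mul_prod (integrable_pow_Qd (κ := κ) b)).const_mul C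
  refine h1.mono' hm (Filter.Eventually.of_forall fun p => ?_)
  refine (hb p).trans (le_of_eq ?_)
  ring

lemma Kk_VV (k : ℕ) (t : ℝ) (V : Fin n × Fin n → ℂ) (hV : (toM V).det ≠ 0) :
    Kk k (ph t) V V = Kk k (ph t) (ofM 1) (Zm n V) := by
  have h := K_gen (adm_ph t) k (toM V) hV (ofM 1) V
  have e : act (toM V) (ofM 1) = V := by
    unfold act
    rw [toM_ofM, Matrix.mul_one, ofM_toM]
  rw [e] at h
  rw [h]
  congr 1
  rw [Zm_eq_act, Xm_self, act_one]

lemma Kk_GG (k m : ℕ) (t : ℝ) (G : Fin n × Fin n → ℂ) (hG : (toM G).det ≠ 0) :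
    Kk k (ph t) (ofM 1) (Zm m G) = Kk k (ph t) G (act (Xm n m) G) := by
  have h := K_gen (adm_ph t) k (toM G) hG (ofM 1) (act (Xm n m) G)
  have e : act (toM G) (ofM 1) = G := by
    unfold act
    rw [toM_ofM, Matrix.mul_one, ofM_toM]
  rw [e] at h
  rw [h, Zm_eq_act]

/-- the value of the m-th node integral -/
lemma node_value (k m : ℕ) (hm : m ≤ n) (t : ℝ) :
    ∫ B, ph (-t) B * (ip (ofM 1) B) ^ k * (∫ G, (ip B (Zm m G)) ^ k ∂(gam (Fin n × Fin n)))
      ∂(gam (Fin n × Fin n))
      = (k.factorial : ℂ) * rf (m * (n - t * I)) k * ∫ B, ph (-t) B ∂(gam (Fin n × Fin n)) := by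
  have hc1 : Continuous (fun p : (Fin n × Fin n → ℂ) × (Fin n × Fin n → ℂ) =>
      ip p.1 (Zm m p.2)) := by
    unfold ip
    refine continuous_finsetSum _ fun i _ => ?_
    refine ((continuous_apply i).comp continuous_fst).mul ?_
    exact Complex.continuous_conj.comp ((continuous_apply i).comp
      ((continuous_Zm m).comp continuous_snd))
  have hc2 : Continuous (fun p : (Fin n × Fin n → ℂ) × (Fin n × Fin n → ℂ) =>
      ip p.2 p.1) := by
    unfold ip
    refine continuous_finsetSum _ fun i _ => ?_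
    refine ((continuous_apply i).comp continuous_snd).mul ?_
    exact Complex.continuous_conj.comp ((continuous_apply i).comp continuous_fst)
  have hact : Continuous (act (Xm n m)) := by
    unfold act
    refine continuous_pi fun p => ?_
    have h1 : Continuous (fun V : Fin n × Fin n → ℂ => toM V) :=
      continuous_matrix fun i j => continuous_apply (i, j)
    exact (continuous_const.matrix_mul h1).matrix_elem p.1 p.2
  have hc3 : Continuous (fun p : (Fin n × Fin n → ℂ) × (Fin n × Fin n → ℂ) =>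
      ip p.1 (act (Xm n m) p.2)) := by
    unfold ip
    refine continuous_finsetSum _ fun i _ => ?_
    refine ((continuous_apply i).comp continuous_fst).mul ?_
    exact Complex.continuous_conj.comp ((continuous_apply i).comp (hact.comp continuous_snd))
  have hint1 : Integrable (fun p : (Fin n × Fin n → ℂ) × (Fin n × Fin n → ℂ) =>
      ph (-t) p.1 * (ip (ofM 1) p.1) ^ k * (ip p.1 (Zm m p.2)) ^ k)
      ((gam (Fin n × Fin n)).prod (gam (Fin n × Fin n))) := by
    refine integrable_growth2 _ ?_ ((1 + Qd (ofM (1 : Matrix (Fin n) (Fin n) ℂ))) ^ k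
      * (1 + (n : ℝ) ^ 2) ^ k) (2 * k) (2 * k) fun p => ?_
    · exact ((((measurable_ph (-t)).comp measurable_fst).mul
        (((continuous_ip_right _).measurable.comp measurable_fst).pow_const k)).mul
        (hc1.measurable.pow_const k)).aestronglyMeasurable
    · rw [norm_mul, norm_mul, norm_pow, norm_pow, norm_ph, one_mul]
      have h1 := norm_ip_le (ofM (1 : Matrix (Fin n) (Fin n) ℂ)) p.1
      have h2 := norm_tq_le m p.1 p.2
      have h3 := Qd_nonneg p.1
      have h4 := Qd_nonneg p.2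
      have h5 := Qd_nonneg (ofM (1 : Matrix (Fin n) (Fin n) ℂ))
      calc ‖ip (ofM 1) p.1‖ ^ k * ‖ip p.1 (Zm m p.2)‖ ^ k
          ≤ ((1 + Qd (ofM (1 : Matrix (Fin n) (Fin n) ℂ))) * (1 + Qd p.1)) ^ k
            * ((1 + (n : ℝ) ^ 2) * (1 + Qd p.1) * (1 + Qd p.2) ^ 2) ^ k := by gcongr
        _ = _ := by
            rw [mul_pow, mul_pow, mul_pow, ← pow_mul, two_mul, pow_add]
            ring
  have hint2 : Integrable (fun p : (Fin n × Fin n → ℂ) × (Fin n × Fin n → ℂ) =>
      ph (-t) p.1 * (ip p.2 p.1) ^ k * (ip p.1 (act (Xm n m) p.2)) ^ k)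
      ((gam (Fin n × Fin n)).prod (gam (Fin n × Fin n))) := by
    refine integrable_growth2 _ ?_ 1 (2 * k) (2 * k) fun p => ?_
    · exact ((((measurable_ph (-t)).comp measurable_fst).mul
        (hc2.measurable.pow_const k)).mul (hc3.measurable.pow_const k)).aestronglyMeasurable
    · rw [norm_mul, norm_mul, norm_pow, norm_pow, norm_ph, one_mul]
      have h1 := norm_ip_le p.2 p.1
      have h2 := norm_ip_le p.1 (act (Xm n m) p.2)
      have h3 := Qd_nonneg p.1
      have h4 := Qd_nonneg p.2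
      have h5 := Qd_act_Xm m p.2
      have h6 : ‖ip p.1 (act (Xm n m) p.2)‖ ≤ (1 + Qd p.1) * (1 + Qd p.2) :=
        h2.trans (by gcongr)
      calc ‖ip p.2 p.1‖ ^ k * ‖ip p.1 (act (Xm n m) p.2)‖ ^ k
          ≤ ((1 + Qd p.2) * (1 + Qd p.1)) ^ k * ((1 + Qd p.1) * (1 + Qd p.2)) ^ k := by gcongr
        _ = _ := by
            rw [mul_pow, mul_pow, two_mul, pow_add, pow_add]
            ring
  -- swap to the G-outer form
  have e1 : ∫ B, ph (-t) B * (ip (ofM 1) B) ^ k
      * (∫ G, (ip B (Zm m G)) ^ k ∂(gam (Fin n × Fin n))) ∂(gam (Fin n × Fin n))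
      = ∫ G, Kk k (ph (-t)) (ofM 1) (Zm m G) ∂(gam (Fin n × Fin n)) := by
    have h1 := integral_integral_swap (f := fun B G => ph (-t) B * (ip (ofM 1) B) ^ k
      * (ip B (Zm m G)) ^ k) (μ := gam (Fin n × Fin n)) (ν := gam (Fin n × Fin n)) hint1
    unfold Kk
    rw [← h1]
    refine integral_congr_ae (Filter.Eventually.of_forall fun B => ?_)
    simp only
    rw [integral_const_mul]
  have e2 : ∫ G, Kk k (ph (-t)) (ofM 1) (Zm m G) ∂(gam (Fin n × Fin n))
      = ∫ G, Kk k (ph (-t)) G (act (Xm n m) G) ∂(gam (Fin n × Fin n)) := by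
    refine integral_congr_ae ?_
    filter_upwards [det_ae_ne_zero n] with G hG
    exact Kk_GG k m (-t) G hG
  have e3 : ∫ G, Kk k (ph (-t)) G (act (Xm n m) G) ∂(gam (Fin n × Fin n))
      = ∫ B, ph (-t) B * ((k.factorial : ℂ) * ((Ns (rowT n m) B : ℝ) : ℂ) ^ k)
        ∂(gam (Fin n × Fin n)) := by
    have h1 := integral_integral_swap (f := fun B G => ph (-t) B * (ip G B) ^ k
      * (ip B (act (Xm n m) G)) ^ k) (μ := gam (Fin n × Fin n)) (ν := gam (Fin n × Fin n)) hint2
    unfold Kk
    rw [← h1]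
    refine integral_congr_ae (Filter.Eventually.of_forall fun B => ?_)
    simp only
    have h2 := pairing (fun p : Fin n × Fin n => starRingEnd ℂ (B p))
      (fun p : Fin n × Fin n => if p ∈ rowT n m then B p else 0) k
    have h3 : ∀ G : Fin n × Fin n → ℂ, ph (-t) B * (ip G B) ^ k * (ip B (act (Xm n m) G)) ^ k
        = ph (-t) B * ((∑ i, starRingEnd ℂ (B i) * G i) ^ k
          * (∑ i, (if i ∈ rowT n m then B i else 0) * starRingEnd ℂ (G i)) ^ k) := by
      intro G
      have h4 : ip G B = ∑ i, starRingEnd ℂ (B i) * G i := by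
        unfold ip
        exact Finset.sum_congr rfl fun i _ => mul_comm _ _
      have h5 : ip B (act (Xm n m) G)
          = ∑ i, (if i ∈ rowT n m then B i else 0) * starRingEnd ℂ (G i) := by
        unfold ip
        refine Finset.sum_congr rfl fun i _ => ?_
        unfold act Xm ofM
        rw [Matrix.diagonal_mul]
        simp only [toM, Matrix.of_apply, rowT, Finset.mem_filter, Finset.mem_univ, true_and]
        split_ifs <;> simp
      rw [h4, h5]
      ring
    simp_rw [h3]
    rw [integral_const_mul, h2]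
    congr 3
    unfold Ns
    push_cast
    rw [← Finset.sum_subset (Finset.subset_univ (rowT n m))]
    · refine Finset.sum_congr rfl fun i hi => ?_
      rw [if_pos hi, Complex.conj_mul']
    · intro i _ hi
      rw [if_neg hi, mul_zero]
  rw [e1, e2, e3]
  have hg := gamma_moments (κ := Fin n × Fin n) (J := Unit) (fun _ => rowT n m)
    (fun i j hij => absurd (Subsingleton.elim i j) hij) (ph (-t)) (-(2 * t * m * I)) (m * n)
    (fun _ => rowT_card n m hm) (fun _ u => by
      filter_upwards [det_ae_ne_zero n] with v hv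
      have := ph_scale (-t) m u v (scl (rowT n m) (Real.exp u) v) hv (by
        rw [det_scl_rowT m hm])
      rw [this]
      congr 2
      push_cast
      ring) (measurable_ph (-t)) (fun v => (norm_ph (-t) v).le) (fun _ => k)
  simp only [Finset.univ_unique, Finset.prod_singleton] at hg
  have e4 : ∀ B : Fin n × Fin n → ℂ,
      ph (-t) B * ((k.factorial : ℂ) * ((Ns (rowT n m) B : ℝ) : ℂ) ^ k)
      = (k.factorial : ℂ) * (ph (-t) B * ((Ns (rowT n m) B ^ k : ℝ) : ℂ)) := by
    intro B
    push_cast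
    ring
  simp_rw [e4]
  have e5 : ((m * n : ℕ) : ℂ) + -(2 * t * m * I) / 2 = m * (n - t * I) := by push_cast; ring
  rw [integral_const_mul, hg, e5]
  ring

lemma rf_interp (k : ℕ) (p q : ℂ) :
    ∑ m ∈ Finset.range (k + 1), rf (m * q) k * lw k p m = rf (p * q) k := by
  let P : Polynomial ℂ := (ascPochhammer ℂ k).comp (Polynomial.X * Polynomial.C q)
  have hP : P.natDegree ≤ k := by
    refine (Polynomial.natDegree_comp_le).trans ?_
    rw [ascPochhammer_natDegree]
    have h1 : (Polynomial.X * Polynomial.C q : Polynomial ℂ).natDegree ≤ 1 :=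
      (Polynomial.natDegree_mul_C_le _ _).trans Polynomial.natDegree_X_le
    calc k * (Polynomial.X * Polynomial.C q : Polynomial ℂ).natDegree ≤ k * 1 :=
          Nat.mul_le_mul_left k h1
      _ = k := mul_one k
  have h := lagrange_eval k P hP p
  simp only [P, Polynomial.eval_comp, Polynomial.eval_mul, Polynomial.eval_X,
    Polynomial.eval_C] at h
  unfold rf
  rw [h]

/-- the exact mixed moments up to order n -/
theorem pair_moment (k : ℕ) (hk : k ≤ n) (t : ℝ) :
    ∫ V, ∫ B, ph t V * ph (-t) B * ((ip V B) ^ k * (ip B V) ^ k) ∂(gam (Fin n × Fin n))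
      ∂(gam (Fin n × Fin n))
      = (∫ V, ph t V ∂(gam (Fin n × Fin n))) * (∫ B, ph (-t) B ∂(gam (Fin n × Fin n)))
        * ((k.factorial : ℂ) * rf ((n : ℂ) ^ 2 + (t : ℂ) ^ 2) k) := by
  have hc1 : Continuous (fun p : (Fin n × Fin n → ℂ) × (Fin n × Fin n → ℂ) =>
      ip p.2 (Zm n p.1)) := by
    unfold ip
    refine continuous_finsetSum _ fun i _ => ?_
    refine ((continuous_apply i).comp continuous_snd).mul ?_
    exact Complex.continuous_conj.comp ((continuous_apply i).comp
      ((continuous_Zm n).comp continuous_fst))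
  have hint1 : Integrable (fun p : (Fin n × Fin n → ℂ) × (Fin n × Fin n → ℂ) =>
      ph t p.1 * (ph (-t) p.2 * (ip (ofM 1) p.2) ^ k * (ip p.2 (Zm n p.1)) ^ k))
      ((gam (Fin n × Fin n)).prod (gam (Fin n × Fin n))) := by
    refine integrable_growth2 _ ?_ ((1 + Qd (ofM (1 : Matrix (Fin n) (Fin n) ℂ))) ^ k
      * (1 + (n : ℝ) ^ 2) ^ k) (2 * k) (2 * k) fun p => ?_
    · exact (((measurable_ph t).comp measurable_fst).mul
        ((((measurable_ph (-t)).comp measurable_snd).mul
        (((continuous_ip_right _).measurable.comp measurable_snd).pow_const k)).mul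
        (hc1.measurable.pow_const k))).aestronglyMeasurable
    · rw [norm_mul, norm_mul, norm_mul, norm_pow, norm_pow, norm_ph, norm_ph, one_mul, one_mul]
      have h1 := norm_ip_le (ofM (1 : Matrix (Fin n) (Fin n) ℂ)) p.2
      have h2 := norm_tq_le n p.2 p.1
      have h3 := Qd_nonneg p.1
      have h4 := Qd_nonneg p.2
      have h5 := Qd_nonneg (ofM (1 : Matrix (Fin n) (Fin n) ℂ))
      calc ‖ip (ofM 1) p.2‖ ^ k * ‖ip p.2 (Zm n p.1)‖ ^ k
          ≤ ((1 + Qd (ofM (1 : Matrix (Fin n) (Fin n) ℂ))) * (1 + Qd p.2)) ^ k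
            * ((1 + (n : ℝ) ^ 2) * (1 + Qd p.2) * (1 + Qd p.1) ^ 2) ^ k := by gcongr
        _ = _ := by
            rw [mul_pow, mul_pow, mul_pow, ← pow_mul, two_mul, pow_add, pow_add]
            ring
  have e1 : ∫ V, ∫ B, ph t V * ph (-t) B * ((ip V B) ^ k * (ip B V) ^ k)
      ∂(gam (Fin n × Fin n)) ∂(gam (Fin n × Fin n))
      = ∫ V, ∫ B, ph t V * (ph (-t) B * (ip (ofM 1) B) ^ k * (ip B (Zm n V)) ^ k)
      ∂(gam (Fin n × Fin n)) ∂(gam (Fin n × Fin n)) := by
    refine integral_congr_ae ?_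
    filter_upwards [det_ae_ne_zero n] with V hV
    have h1 := Kk_VV k (-t) V hV
    unfold Kk at h1
    rw [integral_const_mul, ← h1, ← integral_const_mul]
    refine integral_congr_ae (Filter.Eventually.of_forall fun B => ?_)
    simp only
    ring
  have e2 := integral_integral_swap (f := fun V B => ph t V * (ph (-t) B * (ip (ofM 1) B) ^ k
      * (ip B (Zm n V)) ^ k)) (μ := gam (Fin n × Fin n)) (ν := gam (Fin n × Fin n)) hint1
  rw [e1, e2]
  have e3 : ∀ B : Fin n × Fin n → ℂ,
      ∫ V, ph t V * (ph (-t) B * (ip (ofM 1) B) ^ k * (ip B (Zm n V)) ^ k) ∂(gam (Fin n × Fin n))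
      = ∑ m ∈ Finset.range (k + 1), (lw k (n + t * I) m * ∫ V, ph t V ∂(gam (Fin n × Fin n)))
        * (ph (-t) B * (ip (ofM 1) B) ^ k
          * ∫ G, (ip B (Zm m G)) ^ k ∂(gam (Fin n × Fin n))) := by
    intro B
    obtain ⟨R, hR1, hR2, hR3⟩ := trMom_all k B
    have h1 : ∀ V : Fin n × Fin n → ℂ,
        ph t V * (ph (-t) B * (ip (ofM 1) B) ^ k * (ip B (Zm n V)) ^ k)
        = (ph (-t) B * (ip (ofM 1) B) ^ k) * (ph t V * (ip B (Zm n V)) ^ k) := fun V => by ring
    simp_rw [h1]
    rw [integral_const_mul, hR2 t, lagrange_eval k R hR1, Finset.sum_mul, Finset.mul_sum]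
    refine Finset.sum_congr rfl fun m hm => ?_
    have hmn : m ≤ n := by
      have := Finset.mem_range.1 hm
      omega
    rw [hR3 m hmn]
    ring
  simp_rw [e3]
  rw [integral_finsetSum]
  · have e4 : ∀ m ∈ Finset.range (k + 1),
        ∫ B, (lw k (n + t * I) m * ∫ V, ph t V ∂(gam (Fin n × Fin n)))
        * (ph (-t) B * (ip (ofM 1) B) ^ k
          * ∫ G, (ip B (Zm m G)) ^ k ∂(gam (Fin n × Fin n))) ∂(gam (Fin n × Fin n))
        = (∫ V, ph t V ∂(gam (Fin n × Fin n))) * (∫ B, ph (-t) B ∂(gam (Fin n × Fin n)))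
          * (k.factorial : ℂ) * (rf (m * (n - t * I)) k * lw k (n + t * I) m) := by
      intro m hm
      have hmn : m ≤ n := by
        have := Finset.mem_range.1 hm
        omega
      rw [integral_const_mul, node_value k m hmn t]
      ring
    rw [Finset.sum_congr rfl e4, ← Finset.mul_sum, rf_interp]
    have e5 : ((n : ℂ) + t * I) * (n - t * I) = (n : ℂ) ^ 2 + (t : ℂ) ^ 2 := by
      ring_nf
      rw [Complex.I_sq]
      ring
    rw [e5]
    ring
  · intro m _
    apply Integrable.const_mul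
    -- integrability of the node integrand from the product integrability
    have hc2 : Continuous (fun p : (Fin n × Fin n → ℂ) × (Fin n × Fin n → ℂ) =>
        ip p.1 (Zm m p.2)) := by
      unfold ip
      refine continuous_finsetSum _ fun i _ => ?_
      refine ((continuous_apply i).comp continuous_fst).mul ?_
      exact Complex.continuous_conj.comp ((continuous_apply i).comp
        ((continuous_Zm m).comp continuous_snd))
    have hint2 : Integrable (fun p : (Fin n × Fin n → ℂ) × (Fin n × Fin n → ℂ) =>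
        ph (-t) p.1 * (ip (ofM 1) p.1) ^ k * (ip p.1 (Zm m p.2)) ^ k)
        ((gam (Fin n × Fin n)).prod (gam (Fin n × Fin n))) := by
      refine integrable_growth2 _ ?_ ((1 + Qd (ofM (1 : Matrix (Fin n) (Fin n) ℂ))) ^ k
        * (1 + (n : ℝ) ^ 2) ^ k) (2 * k) (2 * k) fun p => ?_
      · exact ((((measurable_ph (-t)).comp measurable_fst).mul
          (((continuous_ip_right _).measurable.comp measurable_fst).pow_const k)).mul
          (hc2.measurable.pow_const k)).aestronglyMeasurable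
      · rw [norm_mul, norm_mul, norm_pow, norm_pow, norm_ph, one_mul]
        have h1 := norm_ip_le (ofM (1 : Matrix (Fin n) (Fin n) ℂ)) p.1
        have h2 := norm_tq_le m p.1 p.2
        have h3 := Qd_nonneg p.1
        have h4 := Qd_nonneg p.2
        have h5 := Qd_nonneg (ofM (1 : Matrix (Fin n) (Fin n) ℂ))
        calc ‖ip (ofM 1) p.1‖ ^ k * ‖ip p.1 (Zm m p.2)‖ ^ k
            ≤ ((1 + Qd (ofM (1 : Matrix (Fin n) (Fin n) ℂ))) * (1 + Qd p.1)) ^ k
              * ((1 + (n : ℝ) ^ 2) * (1 + Qd p.1) * (1 + Qd p.2) ^ 2) ^ k := by gcongr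
          _ = _ := by
              rw [mul_pow, mul_pow, mul_pow, ← pow_mul, two_mul, pow_add]
              ring
    refine hint2.integral_prod_left.congr (Filter.Eventually.of_forall fun B => ?_)
    simp only
    rw [integral_const_mul]

end Pool.Agent.Q293.FH
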