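import Mathlib
import Pool.Agent.Q293.FH.Mom2

set_option linter.unusedSectionVars false

open MeasureTheory Complex

namespace Pool.Agent.Q293.FH

/-- binomial coefficients of (1-x)^(-a) -/
noncomputable def bc (a : ℂ) (k : ℕ) : ℂ := rf a k / (k.factorial : ℂ)

lemma bc_eq (a : ℂ) (k : ℕ) : Ring.choose (a + k - 1) k = bc a k := by
  rw [← Ring.multichoose_eq]
  have h := Ring.factorial_nsmul_multichoose_eq_ascPochhammer a k
  have h2 : (Polynomial.smeval (ascPochhammer ℕ k) a : ℂ) = rf a k := by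
    unfold rf
    rw [← Polynomial.ascPochhammer_smeval_eq_eval]
  rw [h2, nsmul_eq_mul] at h
  unfold bc
  rw [eq_div_iff (by exact_mod_cast k.factorial_ne_zero), mul_comm]
  exact h

lemma hasSum_bc (a x : ℂ) (hx : ‖x‖ < 1) :
    HasSum (fun k => bc a k * x ^ k) (1 / (1 - x) ^ a) := by
  have h := Complex.one_div_one_sub_cpow_hasFPowerSeriesOnBall_zero a
  have h2 := h.hasSum (y := x) (by
    rw [Metric.mem_eball, edist_zero_right, enorm_eq_nnnorm]
    exact_mod_cast hx)
  simp only [zero_add, FormalMultilinearSeries.ofScalars_apply_eq, smul_eq_mul, bc_eq] at h2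
  exact h2

lemma bc_zero (a : ℂ) : bc a 0 = 1 := by simp [bc, rf_zero]

/-- Pascal relation -/
lemma bc_pascal (a : ℂ) (k : ℕ) : bc (a + 1) (k + 1) - bc (a + 1) k = bc a (k + 1) := by
  have h1 : ∀ k : ℕ, rf a (k + 1) = a * rf (a + 1) k := by
    intro k
    induction k with
    | zero => simp [rf_succ, rf_zero]
    | succ k ih =>
      rw [rf_succ, ih, rf_succ]
      push_cast
      ring
  unfold bc
  rw [h1 k, rf_succ, Nat.factorial_succ]
  have h2 : (k.factorial : ℂ) ≠ 0 := by exact_mod_cast k.factorial_ne_zero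
  have h3 : ((k : ℂ) + 1) ≠ 0 := by exact_mod_cast Nat.succ_ne_zero k
  push_cast
  field_simp
  ring

/-- real nonnegativity of the coefficients -/
lemma bc_real (t : ℝ) (k : ℕ) : ∃ r : ℝ, 0 ≤ r ∧ bc ((t : ℂ) ^ 2) k = (r : ℂ) := by
  have h1 : ∀ k : ℕ, ∃ r : ℝ, 0 ≤ r ∧ rf ((t : ℂ) ^ 2) k = (r : ℂ) := by
    intro k
    induction k with
    | zero => exact ⟨1, zero_le_one, by simp [rf_zero]⟩
    | succ k ih =>
      obtain ⟨r, hr, he⟩ := ih
      refine ⟨r * (t ^ 2 + k), by positivity, ?_⟩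
      rw [rf_succ, he]
      push_cast
      ring
  obtain ⟨r, hr, he⟩ := h1 k
  refine ⟨r / k.factorial, by positivity, ?_⟩
  unfold bc
  rw [he]
  push_cast
  ring

variable {n : ℕ}

/-- abbreviation for the index type -/
abbrev Ix (n : ℕ) := Fin n × Fin n

/-- product weight -/
noncomputable def JJ (t : ℝ) (p : (Ix n → ℂ) × (Ix n → ℂ)) : ℂ := ph t p.1 * ph (-t) p.2

lemma norm_JJ (t : ℝ) (p : (Ix n → ℂ) × (Ix n → ℂ)) : ‖JJ t p‖ = 1 := by
  unfold JJ
  rw [norm_mul, norm_ph, norm_ph, one_mul]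

lemma measurable_JJ (t : ℝ) : Measurable (JJ t : (Ix n → ℂ) × (Ix n → ℂ) → ℂ) :=
  ((measurable_ph t).comp measurable_fst).mul ((measurable_ph (-t)).comp measurable_snd)

lemma continuous_ip2 {κ : Type*} [Fintype κ] :
    Continuous (fun p : (κ → ℂ) × (κ → ℂ) => ip p.1 p.2) := by
  unfold ip
  refine continuous_finsetSum _ fun i _ => ?_
  refine ((continuous_apply i).comp continuous_fst).mul ?_
  exact Complex.continuous_conj.comp ((continuous_apply i).comp continuous_snd)

lemma norm_ip_le' {κ : Type*} [Fintype κ] (X B : κ → ℂ) : 2 * ‖ip X B‖ ≤ Qd X + Qd B := by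
  have h : ‖ip X B‖ ≤ ∑ i, (‖X i‖ ^ 2 + ‖B i‖ ^ 2) / 2 := by
    unfold ip
    refine (norm_sum_le _ _).trans (Finset.sum_le_sum fun i _ => ?_)
    rw [norm_mul, RCLike.norm_conj]
    nlinarith [sq_nonneg (‖X i‖ - ‖B i‖)]
  rw [← Finset.sum_div, Finset.sum_add_distrib] at h
  unfold Qd
  linarith

/-- the product Gaussian measure -/
noncomputable abbrev P2 (n : ℕ) : Measure ((Ix n → ℂ) × (Ix n → ℂ)) := (gam (Ix n)).prod (gam (Ix n))

lemma integrable_exp2 (r : ℝ) (hr : r < 1) :
    Integrable (fun p : (Ix n → ℂ) × (Ix n → ℂ) => Real.exp (r * (Qd p.1 + Qd p.2))) (P2 n) := by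
  have h := (integrable_exp_Qd (κ := Ix n) r hr).mul_prod (integrable_exp_Qd (κ := Ix n) r hr)
  refine h.congr (Filter.Eventually.of_forall fun p => ?_)
  simp only
  rw [← Real.exp_add]
  congr 1
  ring

/-- mixed moments -/
noncomputable def EE (n : ℕ) (t : ℝ) (a b : ℕ) : ℂ :=
  ∫ p, JJ t p * (ip p.1 p.2 ^ a * ip p.2 p.1 ^ b) ∂(P2 n)

lemma integrable_EE (t : ℝ) (a b : ℕ) : Integrable (fun p : (Ix n → ℂ) × (Ix n → ℂ) =>
    JJ t p * (ip p.1 p.2 ^ a * ip p.2 p.1 ^ b)) (P2 n) := by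
  refine integrable_growth2 _ ?_ 1 (a + b) (a + b) fun p => ?_
  · have h1 : Continuous (fun p : (Ix n → ℂ) × (Ix n → ℂ) => ip p.2 p.1) :=
      continuous_ip2.comp continuous_swap
    exact ((measurable_JJ t).mul ((continuous_ip2.pow a).mul (h1.pow b)).measurable).aestronglyMeasurable
  · rw [norm_mul, norm_JJ, one_mul, norm_mul, norm_pow, norm_pow]
    have h1 := norm_ip_le p.1 p.2
    have h2 := norm_ip_le p.2 p.1
    have h3 := Qd_nonneg p.1
    have h4 := Qd_nonneg p.2
    calc ‖ip p.1 p.2‖ ^ a * ‖ip p.2 p.1‖ ^ b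
        ≤ ((1 + Qd p.1) * (1 + Qd p.2)) ^ a * ((1 + Qd p.2) * (1 + Qd p.1)) ^ b := by gcongr
      _ = _ := by
          rw [mul_pow, mul_pow, pow_add, pow_add]
          ring

lemma EE_eq_zero (t : ℝ) (a b : ℕ) (hab : a ≠ b) : EE n t a b = 0 := by
  have hne : ((a : ℝ) - b) ≠ 0 := by
    intro h
    apply hab
    have : (a : ℝ) = b := by linarith
    exact_mod_cast this
  set th : ℝ := Real.pi / (a - b) with hth
  set c : ℂ := Complex.exp (th * I) with hc
  have hcn : ‖c‖ = 1 := Complex.norm_exp_ofReal_mul_I th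
  have hp : MeasurePreserving (fun p : (Ix n → ℂ) × (Ix n → ℂ) => (c • p.1, p.2)) (P2 n) (P2 n) :=
    (gam_phase c hcn).prod (MeasurePreserving.id _)
  have hm : Measurable (fun p : (Ix n → ℂ) × (Ix n → ℂ) =>
      JJ t p * (ip p.1 p.2 ^ a * ip p.2 p.1 ^ b)) := by
    have h1 : Continuous (fun p : (Ix n → ℂ) × (Ix n → ℂ) => ip p.2 p.1) :=
      continuous_ip2.comp continuous_swap
    exact (measurable_JJ t).mul ((continuous_ip2.pow a).mul (h1.pow b)).measurable
  have h1 : EE n t a b = -EE n t a b := by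
    conv_lhs => unfold EE
    conv_lhs => rw [← hp.map_eq]
    rw [integral_map hp.measurable.aemeasurable hm.aestronglyMeasurable]
    unfold EE
    rw [← integral_neg]
    refine integral_congr_ae (Filter.Eventually.of_forall fun p => ?_)
    simp only
    have h3 : c ^ a * (starRingEnd ℂ c) ^ b = -1 := by
      rw [hc, ← Complex.exp_conj, ← Complex.exp_nat_mul, ← Complex.exp_nat_mul,
        ← Complex.exp_add]
      simp only [map_mul, Complex.conj_ofReal, Complex.conj_I]
      have : (a : ℂ) * (th * I) + (b : ℂ) * (th * -I) = Real.pi * I := by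
        have h4 : ((a : ℝ) - b) * th = Real.pi := by
          rw [hth]; field_simp
        have h5 : ((a : ℂ) - b) * (th : ℂ) = (Real.pi : ℂ) := by
          rw [← h4]; push_cast; ring
        linear_combination I * h5
      rw [this, Complex.exp_pi_mul_I]
    have h6 : JJ t (c • p.1, p.2) = JJ t p := by
      unfold JJ
      simp only
      congr 1
      apply ph_congr
      have : toM (c • p.1) = c • toM p.1 := rfl
      rw [this, Matrix.det_smul, norm_mul, norm_pow, hcn, one_pow, one_mul]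
    rw [h6, ip_smul_left, ip_smul_right, mul_pow, mul_pow]
    linear_combination (JJ t p * (ip p.1 p.2 ^ a * ip p.2 p.1 ^ b)) * h3
  have h7 := eq_neg_iff_add_eq_zero.1 h1
  rw [← two_mul] at h7
  simpa using h7

/-- diagonal moments divided by factorials -/
noncomputable def cc (n : ℕ) (t : ℝ) (k : ℕ) : ℂ := EE n t k k / ((k.factorial : ℂ) ^ 2)

/-- the exact values up to order n -/
lemma cc_exact (t : ℝ) (k : ℕ) (hk : k ≤ n) :
    cc n t k = cc n t 0 * bc ((n : ℂ) ^ 2 + (t : ℂ) ^ 2) k := by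
  have h : ∀ k, k ≤ n → EE n t k k = (∫ V, ph t V ∂(gam (Ix n))) * (∫ B, ph (-t) B ∂(gam (Ix n)))
        * ((k.factorial : ℂ) * rf ((n : ℂ) ^ 2 + (t : ℂ) ^ 2) k) := by
    intro k hk
    rw [← pair_moment k hk t]
    unfold EE
    rw [integral_prod _ (integrable_EE t k k)]
    rfl
  unfold cc
  rw [h k hk, h 0 (Nat.zero_le n), rf_zero]
  unfold bc
  have h2 : (k.factorial : ℂ) ≠ 0 := by exact_mod_cast k.factorial_ne_zero
  simp only [Nat.factorial_zero, Nat.cast_one]
  field_simp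

/-- the exponential moment -/
noncomputable def XX (n : ℕ) (t ρ : ℝ) : ℂ :=
  ∫ p, JJ t p * Complex.exp (2 * ρ * (ip p.1 p.2).re : ℝ) ∂(P2 n)

lemma hasSum_XX (t ρ : ℝ) (h0 : 0 ≤ ρ) (h1 : ρ < 1) :
    HasSum (fun k => cc n t k * ((ρ : ℂ) ^ 2) ^ k) (XX n t ρ) := by
  -- termwise expansion
  have hw : ∀ p : (Ix n → ℂ) × (Ix n → ℂ), (ip p.1 p.2 + ip p.2 p.1 : ℂ)
      = ((2 * (ip p.1 p.2).re : ℝ) : ℂ) := by
    intro p
    rw [← conj_ip p.1 p.2, Complex.add_conj]
  have hterm : ∀ (j : ℕ) (p : (Ix n → ℂ) × (Ix n → ℂ)),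
      JJ t p * (((ρ * (2 * (ip p.1 p.2).re)) ^ j / j.factorial : ℝ) : ℂ)
      = ∑ a ∈ Finset.range (j + 1), ((ρ : ℂ) ^ j / j.factorial * (j.choose a : ℂ))
        * (JJ t p * (ip p.1 p.2 ^ a * ip p.2 p.1 ^ (j - a))) := by
    intro j p
    have e : (((ρ * (2 * (ip p.1 p.2).re)) ^ j / j.factorial : ℝ) : ℂ)
        = (ρ : ℂ) ^ j / j.factorial * (ip p.1 p.2 + ip p.2 p.1) ^ j := by
      rw [hw]
      push_cast
      ring
    rw [e, add_pow, Finset.mul_sum, Finset.mul_sum]
    refine Finset.sum_congr rfl fun a _ => ?_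
    ring
  have hint : ∀ j : ℕ, ∫ p, JJ t p * (((ρ * (2 * (ip p.1 p.2).re)) ^ j / j.factorial : ℝ) : ℂ)
      ∂(P2 n) = ∑ a ∈ Finset.range (j + 1), ((ρ : ℂ) ^ j / j.factorial * (j.choose a : ℂ))
        * EE n t a (j - a) := by
    intro j
    simp_rw [hterm]
    rw [integral_finsetSum]
    · refine Finset.sum_congr rfl fun a _ => ?_
      rw [integral_const_mul]
      rfl
    · intro a _
      exact (integrable_EE t a (j - a)).const_mul _
  have hsum : HasSum (fun j : ℕ => ∫ p, JJ t p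
      * (((ρ * (2 * (ip p.1 p.2).re)) ^ j / j.factorial : ℝ) : ℂ) ∂(P2 n)) (XX n t ρ) := by
    unfold XX
    apply hasSum_integral_of_dominated_convergence
      (fun (j : ℕ) (p : (Ix n → ℂ) × (Ix n → ℂ)) => (ρ * (Qd p.1 + Qd p.2)) ^ j / j.factorial)
    · intro j
      refine ((measurable_JJ t).mul ?_).aestronglyMeasurable
      refine Complex.measurable_ofReal.comp ?_
      have h2 : Continuous (fun p : (Ix n → ℂ) × (Ix n → ℂ) => (ip p.1 p.2).re) :=
        Complex.continuous_re.comp continuous_ip2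
      exact ((continuous_const.mul (continuous_const.mul h2)).pow j).measurable.div_const _
    · intro j
      refine Filter.Eventually.of_forall fun p => ?_
      rw [norm_mul, norm_JJ, one_mul, Complex.norm_real, Real.norm_eq_abs, abs_div, abs_pow,
        Nat.abs_cast]
      gcongr
      rw [abs_mul, abs_of_nonneg h0, abs_mul, abs_two]
      have h3 := Complex.abs_re_le_norm (ip p.1 p.2)
      have h4 := norm_ip_le' p.1 p.2
      nlinarith
    · refine Filter.Eventually.of_forall fun p => ?_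
      exact Real.summable_pow_div_factorial _
    · have h2 : ∀ p : (Ix n → ℂ) × (Ix n → ℂ),
          ∑' j : ℕ, (ρ * (Qd p.1 + Qd p.2)) ^ j / j.factorial
          = Real.exp (ρ * (Qd p.1 + Qd p.2)) := by
        intro p
        rw [Real.exp_eq_exp_ℝ, NormedSpace.exp_eq_tsum_div]
      simp_rw [h2]
      exact integrable_exp2 ρ h1
    · refine Filter.Eventually.of_forall fun p => ?_
      apply HasSum.mul_left
      have h2 : HasSum (fun j : ℕ => (2 * ρ * (ip p.1 p.2).re) ^ j / (j.factorial : ℝ))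
          (Real.exp (2 * ρ * (ip p.1 p.2).re)) := by
        rw [Real.exp_eq_exp_ℝ]
        exact NormedSpace.expSeries_div_hasSum_exp _
      have h3 := (Complex.hasSum_ofReal).2 h2
      rw [← Complex.ofReal_exp]
      have h4 : (fun j : ℕ => (((ρ * (2 * (ip p.1 p.2).re)) ^ j / j.factorial : ℝ) : ℂ))
          = fun j : ℕ => (((2 * ρ * (ip p.1 p.2).re) ^ j / (j.factorial : ℝ) : ℝ) : ℂ) := by
        funext j
        congr 3
        ring
      rw [h4]
      exact h3
  have hinj : Function.Injective (fun k : ℕ => 2 * k) := fun a b h => by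
    simp only at h
    omega
  have hzero : ∀ j, j ∉ Set.range (fun k : ℕ => 2 * k) → ∫ p, JJ t p
      * (((ρ * (2 * (ip p.1 p.2).re)) ^ j / j.factorial : ℝ) : ℂ) ∂(P2 n) = 0 := by
    intro j hj
    rw [hint]
    refine Finset.sum_eq_zero fun a ha => ?_
    rw [EE_eq_zero, mul_zero]
    intro h
    apply hj
    have := Finset.mem_range.1 ha
    exact ⟨a, by simp only; omega⟩
  have h5 := (hinj.hasSum_iff hzero).2 hsum
  have h6 : (fun k => cc n t k * ((ρ : ℂ) ^ 2) ^ k) = ((fun j : ℕ => ∫ p, JJ t p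
      * (((ρ * (2 * (ip p.1 p.2).re)) ^ j / j.factorial : ℝ) : ℂ) ∂(P2 n)) ∘ fun k => 2 * k) := by
    funext k
    simp only [Function.comp]
    rw [hint, Finset.sum_eq_single k]
    · have h7 : (((2 * k).choose k : ℕ) : ℂ) * (k.factorial : ℂ) * (k.factorial : ℂ)
          = ((2 * k).factorial : ℂ) := by
        have := Nat.choose_mul_factorial_mul_factorial (show k ≤ 2 * k by omega)
        rw [show 2 * k - k = k by omega] at this
        exact_mod_cast this
      have h8 : (k.factorial : ℂ) ≠ 0 := by exact_mod_cast k.factorial_ne_zero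
      have h9 : ((2 * k).factorial : ℂ) ≠ 0 := by exact_mod_cast (2 * k).factorial_ne_zero
      rw [show 2 * k - k = k by omega]
      unfold cc
      rw [← pow_mul]
      field_simp
      rw [← h7]
      ring
    · intro a _ ha
      rw [EE_eq_zero, mul_zero]
      intro h
      apply ha
      omega
    · intro h
      exact absurd (Finset.mem_range.2 (by omega)) h
  rw [h6]
  exact h5

lemma integrable_JX (t ρ : ℝ) (h0 : 0 ≤ ρ) (h1 : ρ < 1) :
    Integrable (fun p : (Ix n → ℂ) × (Ix n → ℂ) =>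
      JJ t p * Complex.exp (2 * ρ * (ip p.1 p.2).re : ℝ)) (P2 n) := by
  refine (integrable_exp2 (n := n) ρ h1).mono' ?_ (Filter.Eventually.of_forall fun p => ?_)
  · refine ((measurable_JJ t).mul ?_).aestronglyMeasurable
    have h2 : Continuous (fun p : (Ix n → ℂ) × (Ix n → ℂ) => (ip p.1 p.2).re) :=
      Complex.continuous_re.comp continuous_ip2
    exact Complex.measurable_exp.comp (Complex.measurable_ofReal.comp
      (continuous_const.mul h2).measurable)
  · rw [norm_mul, norm_JJ, one_mul, Complex.norm_exp, Complex.ofReal_re]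
    apply Real.exp_le_exp.2
    have h3 := Complex.abs_re_le_norm (ip p.1 p.2)
    have h4 := norm_ip_le' p.1 p.2
    have h5 := le_abs_self (ip p.1 p.2).re
    nlinarith

/-- correlation function of the phase weights -/
noncomputable def Fc (n : ℕ) (t ρ : ℝ) : ℂ :=
  ∫ p, ph t ((ρ : ℂ) • p.2 + ((Real.sqrt (1 - ρ ^ 2) : ℝ) : ℂ) • p.1) * ph (-t) p.2 ∂(P2 n)

lemma measurable_comb (t : ℝ) (a b : ℂ) : Measurable (fun p : (Ix n → ℂ) × (Ix n → ℂ) =>
    ph t (a • p.2 + b • p.1) * ph (-t) p.2) := by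
  have h1 : Measurable (fun p : (Ix n → ℂ) × (Ix n → ℂ) => a • p.2 + b • p.1) := by
    have : Continuous (fun p : (Ix n → ℂ) × (Ix n → ℂ) => a • p.2 + b • p.1) :=
      (continuous_snd.const_smul a).add (continuous_fst.const_smul b)
    exact this.measurable
  exact ((measurable_ph t).comp h1).mul ((measurable_ph (-t)).comp measurable_snd)

lemma integrable_comb (t : ℝ) (a b : ℂ) : Integrable (fun p : (Ix n → ℂ) × (Ix n → ℂ) =>
    ph t (a • p.2 + b • p.1) * ph (-t) p.2) (P2 n) := by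
  refine (integrable_const (1 : ℝ)).mono' (measurable_comb t a b).aestronglyMeasurable
    (Filter.Eventually.of_forall fun p => ?_)
  rw [norm_mul, norm_ph, norm_ph, one_mul]

lemma Fc_eq (t ρ : ℝ) (h0 : 0 ≤ ρ) (h1 : ρ < 1) :
    Fc n t ρ = ((1 - ρ ^ 2 : ℝ) : ℂ) ^ (n * n) * XX n t ρ := by
  have hpos : 0 < 1 - ρ ^ 2 := by nlinarith
  set σ := Real.sqrt (1 - ρ ^ 2) with hσ
  have hσ0 : 0 < σ := Real.sqrt_pos.2 hpos
  have hσ2 : σ ^ 2 = 1 - ρ ^ 2 := Real.sq_sqrt hpos.le
  unfold Fc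
  rw [← hσ, integral_prod_symm _ (integrable_comb t _ _)]
  have h := gauss_shift (κ := Ix n) ρ σ hσ0 (by rw [hσ2]; ring) (fun V B => ph t V * ph (-t) B)
  simp only at h ⊢
  rw [h]
  have h2 : ((σ : ℂ) ^ (2 * Fintype.card (Ix n))) = ((1 - ρ ^ 2 : ℝ) : ℂ) ^ (n * n) := by
    rw [pow_mul, ← Complex.ofReal_pow, hσ2]
    simp [Ix]
  rw [h2]
  congr 1
  unfold XX
  rw [integral_prod_symm _ (integrable_JX t ρ h0 h1)]
  refine integral_congr_ae ?_
  filter_upwards [det_ae_ne_zero n] with B hB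
  refine integral_congr_ae ?_
  filter_upwards [det_ae_ne_zero n] with V hV
  have e : ∀ W : Ix n → ℂ, (toM ((σ : ℂ) • W)).det
      = ((Real.exp (Real.log σ) : ℝ) : ℂ) ^ n * (toM W).det := by
    intro W
    have : toM ((σ : ℂ) • W) = (σ : ℂ) • toM W := rfl
    rw [this, Matrix.det_smul, Fintype.card_fin, Real.exp_log hσ0]
  rw [ph_scale t n (Real.log σ) V _ hV (e V), ph_scale (-t) n (Real.log σ) B _ hB (e B)]
  have e2 : Complex.exp ((2 * t * n * I) * (Real.log σ : ℝ))
      * Complex.exp ((2 * ((-t : ℝ) : ℂ) * n * I) * (Real.log σ : ℝ)) = 1 := by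
    rw [← Complex.exp_add]
    have : (2 * t * n * I) * ((Real.log σ : ℝ) : ℂ)
      + (2 * ((-t : ℝ) : ℂ) * n * I) * ((Real.log σ : ℝ) : ℂ) = 0 := by
      push_cast
      ring
    rw [this, Complex.exp_zero]
  unfold JJ
  linear_combination (ph t V * ph (-t) B * Complex.exp (2 * ρ * (ip V B).re : ℝ)) * e2

end Pool.Agent.Q293.FH
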