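import Mathlib
import Pool.Agent.Q293.FH.Ser

set_option linter.unusedSectionVars false

open MeasureTheory Complex

namespace Pool.Agent.Q293.FH

variable {n : ℕ}

/-- coefficients of (1-x)^m times the series of XX -/
noncomputable def am (n : ℕ) (t : ℝ) : ℕ → ℕ → ℂ
  | 0, k => cc n t k
  | (m + 1), 0 => am n t m 0
  | (m + 1), (k + 1) => am n t m (k + 1) - am n t m k

lemma hasSum_am (t ρ : ℝ) (h0 : 0 ≤ ρ) (h1 : ρ < 1) (m : ℕ) :
    HasSum (fun k => am n t m k * ((ρ : ℂ) ^ 2) ^ k) ((1 - (ρ : ℂ) ^ 2) ^ m * XX n t ρ) := by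
  induction m with
  | zero =>
    simpa [am] using hasSum_XX (n := n) t ρ h0 h1
  | succ m ih =>
    set x : ℂ := (ρ : ℂ) ^ 2 with hx
    set S : ℂ := (1 - x) ^ m * XX n t ρ with hS
    have h2 := (hasSum_nat_add_iff' (f := fun k => am n t m k * x ^ k) 1).2 ih
    have h3 := ih.mul_left x
    have h4 := h2.sub h3
    have h5 : (fun k => am n t (m + 1) (k + 1) * x ^ (k + 1))
        = fun k => am n t m (k + 1) * x ^ (k + 1) - x * (am n t m k * x ^ k) := by
      funext k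
      simp only [am]
      ring
    have h6 : HasSum (fun k => am n t (m + 1) (k + 1) * x ^ (k + 1))
        (S - am n t m 0 - x * S) := by
      rw [h5]
      have e0 : S - am n t m 0 - x * S
          = S - ∑ i ∈ Finset.range 1, am n t m i * x ^ i - x * S := by
        rw [Finset.sum_range_one, pow_zero, mul_one]
      rw [e0]
      exact h4
    have h7 := (hasSum_nat_add_iff (f := fun k => am n t (m + 1) k * x ^ k) 1).1 h6
    have e1 : (1 - x) ^ (m + 1) * XX n t ρ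
        = S - am n t m 0 - x * S + ∑ i ∈ Finset.range 1, am n t (m + 1) i * x ^ i := by
      rw [Finset.sum_range_one, pow_zero, mul_one]
      simp only [am]
      rw [hS]
      ring
    rw [e1]
    exact h7

lemma am_exact (t : ℝ) (m k : ℕ) (hk : k ≤ n) :
    am n t m k = cc n t 0 * bc ((n : ℂ) ^ 2 + (t : ℂ) ^ 2 - m) k := by
  induction m generalizing k with
  | zero =>
    simp only [am, Nat.cast_zero, sub_zero]
    exact cc_exact t k hk
  | succ m ih =>
    cases k with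
    | zero =>
      simp only [am]
      rw [ih 0 (Nat.zero_le n), bc_zero, bc_zero]
    | succ k =>
      simp only [am]
      rw [ih (k + 1) hk, ih k (by omega), ← mul_sub]
      have h := bc_pascal ((n : ℂ) ^ 2 + (t : ℂ) ^ 2 - ((m + 1 : ℕ) : ℂ)) k
      have e : (n : ℂ) ^ 2 + (t : ℂ) ^ 2 - ((m + 1 : ℕ) : ℂ) + 1
          = (n : ℂ) ^ 2 + (t : ℂ) ^ 2 - m := by push_cast; ring
      rw [e] at h
      rw [h]

/-- power series coefficients of Fc in the variable rho squared -/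
noncomputable def aa (n : ℕ) (t : ℝ) (k : ℕ) : ℂ := am n t (n * n) k

lemma hasSum_aa (t ρ : ℝ) (h0 : 0 ≤ ρ) (h1 : ρ < 1) :
    HasSum (fun k => aa n t k * ((ρ : ℂ) ^ 2) ^ k) (Fc n t ρ) := by
  have h := hasSum_am (n := n) t ρ h0 h1 (n * n)
  rw [Fc_eq t ρ h0 h1]
  have e : ((1 - ρ ^ 2 : ℝ) : ℂ) = 1 - (ρ : ℂ) ^ 2 := by push_cast; ring
  rw [e]
  exact h

lemma aa_exact (t : ℝ) (k : ℕ) (hk : k ≤ n) : aa n t k = cc n t 0 * bc ((t : ℂ) ^ 2) k := by
  unfold aa
  rw [am_exact t (n * n) k hk]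
  congr 2
  push_cast
  ring

/-! Positivity. -/

/-- conditional expectation of the phase -/
noncomputable def TT (n : ℕ) (t ρ : ℝ) (B : Ix n → ℂ) : ℂ :=
  ∫ A, ph t ((ρ : ℂ) • B + ((Real.sqrt (1 - ρ ^ 2) : ℝ) : ℂ) • A) ∂(gam (Ix n))

lemma measurable_phc (t : ℝ) (a b : ℂ) : Measurable (fun p : (Ix n → ℂ) × (Ix n → ℂ) =>
    ph t (a • p.1 + b • p.2)) := by
  have h1 : Measurable (fun p : (Ix n → ℂ) × (Ix n → ℂ) => a • p.1 + b • p.2) := by
    have : Continuous (fun p : (Ix n → ℂ) × (Ix n → ℂ) => a • p.1 + b • p.2) :=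
      (continuous_fst.const_smul a).add (continuous_snd.const_smul b)
    exact this.measurable
  exact (measurable_ph t).comp h1

lemma measurable_TT (t ρ : ℝ) : Measurable (TT n t ρ) := by
  unfold TT
  exact (measurable_phc t _ _).stronglyMeasurable.integral_prod_right.measurable

lemma norm_TT_le (t ρ : ℝ) (B : Ix n → ℂ) : ‖TT n t ρ B‖ ≤ 1 := by
  unfold TT
  refine (norm_integral_le_integral_norm _).trans ?_
  simp [norm_ph]

lemma conj_ph (t : ℝ) (v : Ix n → ℂ) : starRingEnd ℂ (ph t v) = ph (-t) v := by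
  unfold ph
  rw [← Complex.exp_conj]
  congr 1
  rw [map_mul, Complex.conj_ofReal, Complex.conj_I]
  push_cast
  ring

lemma conj_TT (t ρ : ℝ) (B : Ix n → ℂ) : starRingEnd ℂ (TT n t ρ B) = TT n (-t) ρ B := by
  unfold TT
  rw [← integral_conj]
  refine integral_congr_ae (Filter.Eventually.of_forall fun A => ?_)
  simp only
  rw [conj_ph]

lemma rot_P2 (a b : ℝ) (hab : a ^ 2 + b ^ 2 = 1) :
    MeasurePreserving (fun p : (Ix n → ℂ) × (Ix n → ℂ) =>
      (((a : ℂ) • p.1 + (b : ℂ) • p.2 : Ix n → ℂ), (-(b : ℂ) • p.1 + (a : ℂ) • p.2 : Ix n → ℂ)))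
      (P2 n) (P2 n) := by
  have h := gam_rot (κ := Ix n) a b hab
  convert h using 1
  funext p
  refine Prod.ext ?_ ?_
  · funext i
    simp
  · funext i
    simp

lemma semigroup (t ρ ρ' : ℝ) (h0 : 0 ≤ ρ) (h1 : ρ < 1) (h0' : 0 ≤ ρ') (h1' : ρ' < 1)
    (V : Ix n → ℂ) :
    ∫ U, TT n t ρ ((ρ' : ℂ) • V - ((Real.sqrt (1 - ρ' ^ 2) : ℝ) : ℂ) • U) ∂(gam (Ix n))
      = TT n t (ρ * ρ') V := by
  have hpos : 0 < 1 - ρ ^ 2 := by nlinarith
  have hpos' : 0 < 1 - ρ' ^ 2 := by nlinarith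
  have hpos2 : 0 < 1 - (ρ * ρ') ^ 2 := by
    have : ρ * ρ' < 1 := by nlinarith
    have h3 : 0 ≤ ρ * ρ' := by positivity
    nlinarith
  set σ := Real.sqrt (1 - ρ ^ 2) with hσ
  set σ' := Real.sqrt (1 - ρ' ^ 2) with hσ'
  set s := Real.sqrt (1 - (ρ * ρ') ^ 2) with hs
  have hσ2 : σ ^ 2 = 1 - ρ ^ 2 := Real.sq_sqrt hpos.le
  have hσ2' : σ' ^ 2 = 1 - ρ' ^ 2 := Real.sq_sqrt hpos'.le
  have hs2 : s ^ 2 = 1 - (ρ * ρ') ^ 2 := Real.sq_sqrt hpos2.le
  have hs0 : 0 < s := Real.sqrt_pos.2 hpos2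
  have hab : (-(ρ * σ') / s) ^ 2 + (σ / s) ^ 2 = 1 := by
    rw [div_pow, div_pow, ← add_div, div_eq_one_iff_eq (by positivity), hs2]
    have : (-(ρ * σ')) ^ 2 = ρ ^ 2 * σ' ^ 2 := by ring
    rw [this, hσ2', hσ2]
    ring
  have hrot := rot_P2 (n := n) (-(ρ * σ') / s) (σ / s) hab
  have e1 : ∫ U, TT n t ρ ((ρ' : ℂ) • V - (σ' : ℂ) • U) ∂(gam (Ix n))
      = ∫ p : (Ix n → ℂ) × (Ix n → ℂ), ph t (((ρ * ρ' : ℝ) : ℂ) • V + (s : ℂ)
        • (((-(ρ * σ') / s : ℝ) : ℂ) • p.1 + ((σ / s : ℝ) : ℂ) • p.2)) ∂(P2 n) := by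
    rw [integral_prod]
    · refine integral_congr_ae (Filter.Eventually.of_forall fun U => ?_)
      simp only
      unfold TT
      refine integral_congr_ae (Filter.Eventually.of_forall fun A => ?_)
      simp only
      congr 1
      have hs0' : (s : ℂ) ≠ 0 := by exact_mod_cast hs0.ne'
      funext i
      simp only [Pi.add_apply, Pi.smul_apply, Pi.sub_apply, smul_eq_mul, ← hσ]
      push_cast
      field_simp
      ring
    · refine (integrable_const (1 : ℝ)).mono' ?_ (Filter.Eventually.of_forall fun p => ?_)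
      · apply Measurable.aestronglyMeasurable
        apply (measurable_ph t).comp
        apply Continuous.measurable
        fun_prop
      · rw [norm_ph]
  rw [e1]
  have hm : Measurable (fun p : (Ix n → ℂ) × (Ix n → ℂ) =>
      ph t (((ρ * ρ' : ℝ) : ℂ) • V + (s : ℂ) • p.1)) := by
    apply (measurable_ph t).comp
    apply Continuous.measurable
    fun_prop
  have e2 := integral_map (μ := P2 n) hrot.measurable.aemeasurable
    (f := fun p : (Ix n → ℂ) × (Ix n → ℂ) =>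
      ph t (((ρ * ρ' : ℝ) : ℂ) • V + (s : ℂ) • p.1)) (by
        rw [hrot.map_eq]; exact hm.aestronglyMeasurable)
  rw [hrot.map_eq] at e2
  simp only at e2
  rw [← e2]
  unfold TT
  rw [← hs]
  have e3 := integral_fun_fst (μ := gam (Ix n)) (ν := gam (Ix n))
    (fun A : Ix n → ℂ => ph t (((ρ * ρ' : ℝ) : ℂ) • V + (s : ℂ) • A))
  rw [e3]
  simp

lemma Fc_TT (t ρ : ℝ) : Fc n t ρ = ∫ B, TT n t ρ B * ph (-t) B ∂(gam (Ix n)) := by
  unfold Fc
  rw [integral_prod_symm _ (integrable_comb t _ _)]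
  refine integral_congr_ae (Filter.Eventually.of_forall fun B => ?_)
  simp only
  rw [integral_mul_const]
  rfl

lemma psd_id (t ρ ρ' : ℝ) (h0 : 0 ≤ ρ) (h1 : ρ < 1) (h0' : 0 ≤ ρ') (h1' : ρ' < 1) :
    ∫ B, TT n t ρ B * starRingEnd ℂ (TT n t ρ' B) ∂(gam (Ix n)) = Fc n t (ρ * ρ') := by
  have hpos' : 0 < 1 - ρ' ^ 2 := by nlinarith
  set σ' := Real.sqrt (1 - ρ' ^ 2) with hσ'
  have hσ2' : σ' ^ 2 = 1 - ρ' ^ 2 := Real.sq_sqrt hpos'.le
  have hrot := rot_P2 (n := n) ρ' σ' (by rw [hσ2']; ring)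
  have hmΘ : Measurable (fun p : (Ix n → ℂ) × (Ix n → ℂ) =>
      TT n t ρ ((ρ' : ℂ) • p.1 - (σ' : ℂ) • p.2) * ph (-t) p.1) := by
    refine Measurable.mul ((measurable_TT t ρ).comp ?_) ((measurable_ph (-t)).comp measurable_fst)
    apply Continuous.measurable
    fun_prop
  have e1 : ∫ B, TT n t ρ B * starRingEnd ℂ (TT n t ρ' B) ∂(gam (Ix n))
      = ∫ p : (Ix n → ℂ) × (Ix n → ℂ), TT n t ρ p.1 * ph (-t) ((ρ' : ℂ) • p.1 + (σ' : ℂ) • p.2)
        ∂(P2 n) := by
    rw [integral_prod]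
    · refine integral_congr_ae (Filter.Eventually.of_forall fun B => ?_)
      simp only
      rw [integral_const_mul, conj_TT]
      rfl
    · refine (integrable_const (1 : ℝ)).mono' ?_ (Filter.Eventually.of_forall fun p => ?_)
      · exact (((measurable_TT t ρ).comp measurable_fst).mul
          (measurable_phc (-t) _ _)).aestronglyMeasurable
      · rw [norm_mul, norm_ph, mul_one]
        exact norm_TT_le t ρ p.1
  have e2 := integral_map (μ := P2 n) hrot.measurable.aemeasurable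
    (f := fun p : (Ix n → ℂ) × (Ix n → ℂ) =>
      TT n t ρ ((ρ' : ℂ) • p.1 - (σ' : ℂ) • p.2) * ph (-t) p.1) (by
        rw [hrot.map_eq]; exact hmΘ.aestronglyMeasurable)
  rw [hrot.map_eq] at e2
  simp only at e2
  have e3 : ∀ p : (Ix n → ℂ) × (Ix n → ℂ), (ρ' : ℂ) • ((ρ' : ℂ) • p.1 + (σ' : ℂ) • p.2)
      - (σ' : ℂ) • (-(σ' : ℂ) • p.1 + (ρ' : ℂ) • p.2) = p.1 := by
    intro p
    funext i
    simp only [Pi.add_apply, Pi.smul_apply, Pi.sub_apply, smul_eq_mul]
    have h2 : (ρ' : ℂ) ^ 2 + (σ' : ℂ) ^ 2 = 1 := by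
      have : ρ' ^ 2 + σ' ^ 2 = 1 := by rw [hσ2']; ring
      exact_mod_cast this
    linear_combination (p.1 i) * h2
  simp_rw [e3] at e2
  rw [e1, ← e2, Fc_TT, integral_prod]
  · refine integral_congr_ae (Filter.Eventually.of_forall fun V => ?_)
    simp only
    rw [integral_mul_const, semigroup t ρ ρ' h0 h1 h0' h1' V]
  · refine (integrable_const (1 : ℝ)).mono' hmΘ.aestronglyMeasurable
      (Filter.Eventually.of_forall fun p => ?_)
    rw [norm_mul, norm_ph, mul_one]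
    exact norm_TT_le t ρ _

lemma psd (t : ℝ) (N : ℕ) (w ρ : ℕ → ℝ) (h0 : ∀ i, i < N → 0 ≤ ρ i) (h1 : ∀ i, i < N → ρ i < 1) :
    ∃ r : ℝ, 0 ≤ r ∧ ∑ i ∈ Finset.range N, ∑ l ∈ Finset.range N,
      (w i : ℂ) * (w l : ℂ) * Fc n t (ρ i * ρ l) = (r : ℂ) := by
  refine ⟨∫ B, ‖∑ i ∈ Finset.range N, (w i : ℂ) * TT n t (ρ i) B‖ ^ 2 ∂(gam (Ix n)),
    integral_nonneg fun B => by positivity, ?_⟩
  rw [← integral_complex_ofReal]
  have e : ∀ B : Ix n → ℂ, ((‖∑ i ∈ Finset.range N, (w i : ℂ) * TT n t (ρ i) B‖ ^ 2 : ℝ) : ℂ)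
      = ∑ i ∈ Finset.range N, ∑ l ∈ Finset.range N, (w i : ℂ) * (w l : ℂ)
        * (TT n t (ρ i) B * starRingEnd ℂ (TT n t (ρ l) B)) := by
    intro B
    rw [Complex.ofReal_pow, ← Complex.mul_conj', map_sum, Finset.sum_mul_sum]
    refine Finset.sum_congr rfl fun i _ => Finset.sum_congr rfl fun l _ => ?_
    rw [map_mul, Complex.conj_ofReal]
    ring
  simp_rw [e]
  have hint : ∀ i l : ℕ, Integrable (fun B : Ix n → ℂ =>
      TT n t (ρ i) B * starRingEnd ℂ (TT n t (ρ l) B)) (gam (Ix n)) := by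
    intro i l
    refine (integrable_const (1 : ℝ)).mono' ?_ (Filter.Eventually.of_forall fun p => ?_)
    · exact ((measurable_TT t (ρ i)).mul
        (Complex.continuous_conj.measurable.comp (measurable_TT t (ρ l)))).aestronglyMeasurable
    · rw [norm_mul, RCLike.norm_conj]
      have h2 := norm_TT_le t (ρ i) p
      have h3 := norm_TT_le t (ρ l) p
      nlinarith [norm_nonneg (TT n t (ρ i) p), norm_nonneg (TT n t (ρ l) p)]
  rw [integral_finsetSum]
  · refine Finset.sum_congr rfl fun i hi => ?_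
    rw [integral_finsetSum]
    · refine Finset.sum_congr rfl fun l hl => ?_
      rw [integral_const_mul, psd_id t _ _ (h0 i (Finset.mem_range.1 hi))
        (h1 i (Finset.mem_range.1 hi)) (h0 l (Finset.mem_range.1 hl))
        (h1 l (Finset.mem_range.1 hl))]
    · intro l _
      exact (hint i l).const_mul _
  · intro i _
    exact integrable_finsetSum _ fun l _ => (hint i l).const_mul _

/-- finite difference weights -/
noncomputable def fw (k i : ℕ) : ℝ := (-1) ^ (k - i) * (k.choose i : ℝ)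

/-- moments of the finite difference weights -/
noncomputable def fm (k j : ℕ) : ℝ := ∑ i ∈ Finset.range (k + 1), fw k i * (i : ℝ) ^ j

lemma fm_lt (k j : ℕ) (h : j < k) : fm k j = 0 := by
  have h1 := congrFun (fwdDiff_iter_pow_eq_zero_of_lt (R := ℝ) h) 0
  rw [fwdDiff_iter_eq_sum_shift] at h1
  simp only [Pi.zero_apply] at h1
  unfold fm fw
  rw [← h1]
  refine Finset.sum_congr rfl fun i _ => ?_
  simp

lemma fm_self (k : ℕ) : fm k k = k.factorial := by
  have h1 := congrFun (fwdDiff_iter_eq_factorial (R := ℝ) (n := k)) 0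
  rw [fwdDiff_iter_eq_sum_shift] at h1
  unfold fm fw
  simp only [Pi.natCast_apply] at h1
  rw [← h1]
  refine Finset.sum_congr rfl fun i _ => ?_
  simp

lemma hasSum_fd (t : ℝ) (k : ℕ) (ε : ℝ) (h0 : 0 < ε) (h1 : ε < 1 / (k + 1)) :
    HasSum (fun j => aa n t (j + k) * ((fm k (j + k) : ℝ) : ℂ) ^ 2 * ((ε : ℂ) ^ 2) ^ j)
      ((∑ i ∈ Finset.range (k + 1), ∑ l ∈ Finset.range (k + 1),
        (fw k i : ℂ) * (fw k l : ℂ) * Fc n t (Real.sqrt (ε * i) * Real.sqrt (ε * l)))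
        / ((ε : ℂ) ^ 2) ^ k) := by
  set S := ∑ i ∈ Finset.range (k + 1), ∑ l ∈ Finset.range (k + 1),
        (fw k i : ℂ) * (fw k l : ℂ) * Fc n t (Real.sqrt (ε * i) * Real.sqrt (ε * l)) with hS
  have hlt : ∀ i, i ∈ Finset.range (k + 1) → Real.sqrt (ε * i) < 1 := by
    intro i hi
    rw [Real.sqrt_lt' one_pos, one_pow]
    have h2 : (i : ℝ) ≤ k := by exact_mod_cast Nat.lt_succ_iff.1 (Finset.mem_range.1 hi)
    rw [lt_div_iff₀ (by positivity)] at h1
    nlinarith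
  have h2 : HasSum (fun j => ∑ i ∈ Finset.range (k + 1), ∑ l ∈ Finset.range (k + 1),
      (fw k i : ℂ) * (fw k l : ℂ) * (aa n t j
        * (((Real.sqrt (ε * i) * Real.sqrt (ε * l) : ℝ) : ℂ) ^ 2) ^ j)) S := by
    rw [hS]
    refine hasSum_sum fun i hi => hasSum_sum fun l hl => ?_
    apply HasSum.mul_left
    apply hasSum_aa
    · positivity
    · have h3 := hlt i hi
      have h4 := hlt l hl
      have h5 := Real.sqrt_nonneg (ε * i)
      have h6 := Real.sqrt_nonneg (ε * l)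
      nlinarith
  have h3 : (fun j => ∑ i ∈ Finset.range (k + 1), ∑ l ∈ Finset.range (k + 1),
      (fw k i : ℂ) * (fw k l : ℂ) * (aa n t j
        * (((Real.sqrt (ε * i) * Real.sqrt (ε * l) : ℝ) : ℂ) ^ 2) ^ j))
      = fun j => aa n t j * ((fm k j : ℝ) : ℂ) ^ 2 * ((ε : ℂ) ^ 2) ^ j := by
    funext j
    have h4 : ((fm k j : ℝ) : ℂ) ^ 2 = ∑ i ∈ Finset.range (k + 1), ∑ l ∈ Finset.range (k + 1),
        ((fw k i : ℂ) * (i : ℂ) ^ j) * ((fw k l : ℂ) * (l : ℂ) ^ j) := by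
      unfold fm
      push_cast
      rw [sq, Finset.sum_mul_sum]
    rw [h4, Finset.mul_sum, Finset.sum_mul]
    refine Finset.sum_congr rfl fun i _ => ?_
    rw [Finset.mul_sum, Finset.sum_mul]
    refine Finset.sum_congr rfl fun l _ => ?_
    have h5 : ((Real.sqrt (ε * i) * Real.sqrt (ε * l) : ℝ) : ℂ) ^ 2
        = (ε : ℂ) ^ 2 * ((i : ℂ) * (l : ℂ)) := by
      rw [← Complex.ofReal_pow, mul_pow, Real.sq_sqrt (by positivity), Real.sq_sqrt (by positivity)]
      push_cast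
      ring
    rw [h5, mul_pow, mul_pow]
    ring
  rw [h3] at h2
  have h6 := (hasSum_nat_add_iff' (f := fun j => aa n t j * ((fm k j : ℝ) : ℂ) ^ 2
    * ((ε : ℂ) ^ 2) ^ j) k).2 h2
  have h7 : ∑ j ∈ Finset.range k, aa n t j * ((fm k j : ℝ) : ℂ) ^ 2 * ((ε : ℂ) ^ 2) ^ j = 0 := by
    refine Finset.sum_eq_zero fun j hj => ?_
    rw [fm_lt k j (Finset.mem_range.1 hj)]
    simp
  rw [h7, sub_zero] at h6
  have h8 := h6.div_const (((ε : ℂ) ^ 2) ^ k)
  have hε : (ε : ℂ) ≠ 0 := by exact_mod_cast h0.ne'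
  have h9 : (fun j => aa n t (j + k) * ((fm k (j + k) : ℝ) : ℂ) ^ 2 * ((ε : ℂ) ^ 2) ^ j)
      = fun j => aa n t (j + k) * ((fm k (j + k) : ℝ) : ℂ) ^ 2 * ((ε : ℂ) ^ 2) ^ (j + k)
        / ((ε : ℂ) ^ 2) ^ k := by
    funext j
    rw [pow_add]
    field_simp
  rw [h9]
  exact h8

lemma aa_nonneg (t : ℝ) (k : ℕ) : ∃ r : ℝ, 0 ≤ r ∧ aa n t k = (r : ℂ) := by
  set f : ℝ → ℕ → ℂ := fun ε j => aa n t (j + k) * ((fm k (j + k) : ℝ) : ℂ) ^ 2
    * ((ε : ℂ) ^ 2) ^ j with hf
  set g : ℕ → ℂ := fun j => if j = 0 then aa n t k * ((fm k k : ℝ) : ℂ) ^ 2 else 0 with hg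
  have hk : (0 : ℝ) < 1 / (k + 1) := by positivity
  set ε0 : ℝ := 1 / (k + 1) / 2 with hε0
  have hε0p : 0 < ε0 := by positivity
  have hε0l : ε0 < 1 / (k + 1) := by rw [hε0]; linarith
  have hmem : Set.Ioc (0 : ℝ) ε0 ∈ nhdsWithin (0 : ℝ) (Set.Ioi 0) := Ioc_mem_nhdsGT hε0p
  have hlim : Filter.Tendsto (fun ε : ℝ => ∑' j, f ε j) (nhdsWithin 0 (Set.Ioi 0))
      (nhds (∑' j, g j)) := by
    apply tendsto_tsum_of_dominated_convergence (bound := fun j => ‖f ε0 j‖)
    · exact (hasSum_fd (n := n) t k ε0 hε0p hε0l).summable.norm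
    · intro j
      have hc : Continuous (fun ε : ℝ => f ε j) := by
        simp only [hf]
        fun_prop
      have h1 := (hc.tendsto 0).mono_left (nhdsWithin_le_nhds (s := Set.Ioi (0 : ℝ)))
      have h2 : f 0 j = g j := by
        simp only [hf, hg]
        split_ifs with hj
        · subst hj; simp
        · simp [hj]
      rw [← h2]
      exact h1
    · filter_upwards [hmem] with ε hε j
      simp only [hf, norm_mul, norm_pow, Complex.norm_real, Real.norm_eq_abs]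
      have h3 : |ε| ≤ |ε0| := by
        rw [abs_of_pos hε.1, abs_of_pos hε0p]; exact hε.2
      gcongr
  have hval : ∀ ε ∈ Set.Ioc (0 : ℝ) ε0, ∃ r : ℝ, 0 ≤ r ∧ ∑' j, f ε j = (r : ℂ) := by
    intro ε hε
    have h1 := hasSum_fd (n := n) t k ε hε.1 (lt_of_le_of_lt hε.2 hε0l)
    obtain ⟨r, hr, he⟩ := psd (n := n) t (k + 1) (fw k) (fun i => Real.sqrt (ε * i))
      (fun i _ => Real.sqrt_nonneg _) (fun i hi => by
        rw [Real.sqrt_lt' one_pos, one_pow]
        have h2 : (i : ℝ) ≤ k := by exact_mod_cast Nat.lt_succ_iff.1 hi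
        have h3 := lt_of_le_of_lt hε.2 hε0l
        rw [lt_div_iff₀ (by positivity)] at h3
        nlinarith [hε.1])
    refine ⟨r / (ε ^ 2) ^ k, by have := hε.1; positivity, ?_⟩
    rw [h1.tsum_eq, he]
    push_cast
    ring
  have hg2 : ∑' j, g j = aa n t k * ((fm k k : ℝ) : ℂ) ^ 2 := by
    simp only [hg]
    rw [tsum_ite_eq]
  rw [hg2] at hlim
  have him : (aa n t k * ((fm k k : ℝ) : ℂ) ^ 2).im = 0 := by
    have h1 := (Complex.continuous_im.tendsto _).comp hlim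
    refine tendsto_nhds_unique (h1.congr' ?_) tendsto_const_nhds
    filter_upwards [hmem] with ε hε
    obtain ⟨r, _, he⟩ := hval ε hε
    simp only [Function.comp, he, Complex.ofReal_im]
  have hre : 0 ≤ (aa n t k * ((fm k k : ℝ) : ℂ) ^ 2).re := by
    have h1 := (Complex.continuous_re.tendsto _).comp hlim
    refine ge_of_tendsto h1 ?_
    filter_upwards [hmem] with ε hε
    obtain ⟨r, hr, he⟩ := hval ε hε
    simp only [Function.comp, he, Complex.ofReal_re]
    exact hr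
  have hfm : (0 : ℝ) < (fm k k) ^ 2 := by
    rw [fm_self]
    have : (0 : ℝ) < (k.factorial : ℝ) := by exact_mod_cast k.factorial_pos
    positivity
  rw [← Complex.ofReal_pow, Complex.im_mul_ofReal] at him
  rw [← Complex.ofReal_pow, Complex.re_mul_ofReal] at hre
  refine ⟨(aa n t k).re, ?_, ?_⟩
  · by_contra hcon
    push Not at hcon
    nlinarith
  · apply Complex.ext
    · simp
    · rw [Complex.ofReal_im]
      rcases mul_eq_zero.1 him with h | h
      · exact h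
      · exact absurd h hfm.ne'

lemma norm_Fc_le (t ρ : ℝ) : ‖Fc n t ρ‖ ≤ 1 := by
  unfold Fc
  refine (norm_integral_le_integral_norm _).trans ?_
  simp [norm_ph]

/-- exponentially good approximation on the imaginary axis -/
theorem imag_bound (t x y : ℝ) (hx : 0 ≤ x) (hxy : x < y) (hy : y < 1) :
    ‖Fc n t (Real.sqrt x) - cc n t 0 * (((1 - x) ^ (-t ^ 2) : ℝ) : ℂ)‖
      ≤ (x / y) ^ (n + 1) * (1 + (1 - y) ^ (-t ^ 2)) := by
  have hy0 : 0 < y := lt_of_le_of_lt hx hxy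
  choose ar har0 har using fun k => aa_nonneg (n := n) t k
  choose br hbr0 hbr using fun k => bc_real t k
  have hc0 : cc n t 0 = (ar 0 : ℂ) := by
    rw [← har 0, aa_exact t 0 (Nat.zero_le n), bc_zero, mul_one]
  have hsA : ∀ z : ℝ, 0 ≤ z → z < 1 → HasSum (fun k => ar k * z ^ k) (Fc n t (Real.sqrt z)).re ∧
      Fc n t (Real.sqrt z) = ((Fc n t (Real.sqrt z)).re : ℂ) := by
    intro z hz0 hz1
    have h1 := hasSum_aa (n := n) t (Real.sqrt z) (Real.sqrt_nonneg z)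
      (by rw [Real.sqrt_lt' one_pos, one_pow]; exact hz1)
    have h2 : (fun k => aa n t k * (((Real.sqrt z : ℝ) : ℂ) ^ 2) ^ k)
        = fun k => ((ar k * z ^ k : ℝ) : ℂ) := by
      funext k
      rw [har k, ← Complex.ofReal_pow, Real.sq_sqrt hz0]
      push_cast
      ring
    rw [h2] at h1
    have h3 := Complex.hasSum_re h1
    simp only [Complex.ofReal_re] at h3
    refine ⟨h3, ?_⟩
    have h4 := (Complex.hasSum_ofReal).2 h3
    exact h1.unique h4
  have hsB : ∀ z : ℝ, 0 ≤ z → z < 1 → HasSum (fun k => br k * z ^ k) ((1 - z) ^ (-t ^ 2)) := by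
    intro z hz0 hz1
    have h1 := hasSum_bc ((t : ℂ) ^ 2) (z : ℂ) (by
      rw [Complex.norm_real, Real.norm_eq_abs, abs_of_nonneg hz0]; exact hz1)
    have h2 : (fun k => bc ((t : ℂ) ^ 2) k * (z : ℂ) ^ k)
        = fun k => ((br k * z ^ k : ℝ) : ℂ) := by
      funext k
      rw [hbr k]
      push_cast
      ring
    have h3 : 1 / (1 - (z : ℂ)) ^ ((t : ℂ) ^ 2) = (((1 - z) ^ (-t ^ 2) : ℝ) : ℂ) := by
      rw [Complex.ofReal_cpow (by linarith)]
      push_cast
      rw [Complex.cpow_neg, one_div]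
    rw [h2, h3] at h1
    exact (Complex.hasSum_ofReal).1 h1
  have hx1 : x < 1 := hxy.trans hy
  obtain ⟨hA1, hA2⟩ := hsA x hx hx1
  obtain ⟨hA3, hA4⟩ := hsA y hy0.le hy
  have hB1 := hsB x hx hx1
  have hB2 := hsB y hy0.le hy
  have har_le : ar 0 ≤ 1 := by
    have h1 : ‖cc n t 0‖ ≤ 1 := by
      unfold cc EE
      simp only [pow_zero, mul_one, Nat.factorial_zero, Nat.cast_one, one_pow, div_one]
      refine (norm_integral_le_integral_norm _).trans ?_
      simp [norm_JJ]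
    rw [hc0, Complex.norm_real, Real.norm_eq_abs] at h1
    exact (le_abs_self _).trans h1
  have hexact : ∀ k, k < n + 1 → ar k = ar 0 * br k := by
    intro k hk
    have h1 := aa_exact (n := n) t k (Nat.lt_succ_iff.1 hk)
    rw [har k, hc0, hbr k] at h1
    exact_mod_cast h1
  have hD := hA1.sub (hB1.mul_left (ar 0))
  have hE := (hasSum_nat_add_iff' (f := fun k => ar k * x ^ k - ar 0 * (br k * x ^ k)) (n + 1)).2 hD
  have hz : ∑ k ∈ Finset.range (n + 1), (ar k * x ^ k - ar 0 * (br k * x ^ k)) = 0 := by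
    refine Finset.sum_eq_zero fun k hk => ?_
    rw [hexact k (Finset.mem_range.1 hk)]
    ring
  rw [hz, sub_zero] at hE
  -- majorant
  have hM := (hA3.add (hB2.mul_left (ar 0))).mul_left ((x / y) ^ (n + 1))
  have hMs := hM.summable
  have hnn : ∀ k, 0 ≤ (x / y) ^ (n + 1) * (ar k * y ^ k + ar 0 * (br k * y ^ k)) := by
    intro k
    have h1 := har0 k
    have h2 := har0 0
    have h3 := hbr0 k
    positivity
  have hM2 := (summable_nat_add_iff (n + 1)).2 hMs
  have hpt : ∀ k, |ar (k + (n + 1)) * x ^ (k + (n + 1))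
      - ar 0 * (br (k + (n + 1)) * x ^ (k + (n + 1)))|
      ≤ (x / y) ^ (n + 1) * (ar (k + (n + 1)) * y ^ (k + (n + 1))
        + ar 0 * (br (k + (n + 1)) * y ^ (k + (n + 1)))) := by
    intro k
    have h1 := har0 (k + (n + 1))
    have h2 := har0 0
    have h3 := hbr0 (k + (n + 1))
    have h4 : x ^ (k + (n + 1)) ≤ (x / y) ^ (n + 1) * y ^ (k + (n + 1)) := by
      have e : (x / y) ^ (n + 1) * y ^ (k + (n + 1)) = x ^ (n + 1) * y ^ k := by
        rw [div_pow, pow_add y k (n + 1)]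
        field_simp
      rw [e, pow_add, mul_comm]
      gcongr
    have h5 : 0 ≤ x ^ (k + (n + 1)) := by positivity
    calc |ar (k + (n + 1)) * x ^ (k + (n + 1)) - ar 0 * (br (k + (n + 1)) * x ^ (k + (n + 1)))|
        ≤ |ar (k + (n + 1)) * x ^ (k + (n + 1))|
          + |ar 0 * (br (k + (n + 1)) * x ^ (k + (n + 1)))| := abs_sub _ _
      _ = (ar (k + (n + 1)) + ar 0 * br (k + (n + 1))) * x ^ (k + (n + 1)) := by
          rw [abs_of_nonneg (by positivity), abs_of_nonneg (by positivity)]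
          ring
      _ ≤ (ar (k + (n + 1)) + ar 0 * br (k + (n + 1)))
          * ((x / y) ^ (n + 1) * y ^ (k + (n + 1))) := by gcongr
      _ = _ := by ring
  have hfin : |(Fc n t (Real.sqrt x)).re - ar 0 * (1 - x) ^ (-t ^ 2)|
      ≤ (x / y) ^ (n + 1) * ((Fc n t (Real.sqrt y)).re + ar 0 * (1 - y) ^ (-t ^ 2)) := by
    have h1 : |(Fc n t (Real.sqrt x)).re - ar 0 * (1 - x) ^ (-t ^ 2)|
        ≤ ∑' k, (x / y) ^ (n + 1) * (ar (k + (n + 1)) * y ^ (k + (n + 1))
        + ar 0 * (br (k + (n + 1)) * y ^ (k + (n + 1)))) := by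
      rw [← hE.tsum_eq, ← Real.norm_eq_abs]
      refine (norm_tsum_le_tsum_norm ?_).trans ?_
      · exact hM2.of_nonneg_of_le (fun k => abs_nonneg _) hpt
      · exact Summable.tsum_le_tsum hpt (hM2.of_nonneg_of_le (fun k => abs_nonneg _) hpt) hM2
    refine h1.trans ?_
    rw [← hM.tsum_eq, ← hMs.sum_add_tsum_nat_add (n + 1)]
    have h2 : 0 ≤ ∑ k ∈ Finset.range (n + 1),
        (x / y) ^ (n + 1) * (ar k * y ^ k + ar 0 * (br k * y ^ k)) :=
      Finset.sum_nonneg fun k _ => hnn k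
    linarith
  have hF1 : (Fc n t (Real.sqrt y)).re ≤ 1 :=
    (le_abs_self _).trans ((Complex.abs_re_le_norm _).trans (norm_Fc_le t _))
  have hpow : 0 ≤ (1 - y) ^ (-t ^ 2) := Real.rpow_nonneg (by linarith) _
  rw [hA2, hc0, ← Complex.ofReal_mul, ← Complex.ofReal_sub, Complex.norm_real, Real.norm_eq_abs]
  refine hfin.trans ?_
  have h3 : 0 ≤ (x / y) ^ (n + 1) := by positivity
  refine mul_le_mul_of_nonneg_left ?_ h3
  have h4 : ar 0 * (1 - y) ^ (-t ^ 2) ≤ 1 * (1 - y) ^ (-t ^ 2) :=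
    mul_le_mul_of_nonneg_right har_le hpow
  linarith

end Pool.Agent.Q293.FH
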