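import Mathlib
import Pool.Agent.Q293.FH.Pos

set_option linter.unusedSectionVars false

open MeasureTheory Complex ProbabilityTheory

namespace Pool.Agent.Q293.FH

variable {n : ℕ}

/-- log modulus of the determinant -/
noncomputable def ld (v : Ix n → ℂ) : ℝ := Real.log ‖(toM v).det‖

lemma measurable_ld : Measurable (ld : (Ix n → ℂ) → ℝ) :=
  Real.measurable_log.comp (continuous_det_toM n).norm.measurable

/-- the correlated matrix -/
noncomputable def VV (ρ : ℝ) (p : (Ix n → ℂ) × (Ix n → ℂ)) : Ix n → ℂ :=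
  (ρ : ℂ) • p.2 + ((Real.sqrt (1 - ρ ^ 2) : ℝ) : ℂ) • p.1

lemma continuous_VV (ρ : ℝ) : Continuous (VV ρ : (Ix n → ℂ) × (Ix n → ℂ) → (Ix n → ℂ)) := by
  unfold VV
  fun_prop

lemma VV_pres (ρ : ℝ) (h0 : 0 ≤ ρ) (h1 : ρ < 1) :
    MeasurePreserving (VV ρ) (P2 n) (gam (Ix n)) := by
  have hpos : 0 < 1 - ρ ^ 2 := by nlinarith
  have hrot := rot_P2 (n := n) (Real.sqrt (1 - ρ ^ 2)) ρ (by rw [Real.sq_sqrt hpos.le]; ring)
  have h2 : MeasurePreserving (Prod.fst : (Ix n → ℂ) × (Ix n → ℂ) → (Ix n → ℂ)) (P2 n)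
      (gam (Ix n)) := measurePreserving_fst
  have h3 := h2.comp hrot
  convert h3 using 1
  funext p
  simp only [VV, Function.comp]
  rw [add_comm]

/-- the random variable whose moment generating function we study -/
noncomputable def YY (ρ : ℝ) (p : (Ix n → ℂ) × (Ix n → ℂ)) : ℝ := 2 * (ld (VV ρ p) - ld p.2)

lemma measurable_YY (ρ : ℝ) : Measurable (YY ρ : (Ix n → ℂ) × (Ix n → ℂ) → ℝ) := by
  unfold YY
  exact ((measurable_ld.comp (continuous_VV ρ).measurable).sub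
    (measurable_ld.comp measurable_snd)).const_mul 2

lemma lint_ld (α : ℝ) (hα : -1 < α) :
    ∫⁻ v : Ix n → ℂ, ENNReal.ofReal (Real.exp (2 * α * ld v)) ∂(gam (Ix n))
      = ENNReal.ofReal (Mr n α) := det_moment n α hα

/-- the Hoelder bound -/
lemma holder_bound (ρ : ℝ) (h0 : 0 ≤ ρ) (h1 : ρ < 1) (a b u v : ℝ)
    (huv : u.HolderConjugate v) (ha : -1 < a * u) (hb : -1 < b * v) :
    ∫⁻ p, ENNReal.ofReal (Real.exp (2 * a * ld (VV ρ p) + 2 * b * ld p.2)) ∂(P2 n)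
      ≤ ENNReal.ofReal ((Mr n (a * u)) ^ (1 / u) * (Mr n (b * v)) ^ (1 / v)) := by
  have hm1 : Measurable (fun w : Ix n → ℂ => ENNReal.ofReal (Real.exp (2 * a * ld w))) :=
    (Real.measurable_exp.comp (measurable_ld.const_mul _)).ennreal_ofReal
  have hm2 : Measurable (fun w : Ix n → ℂ => ENNReal.ofReal (Real.exp (2 * b * ld w))) :=
    (Real.measurable_exp.comp (measurable_ld.const_mul _)).ennreal_ofReal
  have hV := VV_pres (n := n) ρ h0 h1
  have hS : MeasurePreserving (Prod.snd : (Ix n → ℂ) × (Ix n → ℂ) → (Ix n → ℂ)) (P2 n)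
      (gam (Ix n)) := measurePreserving_snd
  have hu : 0 < u := huv.pos
  have hv : 0 < v := huv.symm.pos
  have e1 : ∀ p : (Ix n → ℂ) × (Ix n → ℂ),
      ENNReal.ofReal (Real.exp (2 * a * ld (VV ρ p) + 2 * b * ld p.2))
      = ENNReal.ofReal (Real.exp (2 * a * ld (VV ρ p)))
        * ENNReal.ofReal (Real.exp (2 * b * ld p.2)) := by
    intro p
    rw [Real.exp_add, ENNReal.ofReal_mul (Real.exp_pos _).le]
  simp_rw [e1]
  have hH := ENNReal.lintegral_mul_le_Lp_mul_Lq (P2 n) huv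
    (f := fun p => ENNReal.ofReal (Real.exp (2 * a * ld (VV ρ p))))
    (g := fun p => ENNReal.ofReal (Real.exp (2 * b * ld p.2)))
    (hm1.comp hV.measurable).aemeasurable (hm2.comp measurable_snd).aemeasurable
  refine hH.trans ?_
  have e2 : ∀ c w x : ℝ, ENNReal.ofReal (Real.exp (2 * c * x)) ^ w
      = ENNReal.ofReal (Real.exp (2 * (c * w) * x)) := by
    intro c w x
    rw [ENNReal.ofReal_rpow_of_pos (Real.exp_pos _), ← Real.exp_mul]
    congr 2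
    ring
  simp only [e2]
  have e3 : ∫⁻ p, ENNReal.ofReal (Real.exp (2 * (a * u) * ld (VV ρ p))) ∂(P2 n)
      = ENNReal.ofReal (Mr n (a * u)) := by
    rw [← lint_ld (a * u) ha]
    exact hV.lintegral_comp
      (Real.measurable_exp.comp (measurable_ld.const_mul _)).ennreal_ofReal
  have e4 : ∫⁻ p : (Ix n → ℂ) × (Ix n → ℂ), ENNReal.ofReal (Real.exp (2 * (b * v) * ld p.2)) ∂(P2 n)
      = ENNReal.ofReal (Mr n (b * v)) := by
    rw [← lint_ld (b * v) hb]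
    exact hS.lintegral_comp
      (Real.measurable_exp.comp (measurable_ld.const_mul _)).ennreal_ofReal
  rw [e3, e4, ENNReal.ofReal_rpow_of_pos (Mr_pos n _ ha), ENNReal.ofReal_rpow_of_pos (Mr_pos n _ hb),
    ← ENNReal.ofReal_mul (Real.rpow_nonneg (Mr_pos n _ ha).le _)]

/-- Hoelder majorant -/
noncomputable def QQ (n : ℕ) (τ : ℝ) : ℝ :=
  (Mr n (τ * (((1 + τ) / 2) / ((1 + τ) / 2 - τ)))) ^ (1 / (((1 + τ) / 2) / ((1 + τ) / 2 - τ)))
    * (Mr n (-((1 + τ) / 2))) ^ (1 / (((1 + τ) / 2) / τ))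

lemma conj_exp (τ : ℝ) (h0 : 0 < τ) (h1 : τ < 1) :
    (((1 + τ) / 2) / ((1 + τ) / 2 - τ)).HolderConjugate (((1 + τ) / 2) / τ) := by
  rw [Real.holderConjugate_iff]
  have h2 : 0 < (1 + τ) / 2 - τ := by linarith
  have h3 : 0 < (1 + τ) / 2 := by linarith
  refine ⟨?_, ?_⟩
  · rw [lt_div_iff₀ h2]
    linarith
  · rw [inv_div, inv_div]
    field_simp
    ring

lemma lint_YY (ρ : ℝ) (h0 : 0 ≤ ρ) (h1 : ρ < 1) (τ : ℝ) (hτ0 : 0 < τ) (hτ1 : τ < 1) :
    ∫⁻ p, ENNReal.ofReal (Real.exp (τ * YY ρ p)) ∂(P2 n) ≤ ENNReal.ofReal (QQ n τ) ∧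
    ∫⁻ p, ENNReal.ofReal (Real.exp (-τ * YY ρ p)) ∂(P2 n) ≤ ENNReal.ofReal (QQ n τ) := by
  have hc := conj_exp τ hτ0 hτ1
  have h2 : 0 < (1 + τ) / 2 - τ := by linarith
  have h3 : 0 < (1 + τ) / 2 := by linarith
  have e1 : -τ * (((1 + τ) / 2) / τ) = -((1 + τ) / 2) := by field_simp
  have hp1 : -1 < τ * (((1 + τ) / 2) / ((1 + τ) / 2 - τ)) := by
    have : 0 < τ * (((1 + τ) / 2) / ((1 + τ) / 2 - τ)) := by positivity
    linarith
  have hp2 : -1 < -τ * (((1 + τ) / 2) / τ) := by rw [e1]; linarith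
  constructor
  · have h := holder_bound (n := n) ρ h0 h1 τ (-τ) _ _ hc hp1 hp2
    rw [e1] at h
    refine le_trans (le_of_eq ?_) h
    refine lintegral_congr fun p => ?_
    congr 2
    unfold YY
    ring
  · have h := holder_bound (n := n) ρ h0 h1 (-τ) τ _ _ hc.symm hp2 hp1
    rw [e1] at h
    unfold QQ
    rw [mul_comm ((Mr n (τ * (((1 + τ) / 2) / ((1 + τ) / 2 - τ)))) ^ _)]
    refine le_trans (le_of_eq ?_) h
    refine lintegral_congr fun p => ?_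
    congr 2
    unfold YY
    ring

lemma QQ_nonneg (τ : ℝ) (h0 : 0 < τ) (h1 : τ < 1) : 0 ≤ QQ n τ := by
  unfold QQ
  have h2 : 0 < (1 + τ) / 2 - τ := by linarith
  have h3 : 0 < (1 + τ) / 2 := by linarith
  have hp1 : -1 < τ * (((1 + τ) / 2) / ((1 + τ) / 2 - τ)) := by
    have : 0 < τ * (((1 + τ) / 2) / ((1 + τ) / 2 - τ)) := by positivity
    linarith
  have := Mr_pos n _ hp1
  have := Mr_pos n (-((1 + τ) / 2)) (by linarith)
  positivity

lemma integrable_of_lint {Ω : Type*} [MeasurableSpace Ω] {μ : Measure Ω} (f : Ω → ℝ)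
    (hf : Measurable f) (h0 : ∀ x, 0 ≤ f x) (C : ℝ)
    (h : ∫⁻ x, ENNReal.ofReal (f x) ∂μ ≤ ENNReal.ofReal C) : Integrable f μ := by
  refine ⟨hf.aestronglyMeasurable, ?_⟩
  rw [hasFiniteIntegral_iff_ofReal (Filter.Eventually.of_forall h0)]
  exact lt_of_le_of_lt h ENNReal.ofReal_lt_top

lemma integrable_expYY (ρ : ℝ) (h0 : 0 ≤ ρ) (h1 : ρ < 1) (τ : ℝ) (hτ : |τ| < 1) :
    Integrable (fun p => Real.exp (τ * YY ρ p)) (P2 n) := by
  have hm : ∀ c : ℝ, Measurable (fun p : (Ix n → ℂ) × (Ix n → ℂ) => Real.exp (c * YY ρ p)) :=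
    fun c => Real.measurable_exp.comp ((measurable_YY ρ).const_mul c)
  rcases lt_trichotomy τ 0 with h | h | h
  · rw [abs_of_neg h] at hτ
    have h2 := (lint_YY (n := n) ρ h0 h1 (-τ) (by linarith) hτ).2
    rw [neg_neg] at h2
    exact integrable_of_lint _ (hm τ) (fun p => (Real.exp_pos _).le) _ h2
  · subst h
    simp
  · rw [abs_of_pos h] at hτ
    exact integrable_of_lint _ (hm τ) (fun p => (Real.exp_pos _).le) _
      (lint_YY (n := n) ρ h0 h1 τ h hτ).1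

lemma mgf_bound (ρ : ℝ) (h0 : 0 ≤ ρ) (h1 : ρ < 1) (τ : ℝ) (hτ0 : 0 < τ) (hτ1 : τ < 1) :
    mgf (YY ρ) (P2 n) τ ≤ QQ n τ ∧ mgf (YY ρ) (P2 n) (-τ) ≤ QQ n τ := by
  have h2 := lint_YY (n := n) ρ h0 h1 τ hτ0 hτ1
  have hq := QQ_nonneg (n := n) τ hτ0 hτ1
  constructor
  · unfold mgf
    rw [← ofReal_integral_eq_lintegral_ofReal (integrable_expYY ρ h0 h1 τ
      (by rw [abs_of_pos hτ0]; exact hτ1)) (Filter.Eventually.of_forall fun p =>
        (Real.exp_pos _).le), ENNReal.ofReal_le_ofReal_iff hq] at h2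
    exact h2.1
  · unfold mgf
    have h3 := h2.2
    rw [← ofReal_integral_eq_lintegral_ofReal (integrable_expYY ρ h0 h1 (-τ)
      (by rw [abs_neg, abs_of_pos hτ0]; exact hτ1)) (Filter.Eventually.of_forall fun p =>
        (Real.exp_pos _).le), ENNReal.ofReal_le_ofReal_iff hq] at h3
    exact h3

lemma strip_subset (ρ : ℝ) (h0 : 0 ≤ ρ) (h1 : ρ < 1) :
    Set.Ioo (-1 : ℝ) 1 ⊆ interior (integrableExpSet (YY ρ) (P2 n)) := by
  refine interior_maximal ?_ isOpen_Ioo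
  intro τ hτ
  exact integrable_expYY ρ h0 h1 τ (abs_lt.2 ⟨hτ.1, hτ.2⟩)

/-- the analytic family -/
noncomputable def FF (n : ℕ) (ρ : ℝ) (s : ℂ) : ℂ := complexMGF (YY ρ) (P2 n) s

lemma FF_diff (ρ : ℝ) (h0 : 0 ≤ ρ) (h1 : ρ < 1) (s : ℂ) (hs : |s.re| < 1) :
    DifferentiableAt ℂ (FF n ρ) s :=
  (analyticAt_complexMGF (strip_subset (n := n) ρ h0 h1 ⟨(abs_lt.1 hs).1, (abs_lt.1 hs).2⟩)).differentiableAt

lemma FF_imag (ρ t : ℝ) : FF n ρ (t * I) = Fc n t ρ := by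
  unfold FF complexMGF Fc
  refine integral_congr_ae (Filter.Eventually.of_forall fun p => ?_)
  simp only
  unfold ph YY ld VV
  rw [← Complex.exp_add]
  congr 1
  push_cast
  ring

lemma FF_zero_imag (t : ℝ) : FF n 0 (t * I) = cc n t 0 := by
  rw [FF_imag]
  unfold Fc cc EE JJ
  simp

/-- bound on vertical lines -/
lemma FF_bound (ρ : ℝ) (h0 : 0 ≤ ρ) (h1 : ρ < 1) (τ : ℝ) (hτ0 : 0 < τ) (hτ1 : τ < 1) (s : ℂ)
    (hs : s.re = τ ∨ s.re = -τ) : ‖FF n ρ s‖ ≤ QQ n τ := by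
  refine (norm_complexMGF_le_mgf).trans ?_
  rcases hs with h | h
  · rw [h]; exact (mgf_bound ρ h0 h1 τ hτ0 hτ1).1
  · rw [h]; exact (mgf_bound ρ h0 h1 τ hτ0 hτ1).2

end Pool.Agent.Q293.FH
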