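import Mathlib
import Pool.Agent.Q293.FH.Strip

set_option linter.unusedSectionVars false

open MeasureTheory Complex ProbabilityTheory

namespace Pool.Agent.Q293.FH

variable {n : ℕ}

lemma mgf_bound' (ρ : ℝ) (h0 : 0 ≤ ρ) (h1 : ρ < 1) (σ : ℝ) (hσ0 : 0 < σ) (hσ1 : σ < 1) (τ : ℝ)
    (hτ : |τ| ≤ σ) : mgf (YY ρ) (P2 n) τ ≤ 1 + QQ n σ := by
  have hint : ∀ c : ℝ, |c| < 1 → Integrable (fun p => Real.exp (c * YY ρ p)) (P2 n) :=
    fun c hc => integrable_expYY ρ h0 h1 c hc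
  rcases le_or_gt 0 τ with h | h
  · rw [abs_of_nonneg h] at hτ
    have h2 : mgf (YY ρ) (P2 n) τ ≤ 1 + mgf (YY ρ) (P2 n) σ := by
      unfold mgf
      have e : (1 : ℝ) + ∫ p, Real.exp (σ * YY ρ p) ∂(P2 n)
          = ∫ p, (1 + Real.exp (σ * YY ρ p)) ∂(P2 n) := by
        rw [integral_add (integrable_const 1) (hint σ (by rw [abs_of_pos hσ0]; exact hσ1))]
        simp
      rw [e]
      refine integral_mono (hint τ (by rw [abs_of_nonneg h]; linarith))
        ((integrable_const 1).add (hint σ (by rw [abs_of_pos hσ0]; exact hσ1))) fun p => ?_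
      simp only
      rcases le_or_gt 0 (YY ρ p) with hy | hy
      · have : Real.exp (τ * YY ρ p) ≤ Real.exp (σ * YY ρ p) := by
          apply Real.exp_le_exp.2
          exact mul_le_mul_of_nonneg_right hτ hy
        linarith
      · have : Real.exp (τ * YY ρ p) ≤ 1 := by
          rw [Real.exp_le_one_iff]
          nlinarith
        linarith [Real.exp_pos (σ * YY ρ p)]
    linarith [(mgf_bound (n := n) ρ h0 h1 σ hσ0 hσ1).1]
  · rw [abs_of_neg h] at hτ
    have hc : |(-σ)| < 1 := by rw [abs_neg, abs_of_pos hσ0]; exact hσ1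
    have h2 : mgf (YY ρ) (P2 n) τ ≤ 1 + mgf (YY ρ) (P2 n) (-σ) := by
      unfold mgf
      have e : (1 : ℝ) + ∫ p, Real.exp (-σ * YY ρ p) ∂(P2 n)
          = ∫ p, (1 + Real.exp (-σ * YY ρ p)) ∂(P2 n) := by
        rw [integral_add (integrable_const 1) (hint (-σ) hc)]
        simp
      rw [e]
      refine integral_mono (hint τ (by rw [abs_of_neg h]; linarith))
        ((integrable_const 1).add (hint (-σ) hc)) fun p => ?_
      simp only
      rcases le_or_gt 0 (YY ρ p) with hy | hy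
      · have : Real.exp (τ * YY ρ p) ≤ 1 := by
          rw [Real.exp_le_one_iff]
          nlinarith
        linarith [Real.exp_pos (-σ * YY ρ p)]
      · have : Real.exp (τ * YY ρ p) ≤ Real.exp (-σ * YY ρ p) := by
          apply Real.exp_le_exp.2
          nlinarith
        linarith
    linarith [(mgf_bound (n := n) ρ h0 h1 σ hσ0 hσ1).2]

lemma re_sq (s : ℂ) : (s ^ 2).re = s.re ^ 2 - s.im ^ 2 := by
  rw [sq, Complex.mul_re]; ring

/-- the function to which the three lines theorem is applied -/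
noncomputable def hh (n : ℕ) (x C e : ℝ) (s : ℂ) : ℂ :=
  (FF n (Real.sqrt x) (e * s) - FF n 0 (e * s) * Complex.exp (s ^ 2 * (Real.log (1 - x) : ℝ)))
    * Complex.exp (C * s ^ 2)

lemma norm_exp_le (x y : ℝ) (hx : 0 ≤ x) (hxy : x < y) (hy : y < 1) (s : ℂ) (hs : |s.re| ≤ 1) :
    ‖Complex.exp (s ^ 2 * (Real.log (1 - x) : ℝ)) * Complex.exp ((-Real.log (1 - y) : ℝ) * s ^ 2)‖
      ≤ Real.exp (-Real.log (1 - y)) ∧
    ‖Complex.exp ((-Real.log (1 - y) : ℝ) * s ^ 2)‖ ≤ Real.exp (-Real.log (1 - y)) := by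
  have hlx : Real.log (1 - x) ≤ 0 := Real.log_nonpos (by linarith) (by linarith)
  have hly : Real.log (1 - y) ≤ Real.log (1 - x) := Real.log_le_log (by linarith) (by linarith)
  have hre : (s ^ 2).re ≤ 1 := by
    rw [re_sq]
    have := sq_abs s.re
    nlinarith [abs_nonneg s.re, sq_nonneg s.im]
  constructor
  · rw [← Complex.exp_add, Complex.norm_exp]
    apply Real.exp_le_exp.2
    have e : (s ^ 2 * (Real.log (1 - x) : ℝ) + (-Real.log (1 - y) : ℝ) * s ^ 2).re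
        = (s ^ 2).re * (Real.log (1 - x) - Real.log (1 - y)) := by
      rw [Complex.add_re, Complex.re_mul_ofReal, Complex.re_ofReal_mul]
      ring
    rw [e]
    nlinarith
  · rw [Complex.norm_exp]
    apply Real.exp_le_exp.2
    rw [Complex.re_ofReal_mul]
    nlinarith

lemma hh_imag (x y e : ℝ) (he : e = 1 ∨ e = -1) (hx : 0 ≤ x) (hxy : x < y) (hy : y < 1) (s : ℂ)
    (hs : s.re = 0) : ‖hh n x (-Real.log (1 - y)) e s‖ ≤ 2 * (x / y) ^ (n + 1) := by
  have hy0 : 0 < y := lt_of_le_of_lt hx hxy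
  have hsI : s = (s.im : ℂ) * I := by
    apply Complex.ext <;> simp [hs]
  set t := s.im with ht
  have hes : (e : ℂ) * s = ((e * t : ℝ) : ℂ) * I := by
    rw [hsI]; push_cast; ring
  have he2 : (e * t) ^ 2 = t ^ 2 := by
    rcases he with h | h <;> rw [h] <;> ring
  have hss : s ^ 2 = ((-t ^ 2 : ℝ) : ℂ) := by
    rw [hsI, mul_pow, Complex.I_sq]
    push_cast
    ring
  unfold hh
  rw [hes, FF_imag, FF_zero_imag, hss, ← Complex.ofReal_mul, ← Complex.ofReal_mul,
    ← Complex.ofReal_exp, ← Complex.ofReal_exp, norm_mul, Complex.norm_real, Real.norm_eq_abs,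
    abs_of_pos (Real.exp_pos _)]
  have h1 := imag_bound (n := n) (e * t) x y hx hxy hy
  rw [he2] at h1
  have e1 : (1 - x) ^ (-t ^ 2) = Real.exp (-t ^ 2 * Real.log (1 - x)) := by
    rw [Real.rpow_def_of_pos (by linarith)]
    congr 1
    ring
  have e2 : (1 - y) ^ (-t ^ 2) * Real.exp (-Real.log (1 - y) * -t ^ 2) = 1 := by
    rw [Real.rpow_def_of_pos (by linarith), ← Real.exp_add]
    rw [show Real.log (1 - y) * -t ^ 2 + -Real.log (1 - y) * -t ^ 2 = 0 by ring, Real.exp_zero]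
  have e3 : Real.exp (-Real.log (1 - y) * -t ^ 2) ≤ 1 := by
    rw [Real.exp_le_one_iff]
    have hly : Real.log (1 - y) ≤ 0 := Real.log_nonpos (by linarith) (by linarith)
    nlinarith [sq_nonneg t]
  rw [e1] at h1
  calc _ ≤ (x / y) ^ (n + 1) * (1 + (1 - y) ^ (-t ^ 2))
        * Real.exp (-Real.log (1 - y) * -t ^ 2) := by
        refine mul_le_mul_of_nonneg_right h1 (Real.exp_pos _).le
    _ = (x / y) ^ (n + 1) * (Real.exp (-Real.log (1 - y) * -t ^ 2)
        + (1 - y) ^ (-t ^ 2) * Real.exp (-Real.log (1 - y) * -t ^ 2)) := by ring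
    _ ≤ (x / y) ^ (n + 1) * (1 + 1) := by
        rw [e2]
        have : 0 ≤ (x / y) ^ (n + 1) := by positivity
        refine mul_le_mul_of_nonneg_left ?_ this
        linarith
    _ = _ := by ring

lemma three_lines (x y e σ : ℝ) (he : e = 1 ∨ e = -1) (hx : 0 ≤ x) (hxy : x < y) (hy : y < 1)
    (hσ0 : 0 < σ) (hσ1 : σ < 1) (s : ℂ) (hs0 : 0 ≤ s.re) (hs1 : s.re ≤ σ) :
    ‖hh n x (-Real.log (1 - y)) e s‖ ≤ (2 * (x / y) ^ (n + 1)) ^ (1 - s.re / σ)
      * (2 * Real.exp (-Real.log (1 - y)) * QQ n σ) ^ (s.re / σ) := by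
  have hx1 : Real.sqrt x < 1 := by
    rw [Real.sqrt_lt' one_pos, one_pow]; linarith
  have hsx := Real.sqrt_nonneg x
  have hes : ∀ s : ℂ, ((e : ℂ) * s).re = e * s.re := fun s => Complex.re_ofReal_mul _ _
  have habs : ∀ s : ℂ, |((e : ℂ) * s).re| = |s.re| := by
    intro s
    rw [hes, abs_mul]
    rcases he with h | h <;> rw [h] <;> simp
  have hdiff : ∀ s : ℂ, 0 ≤ s.re → s.re ≤ σ →
      DifferentiableAt ℂ (hh n x (-Real.log (1 - y)) e) s := by
    intro s h0 h1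
    have h2 : |((e : ℂ) * s).re| < 1 := by
      rw [habs, abs_of_nonneg h0]; linarith
    have h3 : DifferentiableAt ℂ (fun s : ℂ => (e : ℂ) * s) s := by fun_prop
    have h4 : DifferentiableAt ℂ (fun s : ℂ => FF n (Real.sqrt x) (e * s)) s :=
      (FF_diff (Real.sqrt x) hsx hx1 _ h2).comp s h3
    have h5 : DifferentiableAt ℂ (fun s : ℂ => FF n 0 (e * s)) s :=
      (FF_diff 0 le_rfl one_pos _ h2).comp s h3
    unfold hh
    exact (h4.sub (h5.mul (by fun_prop))).mul (by fun_prop)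
  have hclos : closure (Complex.HadamardThreeLines.verticalStrip 0 σ)
      ⊆ {s : ℂ | 0 ≤ s.re ∧ s.re ≤ σ} := by
    refine closure_minimal ?_ ?_
    · intro s hs
      exact ⟨hs.1.le, hs.2.le⟩
    · exact (isClosed_le continuous_const Complex.continuous_re).inter
        (isClosed_le Complex.continuous_re continuous_const)
  have hd : DiffContOnCl ℂ (hh n x (-Real.log (1 - y)) e)
      (Complex.HadamardThreeLines.verticalStrip 0 σ) := by
    apply DifferentiableOn.diffContOnCl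
    intro s hs
    have := hclos hs
    exact (hdiff s this.1 this.2).differentiableWithinAt
  have hB : BddAbove ((norm ∘ (hh n x (-Real.log (1 - y)) e)) ''
      Complex.HadamardThreeLines.verticalClosedStrip 0 σ) := by
    refine ⟨2 * Real.exp (-Real.log (1 - y)) * (1 + QQ n σ), ?_⟩
    rintro _ ⟨s, hs, rfl⟩
    have hs' : 0 ≤ s.re ∧ s.re ≤ σ := ⟨hs.1, hs.2⟩
    simp only [Function.comp, hh]
    have h1 := norm_exp_le x y hx hxy hy s (by rw [abs_of_nonneg hs'.1]; linarith)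
    have h2 : ‖FF n (Real.sqrt x) (e * s)‖ ≤ 1 + QQ n σ := by
      refine norm_complexMGF_le_mgf.trans (mgf_bound' (Real.sqrt x) hsx hx1 σ hσ0 hσ1 _ ?_)
      rw [habs, abs_of_nonneg hs'.1]; exact hs'.2
    have h3 : ‖FF n 0 (e * s)‖ ≤ 1 + QQ n σ := by
      refine norm_complexMGF_le_mgf.trans (mgf_bound' 0 le_rfl one_pos σ hσ0 hσ1 _ ?_)
      rw [habs, abs_of_nonneg hs'.1]; exact hs'.2
    have hQ := QQ_nonneg (n := n) σ hσ0 hσ1
    rw [sub_mul, mul_assoc]
    refine (norm_sub_le _ _).trans ?_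
    rw [norm_mul, norm_mul (FF n 0 (e * s))]
    have h4 := mul_le_mul h2 h1.2 (norm_nonneg _) (by linarith)
    have h5 := mul_le_mul h3 h1.1 (norm_nonneg _) (by linarith)
    linarith
  have ha : ∀ z ∈ Complex.re ⁻¹' {(0 : ℝ)}, ‖hh n x (-Real.log (1 - y)) e z‖
      ≤ 2 * (x / y) ^ (n + 1) := fun z hz => hh_imag x y e he hx hxy hy z hz
  have hb : ∀ z ∈ Complex.re ⁻¹' {σ}, ‖hh n x (-Real.log (1 - y)) e z‖
      ≤ 2 * Real.exp (-Real.log (1 - y)) * QQ n σ := by
    intro z hz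
    have hz' : z.re = σ := hz
    simp only [hh]
    have h1 := norm_exp_le x y hx hxy hy z (by rw [hz', abs_of_pos hσ0]; linarith)
    have hre : ((e : ℂ) * z).re = σ ∨ ((e : ℂ) * z).re = -σ := by
      rw [hes, hz']
      rcases he with h | h <;> rw [h] <;> simp
    have h2 := FF_bound (n := n) (Real.sqrt x) hsx hx1 σ hσ0 hσ1 (e * z) hre
    have h3 := FF_bound (n := n) 0 le_rfl one_pos σ hσ0 hσ1 (e * z) hre
    have hQ := QQ_nonneg (n := n) σ hσ0 hσ1
    rw [sub_mul, mul_assoc]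
    refine (norm_sub_le _ _).trans ?_
    rw [norm_mul, norm_mul (FF n 0 (e * z))]
    have h4 := mul_le_mul h2 h1.2 (norm_nonneg _) hQ
    have h5 := mul_le_mul h3 h1.1 (norm_nonneg _) hQ
    linarith
  have h := Complex.HadamardThreeLines.norm_le_interp_of_mem_verticalClosedStrip' hσ0
    (show s ∈ Complex.HadamardThreeLines.verticalClosedStrip 0 σ from ⟨hs0, hs1⟩) hd hB ha hb
  simpa using h

/-- uniform estimate in the strip -/
theorem strip_bound (x0 y σ0 σ R : ℝ) (hx0 : 0 ≤ x0) (hxy : x0 < y) (hy : y < 1)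
    (hσ0 : 0 ≤ σ0) (hσ : σ0 < σ) (hσ1 : σ < 1) (hA : 2 * (x0 / y) ^ (n + 1) ≤ 1)
    (x : ℝ) (hx : 0 ≤ x) (hxx : x ≤ x0) (s : ℂ) (hs : |s.re| ≤ σ0) (hR : ‖s‖ ≤ R) :
    ‖FF n (Real.sqrt x) s - FF n 0 s * Complex.exp (s ^ 2 * (Real.log (1 - x) : ℝ))‖
      ≤ Real.exp (-Real.log (1 - y) * R ^ 2) * ((2 * (x0 / y) ^ (n + 1)) ^ (1 - σ0 / σ)
        * (2 * Real.exp (-Real.log (1 - y)) * QQ n σ + 1)) := by
  have hσp : 0 < σ := lt_of_le_of_lt hσ0 hσ
  have hy0 : 0 < y := lt_of_le_of_lt hx0 hxy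
  have hQ := QQ_nonneg (n := n) σ hσp hσ1
  have hC : 0 ≤ -Real.log (1 - y) := by
    have := Real.log_nonpos (show (0:ℝ) ≤ 1 - y by linarith) (by linarith); linarith
  -- choose the sign
  obtain ⟨e, he, s', hes', hre', hre''⟩ : ∃ e : ℝ, (e = 1 ∨ e = -1) ∧ ∃ s' : ℂ, (e : ℂ) * s' = s ∧
      0 ≤ s'.re ∧ s'.re = |s.re| := by
    rcases le_or_gt 0 s.re with h | h
    · exact ⟨1, Or.inl rfl, s, by simp, h, (abs_of_nonneg h).symm⟩
    · refine ⟨-1, Or.inr rfl, -s, by simp, by simp [h.le], ?_⟩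
      rw [abs_of_neg h]; simp
  have hs2 : s' ^ 2 = s ^ 2 := by
    rw [← hes']
    rcases he with h | h <;> rw [h] <;> simp
  have h1 := three_lines (n := n) x y e σ he hx (lt_of_le_of_lt hxx hxy) hy hσp hσ1 s' hre'
    (by rw [hre'']; linarith)
  unfold hh at h1
  rw [hes', hs2, norm_mul] at h1
  set D := ‖FF n (Real.sqrt x) s - FF n 0 s * Complex.exp (s ^ 2 * (Real.log (1 - x) : ℝ))‖ with hD
  set r := s'.re / σ with hr
  have hr0 : 0 ≤ r := by positivity
  have hr1 : r ≤ σ0 / σ := by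
    rw [hr, hre'']
    gcongr
  have hr2 : σ0 / σ < 1 := by rw [div_lt_one hσp]; exact hσ
  have hA0 : 0 ≤ 2 * (x / y) ^ (n + 1) := by positivity
  have hA1 : 2 * (x / y) ^ (n + 1) ≤ 2 * (x0 / y) ^ (n + 1) := by gcongr
  have h2 : (2 * (x / y) ^ (n + 1)) ^ (1 - r) ≤ (2 * (x0 / y) ^ (n + 1)) ^ (1 - σ0 / σ) := by
    refine (Real.rpow_le_rpow hA0 hA1 (by linarith)).trans ?_
    rcases eq_or_lt_of_le (show 0 ≤ 2 * (x0 / y) ^ (n + 1) by positivity) with h | h
    · rw [← h, Real.zero_rpow (by linarith), Real.zero_rpow (by linarith)]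
    · exact Real.rpow_le_rpow_of_exponent_ge h hA (by linarith)
  have hB1 : (2 * Real.exp (-Real.log (1 - y)) * QQ n σ) ^ r
      ≤ 2 * Real.exp (-Real.log (1 - y)) * QQ n σ + 1 := by
    set B := 2 * Real.exp (-Real.log (1 - y)) * QQ n σ with hB
    have hBn : 0 ≤ B := by positivity
    calc B ^ r ≤ (B + 1) ^ r := Real.rpow_le_rpow hBn (by linarith) hr0
      _ ≤ (B + 1) ^ (1 : ℝ) := Real.rpow_le_rpow_of_exponent_le (by linarith) (by linarith)
      _ = B + 1 := Real.rpow_one _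
  have h3 : D * ‖Complex.exp ((-Real.log (1 - y) : ℝ) * s ^ 2)‖
      ≤ (2 * (x0 / y) ^ (n + 1)) ^ (1 - σ0 / σ)
        * (2 * Real.exp (-Real.log (1 - y)) * QQ n σ + 1) := by
    refine h1.trans ?_
    refine mul_le_mul h2 hB1 (by positivity) (by positivity)
  have h4 : Real.exp (-(-Real.log (1 - y) * R ^ 2))
      ≤ ‖Complex.exp ((-Real.log (1 - y) : ℝ) * s ^ 2)‖ := by
    rw [Complex.norm_exp]
    apply Real.exp_le_exp.2
    rw [Complex.re_ofReal_mul]
    have h5 : -(R ^ 2) ≤ (s ^ 2).re := by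
      have h6 := Complex.abs_re_le_norm (s ^ 2)
      rw [norm_pow] at h6
      have h7 : ‖s‖ ^ 2 ≤ R ^ 2 := pow_le_pow_left₀ (norm_nonneg _) hR 2
      have h8 := neg_abs_le (s ^ 2).re
      linarith
    nlinarith
  have hD0 : 0 ≤ D := norm_nonneg _
  have h5 : D * Real.exp (-(-Real.log (1 - y) * R ^ 2))
      ≤ (2 * (x0 / y) ^ (n + 1)) ^ (1 - σ0 / σ)
        * (2 * Real.exp (-Real.log (1 - y)) * QQ n σ + 1) :=
    (mul_le_mul_of_nonneg_left h4 hD0).trans h3
  rw [Real.exp_neg, ← div_eq_mul_inv, div_le_iff₀ (Real.exp_pos _)] at h5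
  linarith

end Pool.Agent.Q293.FH
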