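import Mathlib
import Pool.Agent.Q293.FH.Three

set_option linter.unusedSectionVars false

open MeasureTheory Complex Filter Topology

namespace Pool.Agent.Q293.FH

/-- the open strip -/
def Sp : Set ℂ := {s : ℂ | |s.re| < 1}

lemma isOpen_Sp : IsOpen Sp := isOpen_lt (Complex.continuous_re.abs) continuous_const

/-- elementary factor -/
noncomputable def aj (m : ℕ) (s : ℂ) : ℂ :=
  Complex.Gamma (m + s) * Complex.Gamma (m - s) / Complex.Gamma m ^ 2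

lemma ne_zero_of_strip (m : ℕ) (hm : 1 ≤ m) (s : ℂ) (hs : s ∈ Sp) :
    (m : ℂ) + s ≠ 0 ∧ (m : ℂ) - s ≠ 0 := by
  have hs' : |s.re| < 1 := hs
  have h1 := abs_lt.1 hs'
  have h2 : (1 : ℝ) ≤ m := by exact_mod_cast hm
  constructor
  · intro h
    have := congrArg Complex.re h
    simp at this
    linarith
  · intro h
    have := congrArg Complex.re h
    simp at this
    linarith

lemma aj_succ (m : ℕ) (hm : 1 ≤ m) (s : ℂ) (hs : s ∈ Sp) :
    aj (m + 1) s = aj m s * (1 - s ^ 2 / (m : ℂ) ^ 2) := by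
  obtain ⟨h1, h2⟩ := ne_zero_of_strip m hm s hs
  have hm0 : (m : ℂ) ≠ 0 := by exact_mod_cast (show m ≠ 0 by omega)
  have hG : Complex.Gamma (m : ℂ) ≠ 0 := by
    apply Complex.Gamma_ne_zero_of_re_pos
    simp
    omega
  unfold aj
  push_cast
  rw [show (m : ℂ) + 1 + s = (m + s) + 1 by ring, show (m : ℂ) + 1 - s = (m - s) + 1 by ring,
    Complex.Gamma_add_one _ h1, Complex.Gamma_add_one _ h2, Complex.Gamma_add_one _ hm0]
  field_simp
  ring

lemma Gamma_prod (s : ℂ) (hs : -1 < s.re) (n : ℕ) :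
    Complex.Gamma (n + 2 + s) = (∏ j ∈ Finset.range (n + 1), (1 + s + j)) * Complex.Gamma (1 + s) := by
  induction n with
  | zero =>
    have h : (1 + s : ℂ) ≠ 0 := by
      intro h
      have := congrArg Complex.re h
      simp at this
      linarith
    simp only [Nat.cast_zero, zero_add, Finset.prod_range_one, add_zero]
    rw [show (2 : ℂ) + s = (1 + s) + 1 by ring, Complex.Gamma_add_one _ h]
  | succ n ih =>
    have h : ((n : ℂ) + 2 + s) ≠ 0 := by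
      intro h
      have := congrArg Complex.re h
      simp at this
      have h2 : (0 : ℝ) ≤ n := Nat.cast_nonneg n
      linarith
    push_cast
    rw [show (n : ℂ) + 1 + 2 + s = ((n : ℂ) + 2 + s) + 1 by ring, Complex.Gamma_add_one _ h, ih,
      Finset.prod_range_succ (fun j : ℕ => (1 + s + (j : ℂ))) (n + 1)]
    push_cast
    ring

lemma gamma_ratio_tendsto (s : ℂ) (hs : -1 < s.re) :
    Tendsto (fun n : ℕ => (n : ℂ) ^ (1 + s) * (n.factorial : ℂ) / Complex.Gamma (n + 2 + s))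
      atTop (𝓝 1) := by
  have h := Complex.GammaSeq_tendsto_Gamma (1 + s)
  have hG : Complex.Gamma (1 + s) ≠ 0 := by
    apply Complex.Gamma_ne_zero_of_re_pos
    simp
    linarith
  have h2 := h.div_const (Complex.Gamma (1 + s))
  rw [div_self hG] at h2
  refine h2.congr fun n => ?_
  rw [Gamma_prod s hs n]
  unfold Complex.GammaSeq
  rw [div_div]

lemma aj_tendsto (s : ℂ) (hs : s ∈ Sp) : Tendsto (fun m : ℕ => aj m s) atTop (𝓝 1) := by
  have hs' : |s.re| < 1 := hs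
  have h1 := abs_lt.1 hs'
  have hA := gamma_ratio_tendsto s (by linarith)
  have hB := gamma_ratio_tendsto (-s) (by simp; linarith)
  have hAB := hA.mul hB
  have hC : Tendsto (fun n : ℕ => (((n : ℝ) / (n + 1) : ℝ) : ℂ) ^ 2) atTop (𝓝 ((1 : ℂ) ^ 2)) := by
    refine Tendsto.pow ?_ 2
    have := tendsto_natCast_div_add_atTop (𝕜 := ℝ) (1 : ℝ)
    exact (Complex.continuous_ofReal.tendsto 1).comp this
  have hD := hC.mul (hAB.inv₀ (by norm_num))
  simp only [mul_one, one_pow, inv_one] at hD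
  rw [← tendsto_add_atTop_iff_nat 2]
  refine hD.congr' ?_
  filter_upwards [eventually_ge_atTop 1] with n hn
  have hn0 : (n : ℂ) ≠ 0 := by exact_mod_cast (show n ≠ 0 by omega)
  have hn1 : ((n : ℂ) + 1) ≠ 0 := by exact_mod_cast Nat.succ_ne_zero n
  have hf : (n.factorial : ℂ) ≠ 0 := by exact_mod_cast n.factorial_ne_zero
  have e1 : (n : ℂ) ^ (1 + s) * (n : ℂ) ^ (1 + -s) = (n : ℂ) ^ 2 := by
    rw [← Complex.cpow_add _ _ hn0]
    rw [show (1 + s + (1 + -s) : ℂ) = ((2 : ℕ) : ℂ) by push_cast; ring, Complex.cpow_natCast]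
  have e2 : Complex.Gamma ((n + 2 : ℕ) : ℂ) = ((n : ℂ) + 1) * (n.factorial : ℂ) := by
    have := Complex.Gamma_nat_eq_factorial (n + 1)
    push_cast at this ⊢
    rw [show (n : ℂ) + 2 = n + 1 + 1 by ring, this, Nat.factorial_succ]
    push_cast
    ring
  unfold aj
  rw [e2]
  push_cast
  rw [show (n : ℂ) + 2 + -s = (n : ℂ) + 2 - s by ring]
  rw [show (n : ℂ) ^ (1 + s) * (n.factorial : ℂ) / Complex.Gamma (n + 2 + s)
      * ((n : ℂ) ^ (1 + -s) * (n.factorial : ℂ) / Complex.Gamma (n + 2 - s))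
      = (n : ℂ) ^ 2 * (n.factorial : ℂ) ^ 2 / (Complex.Gamma (n + 2 + s)
        * Complex.Gamma (n + 2 - s)) by
    rw [← e1]; ring]
  rw [inv_div]
  field_simp

/-- correction of consecutive factors -/
noncomputable def ep (k : ℕ) (s : ℂ) : ℂ :=
  (1 - s ^ 2 / (k : ℂ) ^ 2) * Complex.exp (-s ^ 2 * (Real.log (1 - 1 / (k : ℝ) ^ 2) : ℝ)) - 1

/-- the constant in the estimates -/
noncomputable def CR (R : ℝ) : ℝ := 2 * R ^ 2 + 2 * R ^ 4 + (1 + R ^ 2) * (4 * R ^ 4)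

lemma CR_nonneg (R : ℝ) : 0 ≤ CR R := by unfold CR; positivity

lemma ep_bound (R : ℝ) (k : ℕ) (hk : 2 ≤ k) (hR : 2 * R ^ 2 ≤ (k : ℝ) ^ 2) (s : ℂ)
    (hs : ‖s‖ ≤ R) : ‖ep k s‖ ≤ CR R * (1 / (k : ℝ) ^ 2) ^ 2 := by
  set δ : ℝ := 1 / (k : ℝ) ^ 2 with hδ
  have hk0 : (0 : ℝ) < (k : ℝ) ^ 2 := by positivity
  have hk4 : (4 : ℝ) ≤ (k : ℝ) ^ 2 := by
    have : (2 : ℝ) ≤ k := by exact_mod_cast hk
    nlinarith
  have hδ0 : 0 < δ := by positivity
  have hδ1 : δ ≤ 1 / 4 := by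
    rw [hδ]
    exact one_div_le_one_div_of_le (by norm_num) hk4
  have hRδ : R ^ 2 * (2 * δ) ≤ 1 := by
    rw [hδ]
    rw [show R ^ 2 * (2 * (1 / (k : ℝ) ^ 2)) = (2 * R ^ 2) / (k : ℝ) ^ 2 by ring]
    rw [div_le_one hk0]
    exact hR
  set w : ℝ := -Real.log (1 - δ) with hw
  have h1 := Real.abs_log_sub_add_sum_range_le (x := δ) (by rw [abs_of_pos hδ0]; linarith) 1
  simp only [Finset.sum_range_one, zero_add, pow_one, Nat.cast_zero, div_one] at h1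
  rw [abs_of_pos hδ0] at h1
  have h2 : |w - δ| ≤ 2 * δ ^ 2 := by
    have e : w - δ = -(δ + Real.log (1 - δ)) := by rw [hw]; ring
    rw [e, abs_neg]
    refine h1.trans ?_
    rw [div_le_iff₀ (by linarith)]
    have h9 : 0 ≤ δ ^ 2 * (1 - 2 * δ) := mul_nonneg (sq_nonneg δ) (by linarith)
    have h10 : δ ^ (1 + 1) = δ ^ 2 := rfl
    rw [h10]
    nlinarith
  have hw1 : |w| ≤ 2 * δ := by
    have : |w| ≤ |w - δ| + |δ| := by
      have := abs_add_le (w - δ) δ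
      simpa using this
    rw [abs_of_pos hδ0] at this
    nlinarith
  have hR0 : 0 ≤ R := (norm_nonneg s).trans hs
  have hs2 : ‖s ^ 2‖ ≤ R ^ 2 := by
    rw [norm_pow]; exact pow_le_pow_left₀ (norm_nonneg _) hs 2
  set E : ℂ := Complex.exp (s ^ 2 * w) - 1 - s ^ 2 * w with hE
  have hsw : ‖s ^ 2 * (w : ℂ)‖ ≤ R ^ 2 * (2 * δ) := by
    rw [norm_mul, Complex.norm_real, Real.norm_eq_abs]
    exact mul_le_mul hs2 hw1 (abs_nonneg _) (by positivity)
  have hE1 : ‖E‖ ≤ 4 * R ^ 4 * δ ^ 2 := by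
    refine (Complex.norm_exp_sub_one_sub_id_le (hsw.trans hRδ)).trans ?_
    calc ‖s ^ 2 * (w : ℂ)‖ ^ 2 ≤ (R ^ 2 * (2 * δ)) ^ 2 := pow_le_pow_left₀ (norm_nonneg _) hsw 2
      _ = _ := by ring
  have hep : ep k s = s ^ 2 * ((w - δ : ℝ) : ℂ) - s ^ 2 * (δ : ℂ) * (s ^ 2 * w)
      + (1 - s ^ 2 * (δ : ℂ)) * E := by
    unfold ep
    have e1 : s ^ 2 / (k : ℂ) ^ 2 = s ^ 2 * (δ : ℂ) := by
      rw [hδ]; push_cast; ring
    have e2 : -s ^ 2 * ((Real.log (1 - 1 / (k : ℝ) ^ 2) : ℝ) : ℂ) = s ^ 2 * (w : ℂ) := by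
      rw [hw, hδ]; push_cast; ring
    rw [e1, e2, hE]
    push_cast
    ring
  rw [hep]
  have n1 : ‖s ^ 2 * ((w - δ : ℝ) : ℂ)‖ ≤ R ^ 2 * (2 * δ ^ 2) := by
    rw [norm_mul, Complex.norm_real, Real.norm_eq_abs]
    exact mul_le_mul hs2 h2 (abs_nonneg _) (by positivity)
  have n0 : ‖s ^ 2 * (δ : ℂ)‖ ≤ R ^ 2 * δ := by
    rw [norm_mul, Complex.norm_real, Real.norm_eq_abs, abs_of_pos hδ0]
    exact mul_le_mul_of_nonneg_right hs2 hδ0.le
  have n2 : ‖s ^ 2 * (δ : ℂ) * (s ^ 2 * w)‖ ≤ R ^ 2 * δ * (R ^ 2 * (2 * δ)) := by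
    rw [norm_mul]
    exact mul_le_mul n0 hsw (norm_nonneg _) (by positivity)
  have n3 : ‖(1 - s ^ 2 * (δ : ℂ)) * E‖ ≤ (1 + R ^ 2) * (4 * R ^ 4 * δ ^ 2) := by
    rw [norm_mul]
    refine mul_le_mul ?_ hE1 (norm_nonneg _) (by positivity)
    refine (norm_sub_le _ _).trans ?_
    rw [norm_one]
    have : R ^ 2 * δ ≤ R ^ 2 * 1 := mul_le_mul_of_nonneg_left (by linarith) (by positivity)
    linarith
  refine (norm_add_le _ _).trans ?_
  have n4 := norm_sub_le (s ^ 2 * ((w - δ : ℝ) : ℂ)) (s ^ 2 * (δ : ℂ) * (s ^ 2 * w))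
  unfold CR
  nlinarith

/-- normalised factor -/
noncomputable def ej (m : ℕ) (s : ℂ) : ℂ :=
  aj (m + 1) s * Complex.exp (-s ^ 2 * (Real.log (((m : ℝ) + 1) / m) : ℝ))

lemma ej_succ (m : ℕ) (hm : 1 ≤ m) (s : ℂ) (hs : s ∈ Sp) :
    ej (m + 1) s = ej m s * (1 + ep (m + 1) s) := by
  unfold ej ep
  rw [aj_succ (m + 1) (by omega) s hs]
  have hm0 : (0 : ℝ) < m := by exact_mod_cast (show 0 < m by omega)
  have h1 : Real.log (((m + 1 : ℕ) : ℝ) + 1) / ((m + 1 : ℕ) : ℝ)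
      = Real.log (((m + 1 : ℕ) : ℝ) + 1) / ((m + 1 : ℕ) : ℝ) := rfl
  have h2 : Real.log ((((m + 1 : ℕ) : ℝ) + 1) / ((m + 1 : ℕ) : ℝ))
      = Real.log (((m : ℝ) + 1) / m) + Real.log (1 - 1 / ((m + 1 : ℕ) : ℝ) ^ 2) := by
    rw [← Real.log_mul (by positivity)]
    · congr 1
      push_cast
      field_simp
      ring
    · have : (1 : ℝ) < ((m + 1 : ℕ) : ℝ) ^ 2 := by
        push_cast
        nlinarith
      have h3 : 1 / ((m + 1 : ℕ) : ℝ) ^ 2 < 1 := by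
        rw [div_lt_one (by positivity)]; exact this
      linarith
  rw [h2]
  push_cast
  rw [mul_add, Complex.exp_add]
  ring

lemma ej_tendsto (s : ℂ) (hs : s ∈ Sp) : Tendsto (fun m : ℕ => ej m s) atTop (𝓝 1) := by
  have h1 := (tendsto_add_atTop_iff_nat 1).2 (aj_tendsto s hs)
  have h2 : Tendsto (fun m : ℕ => Real.log (((m : ℝ) + 1) / m)) atTop (𝓝 0) := by
    have h3 : Tendsto (fun m : ℕ => ((m : ℝ) + 1) / m) atTop (𝓝 1) := by
      have h4 := (tendsto_natCast_div_add_atTop (𝕜 := ℝ) (1 : ℝ)).inv₀ one_ne_zero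
      rw [inv_one] at h4
      refine h4.congr fun m => ?_
      rw [inv_div]
    have h5 := (Real.continuousAt_log one_ne_zero).tendsto.comp h3
    rw [Real.log_one] at h5
    exact h5
  have h6 : Tendsto (fun m : ℕ => Complex.exp (-s ^ 2 * (Real.log (((m : ℝ) + 1) / m) : ℝ)))
      atTop (𝓝 1) := by
    have h7 : Tendsto (fun m : ℕ => -s ^ 2 * ((Real.log (((m : ℝ) + 1) / m) : ℝ) : ℂ)) atTop
        (𝓝 (-s ^ 2 * ((0 : ℝ) : ℂ))) :=
      ((Complex.continuous_ofReal.tendsto 0).comp h2).const_mul _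
    have h8 : Tendsto (fun m : ℕ => Complex.exp (-s ^ 2 * ((Real.log (((m : ℝ) + 1) / m) : ℝ) : ℂ)))
        atTop (𝓝 (Complex.exp (-s ^ 2 * ((0 : ℝ) : ℂ)))) :=
      (Complex.continuous_exp.tendsto _).comp h7
    simpa using h8
  have h9 := h1.mul h6
  rw [mul_one] at h9
  exact h9

lemma sum_inv_sq (m M : ℕ) (hm : 1 ≤ m) (hM : m ≤ M) :
    ∑ k ∈ Finset.Ico m M, (1 : ℝ) / ((k : ℝ) + 1) ^ 2 ≤ (1 : ℝ) / (m : ℝ) := by
  have h1 := sum_Ioc_inv_sq_le_sub (α := ℝ) (show m ≠ 0 by omega) hM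
  have h2 : ∑ k ∈ Finset.Ico m M, (1 : ℝ) / ((k : ℝ) + 1) ^ 2
      = ∑ i ∈ Finset.Ioc m M, ((i : ℝ) ^ 2)⁻¹ := by
    refine Finset.sum_bij (fun k _ => k + 1) ?_ ?_ ?_ ?_
    · intro k hk
      rw [Finset.mem_Ico] at hk
      rw [Finset.mem_Ioc]
      omega
    · intro a _ b _ h
      omega
    · intro b hb
      rw [Finset.mem_Ioc] at hb
      exact ⟨b - 1, Finset.mem_Ico.2 (by omega), by omega⟩
    · intro k _
      push_cast
      rw [one_div]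
  rw [h2]
  have h3 : (0 : ℝ) ≤ ((M : ℝ))⁻¹ := by positivity
  rw [one_div]
  linarith

lemma exp_sub_one_le (x : ℝ) (h0 : 0 ≤ x) (h1 : x ≤ 1) : Real.exp x - 1 ≤ 2 * x := by
  have := Real.abs_exp_sub_one_le (x := x) (by rw [abs_of_nonneg h0]; exact h1)
  rw [abs_of_nonneg h0] at this
  exact (le_abs_self _).trans this

lemma ej_prod (m M : ℕ) (hm : 1 ≤ m) (hM : m ≤ M) (s : ℂ) (hs : s ∈ Sp) :
    ej M s = ej m s * ∏ k ∈ Finset.Ico m M, (1 + ep (k + 1) s) := by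
  induction M, hM using Nat.le_induction with
  | base => simp
  | succ M hM ih =>
    rw [ej_succ M (by omega) s hs, ih, Finset.prod_Ico_succ_top hM]
    ring

lemma ej_bound (R : ℝ) (m : ℕ) (hm : 1 ≤ m) (hR : 2 * R ^ 2 ≤ ((m : ℝ) + 1) ^ 2)
    (hC : 4 * CR R ≤ ((m : ℝ) + 1) ^ 2) (s : ℂ) (hs : s ∈ Sp) (hsR : ‖s‖ ≤ R) :
    ‖ej m s - 1‖ ≤ 4 * CR R / ((m : ℝ) + 1) ^ 2 := by
  have hCn := CR_nonneg R
  have hm0 : (0 : ℝ) < ((m : ℝ) + 1) ^ 2 := by positivity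
  set q : ℝ := Real.exp (CR R / ((m : ℝ) + 1) ^ 2) - 1 with hq
  have hx1 : CR R / ((m : ℝ) + 1) ^ 2 ≤ 1 / 4 := by
    rw [div_le_iff₀ hm0]; linarith
  have hx0 : 0 ≤ CR R / ((m : ℝ) + 1) ^ 2 := by positivity
  have hq1 : q ≤ 2 * (CR R / ((m : ℝ) + 1) ^ 2) := exp_sub_one_le _ hx0 (by linarith)
  have hq0 : 0 ≤ q := by
    rw [hq]; linarith [Real.add_one_le_exp (CR R / ((m : ℝ) + 1) ^ 2)]
  have hprod : ∀ M, m ≤ M → ‖ej M s - ej m s‖ ≤ ‖ej m s‖ * q := by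
    intro M hM
    rw [ej_prod m M hm hM s hs]
    have e : ej m s * ∏ k ∈ Finset.Ico m M, (1 + ep (k + 1) s) - ej m s
        = ej m s * (∏ k ∈ Finset.Ico m M, (1 + ep (k + 1) s) - 1) := by ring
    rw [e, norm_mul]
    refine mul_le_mul_of_nonneg_left ?_ (norm_nonneg _)
    refine (Finset.norm_prod_one_add_sub_one_le _ _).trans ?_
    rw [hq]
    have h1 : ∑ k ∈ Finset.Ico m M, ‖ep (k + 1) s‖ ≤ CR R / ((m : ℝ) + 1) ^ 2 := by
      have h2 : ∀ k ∈ Finset.Ico m M, ‖ep (k + 1) s‖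
          ≤ CR R / ((m : ℝ) + 1) ^ 2 * (1 / ((k : ℝ) + 1) ^ 2) := by
        intro k hk
        rw [Finset.mem_Ico] at hk
        have hkm : (m : ℝ) ≤ k := by exact_mod_cast hk.1
        have h3 := ep_bound R (k + 1) (by omega) (by
          push_cast
          nlinarith [show (0 : ℝ) ≤ m from Nat.cast_nonneg m]) s hsR
        refine h3.trans ?_
        push_cast
        have h4 : (1 / ((k : ℝ) + 1) ^ 2) ^ 2 ≤ 1 / ((m : ℝ) + 1) ^ 2 * (1 / ((k : ℝ) + 1) ^ 2) := by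
          rw [sq]
          refine mul_le_mul_of_nonneg_right ?_ (by positivity)
          apply one_div_le_one_div_of_le hm0
          gcongr
        calc CR R * (1 / ((k : ℝ) + 1) ^ 2) ^ 2
            ≤ CR R * (1 / ((m : ℝ) + 1) ^ 2 * (1 / ((k : ℝ) + 1) ^ 2)) :=
              mul_le_mul_of_nonneg_left h4 hCn
          _ = _ := by ring
      refine (Finset.sum_le_sum h2).trans ?_
      rw [← Finset.mul_sum]
      have h5 := sum_inv_sq m M hm hM
      have h6 : (1 : ℝ) / m ≤ 1 := by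
        rw [div_le_one (by exact_mod_cast (show 0 < m by omega))]
        exact_mod_cast hm
      calc CR R / ((m : ℝ) + 1) ^ 2 * ∑ k ∈ Finset.Ico m M, 1 / ((k : ℝ) + 1) ^ 2
          ≤ CR R / ((m : ℝ) + 1) ^ 2 * 1 :=
            mul_le_mul_of_nonneg_left (h5.trans h6) hx0
        _ = _ := mul_one _
    linarith [Real.exp_le_exp.2 h1]
  have hlim : ‖1 - ej m s‖ ≤ ‖ej m s‖ * q := by
    have h1 : Tendsto (fun M : ℕ => ‖ej M s - ej m s‖) atTop (𝓝 ‖1 - ej m s‖) :=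
      ((ej_tendsto s hs).sub_const _).norm
    refine le_of_tendsto h1 ?_
    filter_upwards [eventually_ge_atTop m] with M hM
    exact hprod M hM
  have hn : ‖ej m s‖ ≤ 2 := by
    have h1 : ‖ej m s‖ ≤ 1 + ‖1 - ej m s‖ := by
      have := norm_sub_le (1 : ℂ) (1 - ej m s)
      rw [norm_one] at this
      simpa using this
    have h2 : ‖ej m s‖ * q ≤ ‖ej m s‖ * (1 / 2) :=
      mul_le_mul_of_nonneg_left (by linarith) (norm_nonneg _)
    linarith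
  rw [norm_sub_rev]
  refine hlim.trans ?_
  calc ‖ej m s‖ * q ≤ 2 * (2 * (CR R / ((m : ℝ) + 1) ^ 2)) :=
        mul_le_mul hn hq1 hq0 (by norm_num)
    _ = _ := by ring

end Pool.Agent.Q293.FH
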