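import Mathlib
import Pool.Agent.Q293.FH.Gam

set_option linter.unusedSectionVars false

open MeasureTheory Complex Filter Topology

namespace Pool.Agent.Q293.FH

/-- the moment at the origin -/
noncomputable def Lam (n : ℕ) (s : ℂ) : ℂ := ∏ j ∈ Finset.range n, aj (j + 1) s

/-- normalised moment at the origin -/
noncomputable def rn (n : ℕ) (s : ℂ) : ℂ := Lam n s * Complex.exp (-s ^ 2 * (Real.log n : ℝ))

lemma rn_succ (n : ℕ) (hn : 1 ≤ n) (s : ℂ) : rn (n + 1) s = rn n s * ej n s := by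
  unfold rn ej Lam
  rw [Finset.prod_range_succ]
  have hn0 : (0 : ℝ) < n := by exact_mod_cast (show 0 < n by omega)
  have h2 : Real.log ((n + 1 : ℕ) : ℝ) = Real.log n + Real.log (((n : ℝ) + 1) / n) := by
    rw [← Real.log_mul hn0.ne' (by positivity)]
    congr 1
    push_cast
    field_simp
  rw [h2]
  push_cast
  rw [mul_add, Complex.exp_add]
  ring

lemma rn_prod (N M : ℕ) (hN : 1 ≤ N) (hM : N ≤ M) (s : ℂ) :
    rn M s = rn N s * ∏ m ∈ Finset.Ico N M, ej m s := by
  induction M, hM using Nat.le_induction with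
  | base => simp
  | succ M hM ih =>
    rw [rn_succ M (by omega) s, ih, Finset.prod_Ico_succ_top hM]
    ring

lemma aj_diff (m : ℕ) (hm : 1 ≤ m) (s : ℂ) (hs : s ∈ Sp) : DifferentiableAt ℂ (aj m) s := by
  have hs' : |s.re| < 1 := hs
  have h1 := abs_lt.1 hs'
  have h2 : (1 : ℝ) ≤ m := by exact_mod_cast hm
  have hA : DifferentiableAt ℂ Complex.Gamma ((m : ℂ) + s) := by
    apply Complex.differentiableAt_Gamma
    intro k h
    have := congrArg Complex.re h
    simp at this
    have hk : (0 : ℝ) ≤ k := Nat.cast_nonneg k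
    linarith
  have hB : DifferentiableAt ℂ Complex.Gamma ((m : ℂ) - s) := by
    apply Complex.differentiableAt_Gamma
    intro k h
    have := congrArg Complex.re h
    simp at this
    have hk : (0 : ℝ) ≤ k := Nat.cast_nonneg k
    linarith
  have hA' : DifferentiableAt ℂ (fun s : ℂ => Complex.Gamma ((m : ℂ) + s)) s :=
    hA.comp s (by fun_prop)
  have hB' : DifferentiableAt ℂ (fun s : ℂ => Complex.Gamma ((m : ℂ) - s)) s :=
    hB.comp s (by fun_prop)
  unfold aj
  exact (hA'.mul hB').div_const _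

lemma Lam_diff (n : ℕ) (s : ℂ) (hs : s ∈ Sp) : DifferentiableAt ℂ (Lam n) s := by
  unfold Lam
  apply DifferentiableAt.fun_finsetProd
  intro j _
  exact aj_diff (j + 1) (by omega) s hs

lemma rn_diff (n : ℕ) (s : ℂ) (hs : s ∈ Sp) : DifferentiableAt ℂ (rn n) s := by
  unfold rn
  exact (Lam_diff n s hs).mul (by fun_prop)

lemma compact_data (K : Set ℂ) (hK : IsCompact K) : ∃ R : ℝ, 0 ≤ R ∧ ∀ s ∈ K, ‖s‖ ≤ R := by
  obtain ⟨R, hR⟩ := hK.isBounded.exists_norm_le
  exact ⟨max R 0, le_max_right _ _, fun s hs => (hR s hs).trans (le_max_left _ _)⟩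

lemma rn_cauchy (K : Set ℂ) (hK : IsCompact K) (hKS : K ⊆ Sp) :
    UniformCauchySeqOn (fun n s => rn n s) atTop K := by
  obtain ⟨R, hR0, hR⟩ := compact_data K hK
  set C := CR R with hC
  have hCn : 0 ≤ C := CR_nonneg R
  obtain ⟨N0, hN0⟩ := exists_nat_ge (max (max (2 * R ^ 2) (4 * C)) 1)
  have hN1 : (1 : ℝ) ≤ N0 := (le_max_right _ _).trans hN0
  have hN1' : 1 ≤ N0 := by exact_mod_cast hN1
  have hN2 : 2 * R ^ 2 ≤ N0 := ((le_max_left _ _).trans (le_max_left _ _)).trans hN0
  have hN3 : 4 * C ≤ N0 := ((le_max_right _ _).trans (le_max_left _ _)).trans hN0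
  have hprod : ∀ N M, N0 ≤ N → N ≤ M → ∀ s ∈ K,
      ‖∏ m ∈ Finset.Ico N M, ej m s - 1‖ ≤ Real.exp (4 * C * (1 / N)) - 1 := by
    intro N M hN hM s hs
    have e : ∏ m ∈ Finset.Ico N M, ej m s = ∏ m ∈ Finset.Ico N M, (1 + (ej m s - 1)) :=
      Finset.prod_congr rfl fun m _ => by ring
    rw [e]
    refine (Finset.norm_prod_one_add_sub_one_le _ _).trans ?_
    have h1 : ∑ m ∈ Finset.Ico N M, ‖ej m s - 1‖ ≤ 4 * C * (1 / N) := by
      have h2 : ∀ m ∈ Finset.Ico N M, ‖ej m s - 1‖ ≤ 4 * C * (1 / ((m : ℝ) + 1) ^ 2) := by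
        intro m hm
        rw [Finset.mem_Ico] at hm
        have hmN : (N0 : ℝ) ≤ m := by exact_mod_cast (show N0 ≤ m by omega)
        have h3 := ej_bound R m (by omega) (by nlinarith) (by nlinarith) s (hKS hs) (hR s hs)
        refine h3.trans (le_of_eq ?_)
        ring
      refine (Finset.sum_le_sum h2).trans ?_
      rw [← Finset.mul_sum]
      exact mul_le_mul_of_nonneg_left (sum_inv_sq N M (by omega) hM) (by positivity)
    linarith [Real.exp_le_exp.2 h1]
  have hcont : ContinuousOn (fun s => ‖rn N0 s‖) K := fun s hs =>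
    ((rn_diff N0 s (hKS hs)).continuousAt.norm).continuousWithinAt
  obtain ⟨B0, hB0⟩ := (hK.bddAbove_image hcont)
  have hB : ∀ s ∈ K, ‖rn N0 s‖ ≤ max B0 0 := fun s hs =>
    (hB0 (Set.mem_image_of_mem _ hs)).trans (le_max_left _ _)
  set B := max B0 0 with hBdef
  have hBn : 0 ≤ B := le_max_right _ _
  have hbd : ∀ N, N0 ≤ N → ∀ s ∈ K, ‖rn N s‖ ≤ B * Real.exp (4 * C) := by
    intro N hN s hs
    rw [rn_prod N0 N hN1' hN s, norm_mul]
    refine mul_le_mul (hB s hs) ?_ (norm_nonneg _) hBn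
    have h1 := hprod N0 N le_rfl hN s hs
    have h2 : ‖∏ m ∈ Finset.Ico N0 N, ej m s‖ ≤ 1 + ‖∏ m ∈ Finset.Ico N0 N, ej m s - 1‖ := by
      have := norm_add_le (1 : ℂ) (∏ m ∈ Finset.Ico N0 N, ej m s - 1)
      rw [norm_one] at this
      simpa using this
    have h3 : Real.exp (4 * C * (1 / N0)) ≤ Real.exp (4 * C) := by
      apply Real.exp_le_exp.2
      have : (1 : ℝ) / N0 ≤ 1 := by rw [div_le_one (by linarith)]; exact hN1
      nlinarith
    linarith
  rw [Metric.uniformCauchySeqOn_iff]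
  intro ε hε
  have hlim : Tendsto (fun N : ℕ => B * Real.exp (4 * C) * (Real.exp (4 * C * (1 / (N : ℝ))) - 1))
      atTop (𝓝 0) := by
    have h1 : Tendsto (fun N : ℕ => 4 * C * (1 / (N : ℝ))) atTop (𝓝 (4 * C * 0)) :=
      (tendsto_one_div_atTop_nhds_zero_nat).const_mul _
    have h2 := ((Real.continuous_exp.tendsto _).comp h1).sub_const 1
    rw [mul_zero, Real.exp_zero, sub_self] at h2
    have h3 := h2.const_mul (B * Real.exp (4 * C))
    rw [mul_zero] at h3
    exact h3
  obtain ⟨N1, hN1e⟩ := (hlim.eventually (gt_mem_nhds (half_pos hε))).exists_forall_of_atTop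
  refine ⟨max N0 N1, fun M hM M' hM' s hs => ?_⟩
  have hstep : ∀ L, max N0 N1 ≤ L → dist (rn L s) (rn (max N0 N1) s) < ε / 2 := by
    intro L hL
    rw [dist_eq_norm, rn_prod (max N0 N1) L (hN1'.trans (le_max_left _ _)) hL s]
    have e : rn (max N0 N1) s * ∏ m ∈ Finset.Ico (max N0 N1) L, ej m s - rn (max N0 N1) s
        = rn (max N0 N1) s * (∏ m ∈ Finset.Ico (max N0 N1) L, ej m s - 1) := by ring
    rw [e, norm_mul]
    refine lt_of_le_of_lt (mul_le_mul (hbd _ (le_max_left _ _) s hs)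
      (hprod _ L (le_max_left _ _) hL s hs) (norm_nonneg _) (by positivity)) ?_
    exact hN1e _ (le_max_right _ _)
  calc dist (rn M s) (rn M' s) ≤ dist (rn M s) (rn (max N0 N1) s)
        + dist (rn M' s) (rn (max N0 N1) s) := dist_triangle_right _ _ _
    _ < ε / 2 + ε / 2 := add_lt_add (hstep M hM) (hstep M' hM')
    _ = ε := by ring

/-- the limit of the normalised moments -/
noncomputable def rl (s : ℂ) : ℂ := limUnder atTop (fun n => rn n s)

lemma rn_tendsto (s : ℂ) (hs : s ∈ Sp) : Tendsto (fun n => rn n s) atTop (𝓝 (rl s)) := by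
  have h := rn_cauchy {s} isCompact_singleton (by simpa using hs)
  have h2 : CauchySeq (fun n => rn n s) := h.cauchySeq (Set.mem_singleton s)
  exact h2.tendsto_limUnder

lemma rn_unif (K : Set ℂ) (hK : IsCompact K) (hKS : K ⊆ Sp) :
    TendstoUniformlyOn (fun n s => rn n s) rl atTop K :=
  (rn_cauchy K hK hKS).tendstoUniformlyOn_of_tendsto fun s hs => rn_tendsto s (hKS hs)

lemma rl_diff : DifferentiableOn ℂ rl Sp := by
  have h : TendstoLocallyUniformlyOn (fun n s => rn n s) rl atTop Sp := by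
    rw [tendstoLocallyUniformlyOn_iff_forall_isCompact isOpen_Sp]
    intro K hKS hK
    exact rn_unif K hK hKS
  exact h.differentiableOn (Eventually.of_forall fun n s hs =>
    (rn_diff n s hs).differentiableWithinAt) isOpen_Sp

end Pool.Agent.Q293.FH
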