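import Mathlib
import Pool.Agent.Q293.FH.Three
import Pool.Agent.Q293.FH.Lim

set_option linter.unusedSectionVars false

open MeasureTheory Complex ProbabilityTheory Filter Topology

namespace Pool.Agent.Q293.FH

variable {n : ℕ}

lemma integrable_ld (α : ℝ) (hα : -1 < α) :
    Integrable (fun v : Ix n → ℂ => Real.exp (α * (2 * ld v))) (gam (Ix n)) := by
  refine integrable_of_lint _ (Real.measurable_exp.comp ((measurable_ld.const_mul 2).const_mul α))
    (fun p => (Real.exp_pos _).le) (Mr n α) (le_of_eq ?_)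
  rw [← lint_ld α hα]
  refine lintegral_congr fun v => ?_
  congr 2
  ring

lemma mgf_ld (α : ℝ) (hα : -1 < α) :
    mgf (fun v : Ix n → ℂ => 2 * ld v) (gam (Ix n)) α = Mr n α := by
  unfold mgf
  have h1 := ofReal_integral_eq_lintegral_ofReal (integrable_ld (n := n) α hα)
    (Filter.Eventually.of_forall fun p => (Real.exp_pos _).le)
  have h2 : ∫⁻ v : Ix n → ℂ, ENNReal.ofReal (Real.exp (α * (2 * ld v))) ∂(gam (Ix n))
      = ENNReal.ofReal (Mr n α) := by
    rw [← lint_ld α hα]
    refine lintegral_congr fun v => ?_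
    congr 2
    ring
  rw [h2] at h1
  have h3 : 0 ≤ ∫ v : Ix n → ℂ, Real.exp (α * (2 * ld v)) ∂(gam (Ix n)) :=
    integral_nonneg fun v => (Real.exp_pos _).le
  exact (ENNReal.ofReal_eq_ofReal_iff h3 (Mr_pos n α hα).le).1 h1

/-- complex moments -/
noncomputable def Mc (n : ℕ) (s : ℂ) : ℂ :=
  ∏ j ∈ Finset.range n, Complex.Gamma (j + 1 + s) / Complex.Gamma (j + 1)

lemma Mc_ofReal (α : ℝ) : Mc n (α : ℂ) = (Mr n α : ℂ) := by
  unfold Mc Mr
  push_cast
  refine Finset.prod_congr rfl fun j _ => ?_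
  rw [← Complex.Gamma_ofReal, ← Complex.Gamma_ofReal]
  push_cast
  rfl

lemma isOpen_half : IsOpen {s : ℂ | -1 < s.re} := isOpen_lt continuous_const Complex.continuous_re

lemma Mc_diff (s : ℂ) (hs : -1 < s.re) : DifferentiableAt ℂ (Mc n) s := by
  unfold Mc
  apply DifferentiableAt.fun_finsetProd
  intro j _
  have hA : DifferentiableAt ℂ Complex.Gamma ((j : ℂ) + 1 + s) := by
    apply Complex.differentiableAt_Gamma
    intro k h
    have := congrArg Complex.re h
    simp at this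
    have hk : (0 : ℝ) ≤ k := Nat.cast_nonneg k
    have hj : (0 : ℝ) ≤ j := Nat.cast_nonneg j
    linarith
  have hA' : DifferentiableAt ℂ (fun s : ℂ => Complex.Gamma ((j : ℂ) + 1 + s)) s :=
    hA.comp s (by fun_prop)
  exact hA'.div_const _

lemma frequently_real (U : Set ℂ) (hU : (0 : ℂ) ∈ U) (f g : ℂ → ℂ)
    (h : ∀ x : ℝ, 0 < x → x < 1 → f x = g x) : ∃ᶠ z in 𝓝[≠] (0 : ℂ), f z = g z := by
  have h1 : Tendsto (fun k : ℕ => (((1 / ((k : ℝ) + 2) : ℝ)) : ℂ)) atTop (𝓝[≠] (0 : ℂ)) := by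
    rw [tendsto_nhdsWithin_iff]
    constructor
    · have h2 : Tendsto (fun k : ℕ => (1 / ((k : ℝ) + 2) : ℝ)) atTop (𝓝 0) := by
        have := (tendsto_one_div_atTop_nhds_zero_nat (𝕜 := ℝ)).comp (tendsto_add_atTop_nat 2)
        refine this.congr fun k => ?_
        simp
      have h3 := (Complex.continuous_ofReal.tendsto 0).comp h2
      rw [Complex.ofReal_zero] at h3
      exact h3
    · refine Eventually.of_forall fun k => ?_
      simp only [Set.mem_compl_iff, Set.mem_singleton_iff]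
      intro h0
      have h4 : (1 / ((k : ℝ) + 2) : ℝ) = 0 := by exact_mod_cast h0
      have : (0 : ℝ) < 1 / ((k : ℝ) + 2) := by positivity
      linarith
  refine h1.frequently (Eventually.frequently (Eventually.of_forall fun k => ?_))
  apply h
  · positivity
  · rw [div_lt_one (by positivity)]
    linarith [show (0 : ℝ) ≤ k from Nat.cast_nonneg k]

lemma complexMGF_ld (s : ℂ) (hs : -1 < s.re) :
    complexMGF (fun v : Ix n → ℂ => 2 * ld v) (gam (Ix n)) s = Mc n s := by
  have hsub : Set.Ioi (-1 : ℝ) ⊆ interior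
      (integrableExpSet (fun v : Ix n → ℂ => 2 * ld v) (gam (Ix n))) := by
    refine interior_maximal ?_ isOpen_Ioi
    intro τ hτ
    exact integrable_ld τ hτ
  have hA : AnalyticOnNhd ℂ (complexMGF (fun v : Ix n → ℂ => 2 * ld v) (gam (Ix n)))
      {s : ℂ | -1 < s.re} := fun z hz => analyticAt_complexMGF (hsub hz)
  have hB : AnalyticOnNhd ℂ (Mc n) {s : ℂ | -1 < s.re} :=
    DifferentiableOn.analyticOnNhd (fun z hz => (Mc_diff z hz).differentiableWithinAt) isOpen_half
  have hc : IsPreconnected {s : ℂ | -1 < s.re} := (convex_halfSpace_re_gt (-1)).isPreconnected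
  have h0 : (0 : ℂ) ∈ {s : ℂ | -1 < s.re} := by simp
  refine hA.eqOn_of_preconnected_of_frequently_eq hB hc h0 ?_ hs
  refine frequently_real _ h0 _ _ fun x hx0 hx1 => ?_
  rw [complexMGF_ofReal, mgf_ld x (by linarith), Mc_ofReal]

/-- the value at the origin is an explicit product -/
lemma FF_zero (s : ℂ) (hs : |s.re| < 1) : FF n 0 s = Lam n s := by
  have h1 := abs_lt.1 hs
  unfold FF complexMGF P2
  have e : ∀ p : (Ix n → ℂ) × (Ix n → ℂ), Complex.exp (s * ((YY 0 p : ℝ) : ℂ))
      = Complex.exp (s * ((2 * ld p.1 : ℝ) : ℂ)) * Complex.exp ((-s) * ((2 * ld p.2 : ℝ) : ℂ)) := by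
    intro p
    rw [← Complex.exp_add]
    congr 1
    unfold YY VV
    simp
    ring
  simp_rw [e]
  rw [integral_prod_mul (fun v : Ix n → ℂ => Complex.exp (s * ((2 * ld v : ℝ) : ℂ)))
    (fun v : Ix n → ℂ => Complex.exp ((-s) * ((2 * ld v : ℝ) : ℂ)))]
  have h2 := complexMGF_ld (n := n) s h1.1
  have h3 := complexMGF_ld (n := n) (-s) (by rw [Complex.neg_re]; linarith)
  unfold complexMGF at h2 h3
  rw [h2, h3]
  unfold Mc Lam aj
  rw [← Finset.prod_mul_distrib]
  refine Finset.prod_congr rfl fun j _ => ?_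
  push_cast
  rw [div_mul_div_comm]
  congr 1
  ring

end Pool.Agent.Q293.FH
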