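import Mathlib
import Pool.Agent.Q293.FH.Zero

set_option linter.unusedSectionVars false

open MeasureTheory Complex ProbabilityTheory Filter Topology

namespace Pool.Agent.Q293.FH

/-- The defining properties of the Barnes function: entire, value one at one, the functional
equation away from the poles of the Gamma function, real and positive on the positive axis, with
nonnegative third derivative of the logarithm there. -/
structure IsBarnesG (G : ℂ → ℂ) : Prop where
  entire : Differentiable ℂ G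
  one : G 1 = 1
  func : ∀ s : ℂ, (∀ m : ℕ, s ≠ -m) → G (s + 1) = Complex.Gamma s * G s
  pos : ∀ x : ℝ, 0 < x → ∃ y : ℝ, 0 < y ∧ G x = y
  third : ∀ x : ℝ, 0 < x → 0 ≤ iteratedDeriv 3 (fun u : ℝ => Real.log (G u).re) x

/-- second difference mean value inequality -/
lemma second_diff (f f1 f2 : ℝ → ℝ) (h1 : ∀ x, 0 < x → HasDerivAt f (f1 x) x)
    (h2 : ∀ x, 0 < x → HasDerivAt f1 (f2 x) x) (hm : MonotoneOn f2 (Set.Ioi 0))
    (x t : ℝ) (ht : 0 ≤ t) (hx : t < x) :
    t ^ 2 * f2 (x - t) ≤ f (x + t) + f (x - t) - 2 * f x ∧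
    f (x + t) + f (x - t) - 2 * f x ≤ t ^ 2 * f2 (x + t) := by
  have hd1 : ∀ u, 0 ≤ u → u ≤ t → HasDerivAt (fun u => f (x + u) + f (x - u) - 2 * f x)
      (f1 (x + u) - f1 (x - u)) u := by
    intro u hu0 hut
    have ha := (h1 (x + u) (by linarith)).comp_const_add x u
    have hb := (h1 (x - u) (by linarith)).comp_const_sub x u
    exact ((ha.add hb).sub_const _).congr_deriv (by ring)
  have hd2 : ∀ u, 0 ≤ u → u ≤ t → HasDerivAt (fun u => f1 (x + u) - f1 (x - u))
      (f2 (x + u) + f2 (x - u)) u := by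
    intro u hu0 hut
    have ha := (h2 (x + u) (by linarith)).comp_const_add x u
    have hb := (h2 (x - u) (by linarith)).comp_const_sub x u
    exact (ha.sub hb).congr_deriv (by ring)
  have key : ∀ (g g1 g2 : ℝ → ℝ), (∀ u, 0 ≤ u → u ≤ t → HasDerivAt g (g1 u) u) →
      (∀ u, 0 ≤ u → u ≤ t → HasDerivAt g1 (g2 u) u) → g 0 = 0 → g1 0 = 0 →
      (∀ u, 0 ≤ u → u ≤ t → 0 ≤ g2 u) → 0 ≤ g t := by
    intro g g1 g2 hg hg1 h00 h10 hpos
    have hmon1 : MonotoneOn g1 (Set.Icc 0 t) := by
      apply monotoneOn_of_hasDerivWithinAt_nonneg (convex_Icc 0 t)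
        (fun u hu => (hg1 u hu.1 hu.2).continuousAt.continuousWithinAt) (f' := g2)
      · intro u hu
        rw [interior_Icc] at hu
        exact (hg1 u hu.1.le hu.2.le).hasDerivWithinAt
      · intro u hu
        rw [interior_Icc] at hu
        exact hpos u hu.1.le hu.2.le
    have hmon : MonotoneOn g (Set.Icc 0 t) := by
      apply monotoneOn_of_hasDerivWithinAt_nonneg (convex_Icc 0 t)
        (fun u hu => (hg u hu.1 hu.2).continuousAt.continuousWithinAt) (f' := g1)
      · intro u hu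
        rw [interior_Icc] at hu
        exact (hg u hu.1.le hu.2.le).hasDerivWithinAt
      · intro u hu
        rw [interior_Icc] at hu
        have := hmon1 (Set.left_mem_Icc.2 ht) ⟨hu.1.le, hu.2.le⟩ hu.1.le
        rw [h10] at this
        exact this
    have := hmon (Set.left_mem_Icc.2 ht) (Set.right_mem_Icc.2 ht) ht
    rw [h00] at this
    exact this
  constructor
  · have h := key (fun u => f (x + u) + f (x - u) - 2 * f x - u ^ 2 * f2 (x - t))
      (fun u => f1 (x + u) - f1 (x - u) - 2 * u * f2 (x - t))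
      (fun u => f2 (x + u) + f2 (x - u) - 2 * f2 (x - t)) ?_ ?_ (by simp; ring) (by simp) ?_
    · linarith
    · intro u hu0 hut
      exact ((hd1 u hu0 hut).sub ((hasDerivAt_pow 2 u).mul_const _)).congr_deriv (by
        push_cast; ring)
    · intro u hu0 hut
      exact ((hd2 u hu0 hut).sub (((hasDerivAt_id u).const_mul 2).mul_const _)).congr_deriv (by
        ring)
    · intro u hu0 hut
      have ha := hm (show x - t ∈ Set.Ioi (0 : ℝ) by simp; linarith)
        (show x + u ∈ Set.Ioi (0 : ℝ) by simp; linarith) (by linarith)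
      have hb := hm (show x - t ∈ Set.Ioi (0 : ℝ) by simp; linarith)
        (show x - u ∈ Set.Ioi (0 : ℝ) by simp; linarith) (by linarith)
      linarith
  · have h := key (fun u => u ^ 2 * f2 (x + t) - (f (x + u) + f (x - u) - 2 * f x))
      (fun u => 2 * u * f2 (x + t) - (f1 (x + u) - f1 (x - u)))
      (fun u => 2 * f2 (x + t) - (f2 (x + u) + f2 (x - u))) ?_ ?_ (by simp; ring) (by simp) ?_
    · linarith
    · intro u hu0 hut
      exact (((hasDerivAt_pow 2 u).mul_const _).sub (hd1 u hu0 hut)).congr_deriv (by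
        push_cast; ring)
    · intro u hu0 hut
      exact ((((hasDerivAt_id u).const_mul 2).mul_const _).sub (hd2 u hu0 hut)).congr_deriv (by
        ring)
    · intro u hu0 hut
      have ha := hm (show x + u ∈ Set.Ioi (0 : ℝ) by simp; linarith)
        (show x + t ∈ Set.Ioi (0 : ℝ) by simp; linarith) (by linarith)
      have hb := hm (show x - u ∈ Set.Ioi (0 : ℝ) by simp; linarith)
        (show x + t ∈ Set.Ioi (0 : ℝ) by simp; linarith) (by linarith)
      linarith

variable {G : ℂ → ℂ}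

/-- logarithm on the positive axis -/
noncomputable def LG (G : ℂ → ℂ) (u : ℝ) : ℝ := Real.log (G u).re

lemma IsBarnesG.re_pos (hG : IsBarnesG G) (x : ℝ) (hx : 0 < x) : 0 < (G x).re := by
  obtain ⟨y, hy, h⟩ := hG.pos x hx
  rw [h]
  simpa using hy

lemma IsBarnesG.eq_re (hG : IsBarnesG G) (x : ℝ) (hx : 0 < x) : G x = ((G x).re : ℂ) := by
  obtain ⟨y, hy, h⟩ := hG.pos x hx
  rw [h]
  simp

lemma IsBarnesG.contDiffOn (hG : IsBarnesG G) : ContDiffOn ℝ 3 (LG G) (Set.Ioi 0) := by
  intro x hx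
  have h1 : ContDiff ℂ 3 G := hG.entire.contDiff
  have h2 : ContDiff ℝ 3 G := h1.restrict_scalars ℝ
  have h3 : ContDiff ℝ 3 (fun u : ℝ => (G (u : ℂ)).re) :=
    Complex.reCLM.contDiff.comp (h2.comp Complex.ofRealCLM.contDiff)
  have h4 : ContDiffAt ℝ 3 (fun u : ℝ => Real.log ((G (u : ℂ)).re)) x :=
    h3.contDiffAt.log (hG.re_pos x hx).ne'
  exact h4.contDiffWithinAt

lemma IsBarnesG.derivs (hG : IsBarnesG G) :
    (∀ x, 0 < x → HasDerivAt (LG G) (deriv (LG G) x) x) ∧
    (∀ x, 0 < x → HasDerivAt (deriv (LG G)) (deriv (deriv (LG G)) x) x) ∧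
    MonotoneOn (deriv (deriv (LG G))) (Set.Ioi 0) := by
  have h0 := hG.contDiffOn
  have h1 : ContDiffOn ℝ 2 (deriv (LG G)) (Set.Ioi 0) :=
    h0.deriv_of_isOpen isOpen_Ioi (by norm_num)
  have h2 : ContDiffOn ℝ 1 (deriv (deriv (LG G))) (Set.Ioi 0) :=
    h1.deriv_of_isOpen isOpen_Ioi (by norm_num)
  refine ⟨fun x hx => ?_, fun x hx => ?_, ?_⟩
  · exact ((h0.differentiableOn (by norm_num)).differentiableAt (Ioi_mem_nhds hx)).hasDerivAt
  · exact ((h1.differentiableOn (by norm_num)).differentiableAt (Ioi_mem_nhds hx)).hasDerivAt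
  · apply monotoneOn_of_deriv_nonneg (convex_Ioi 0) h2.continuousOn
    · rw [interior_Ioi]
      exact h2.differentiableOn (by norm_num)
    · intro x hx
      rw [interior_Ioi] at hx
      have h3 := hG.third x hx
      rw [iteratedDeriv_succ, iteratedDeriv_succ, iteratedDeriv_one] at h3
      exact h3

lemma IsBarnesG.step (hG : IsBarnesG G) (x : ℝ) (hx : 0 < x) :
    LG G (x + 1) = Real.log (Real.Gamma x) + LG G x := by
  have h1 : G ((x + 1 : ℝ) : ℂ) = ((Real.Gamma x * (G x).re : ℝ) : ℂ) := by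
    push_cast
    rw [hG.func x, Complex.Gamma_ofReal]
    · rw [← hG.eq_re x hx]
    · intro m h
      have := congrArg Complex.re h
      simp at this
      linarith [show (0 : ℝ) ≤ m from Nat.cast_nonneg m]
  unfold LG
  rw [h1, Complex.ofReal_re, Real.log_mul (Real.Gamma_pos_of_pos hx).ne' (hG.re_pos x hx).ne']

lemma IsBarnesG.phi_bounds (hG : IsBarnesG G) :
    (∀ y, 2 < y → Real.log (y - 2) ≤ deriv (deriv (LG G)) y) ∧
    (∀ y, 0 < y → deriv (deriv (LG G)) y ≤ Real.log y) := by
  obtain ⟨h1, h2, h3⟩ := hG.derivs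
  have hx : ∀ x : ℝ, 1 < x → LG G (x + 1) + LG G (x - 1) - 2 * LG G x = Real.log (x - 1) := by
    intro x hx
    have ha := hG.step x (by linarith)
    have hb := hG.step (x - 1) (by linarith)
    rw [sub_add_cancel] at hb
    have hc : Real.log (Real.Gamma x) = Real.log (x - 1) + Real.log (Real.Gamma (x - 1)) := by
      rw [← Real.log_mul (by linarith : x - 1 ≠ 0) (Real.Gamma_pos_of_pos (by linarith)).ne',
        ← Real.Gamma_add_one (by linarith : x - 1 ≠ 0), sub_add_cancel]
    rw [ha, hc]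
    linarith
  constructor
  · intro y hy
    have h := (second_diff _ _ _ h1 h2 h3 (y - 1) 1 zero_le_one (by linarith)).2
    rw [hx (y - 1) (by linarith), sub_add_cancel, one_pow, one_mul] at h
    rw [show y - 2 = y - 1 - 1 by ring]
    exact h
  · intro y hy
    have h := (second_diff _ _ _ h1 h2 h3 (y + 1) 1 zero_le_one (by linarith)).1
    rw [hx (y + 1) (by linarith), add_sub_cancel_right, one_pow, one_mul] at h
    exact h

lemma IsBarnesG.step_iter (hG : IsBarnesG G) (x : ℝ) (hx : 0 < x) (n : ℕ) :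
    LG G (x + n) = LG G x + ∑ j ∈ Finset.range n, Real.log (Real.Gamma (x + j)) := by
  induction n with
  | zero => simp
  | succ n ih =>
    have := hG.step (x + n) (by positivity)
    rw [Finset.sum_range_succ, ← add_assoc, ← ih]
    push_cast
    rw [← add_assoc, this]
    ring

/-- real version of the moment at the origin -/
noncomputable def Lr (n : ℕ) (t : ℝ) : ℝ :=
  ∏ j ∈ Finset.range n, (Real.Gamma (1 + t + j) * Real.Gamma (1 - t + j) / Real.Gamma (1 + j) ^ 2)

lemma Lam_ofReal (n : ℕ) (t : ℝ) : Lam n (t : ℂ) = (Lr n t : ℂ) := by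
  unfold Lam Lr aj
  push_cast
  refine Finset.prod_congr rfl fun j _ => ?_
  rw [← Complex.Gamma_ofReal, ← Complex.Gamma_ofReal, ← Complex.Gamma_ofReal]
  push_cast
  congr 1
  · congr 1
    · congr 1; ring
    · congr 1; ring
  · congr 2; ring

lemma log_Lr (n : ℕ) (t : ℝ) (ht0 : 0 < t) (ht1 : t < 1) :
    Real.log (Lr n t) = ∑ j ∈ Finset.range n, Real.log (Real.Gamma (1 + t + j))
      + ∑ j ∈ Finset.range n, Real.log (Real.Gamma (1 - t + j))
      - 2 * ∑ j ∈ Finset.range n, Real.log (Real.Gamma (1 + j)) := by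
  unfold Lr
  have hp : ∀ (j : ℕ), 0 < Real.Gamma (1 + t + j) ∧ 0 < Real.Gamma (1 - t + j)
      ∧ 0 < Real.Gamma (1 + (j : ℝ)) := by
    intro j
    have hj : (0 : ℝ) ≤ j := Nat.cast_nonneg j
    exact ⟨Real.Gamma_pos_of_pos (by linarith), Real.Gamma_pos_of_pos (by linarith),
      Real.Gamma_pos_of_pos (by linarith)⟩
  rw [Real.log_prod, Finset.mul_sum, ← Finset.sum_add_distrib, ← Finset.sum_sub_distrib]
  · refine Finset.sum_congr rfl fun j _ => ?_
    obtain ⟨h1, h2, h3⟩ := hp j
    rw [Real.log_div (by positivity) (by positivity), Real.log_mul h1.ne' h2.ne', Real.log_pow]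
    push_cast
    ring
  · intro j _
    obtain ⟨h1, h2, h3⟩ := hp j
    positivity

lemma Lr_pos (n : ℕ) (t : ℝ) (ht0 : 0 < t) (ht1 : t < 1) : 0 < Lr n t := by
  unfold Lr
  refine Finset.prod_pos fun j _ => ?_
  have hj : (0 : ℝ) ≤ j := Nat.cast_nonneg j
  have h1 : 0 < Real.Gamma (1 + t + j) := Real.Gamma_pos_of_pos (by linarith)
  have h2 : 0 < Real.Gamma (1 - t + j) := Real.Gamma_pos_of_pos (by linarith)
  have h3 : 0 < Real.Gamma (1 + (j : ℝ)) := Real.Gamma_pos_of_pos (by linarith)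
  positivity

lemma log_ratio_tendsto (c : ℝ) :
    Tendsto (fun n : ℕ => Real.log ((n : ℝ) + c) - Real.log n) atTop (𝓝 0) := by
  have h1 : Tendsto (fun n : ℕ => 1 + c / (n : ℝ)) atTop (𝓝 (1 + 0)) :=
    (tendsto_const_div_atTop_nhds_zero_nat c).const_add 1
  rw [add_zero] at h1
  have h2 := (Real.continuousAt_log one_ne_zero).tendsto.comp h1
  rw [Real.log_one] at h2
  refine h2.congr' ?_
  obtain ⟨N, hN⟩ := exists_nat_gt (|c|)
  filter_upwards [eventually_ge_atTop (N + 1)] with n hn
  have h3 : |c| < n := hN.trans (by exact_mod_cast (show N < n by omega))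
  have h4 : (0 : ℝ) < n := (abs_nonneg c).trans_lt h3
  have h5 : 0 < (n : ℝ) + c := by linarith [neg_abs_le c]
  simp only [Function.comp]
  rw [← Real.log_div h5.ne' h4.ne']
  congr 1
  field_simp

lemma IsBarnesG.real_limit (hG : IsBarnesG G) (t : ℝ) (ht0 : 0 < t) (ht1 : t < 1) :
    Tendsto (fun n : ℕ => LG G (1 + t) + LG G (1 - t) + Real.log (Lr n t) - t ^ 2 * Real.log n)
      atTop (𝓝 0) := by
  obtain ⟨h1, h2, h3⟩ := hG.derivs
  obtain ⟨hlo, hup⟩ := hG.phi_bounds
  have hone : LG G 1 = 0 := by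
    unfold LG
    rw [Complex.ofReal_one, hG.one]
    simp
  have e : ∀ n : ℕ, LG G (1 + t) + LG G (1 - t) + Real.log (Lr n t)
      = LG G (1 + n + t) + LG G (1 + n - t) - 2 * LG G (1 + n) := by
    intro n
    rw [log_Lr n t ht0 ht1]
    have ha := hG.step_iter (1 + t) (by linarith) n
    have hb := hG.step_iter (1 - t) (by linarith) n
    have hc := hG.step_iter 1 one_pos n
    rw [show 1 + (n : ℝ) + t = 1 + t + n by ring, show 1 + (n : ℝ) - t = 1 - t + n by ring,
      ha, hb, hc, hone]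
    ring
  have hL := (log_ratio_tendsto (-2)).const_mul (t ^ 2)
  have hU := (log_ratio_tendsto 2).const_mul (t ^ 2)
  rw [mul_zero] at hL hU
  refine tendsto_of_tendsto_of_tendsto_of_le_of_le' hL hU ?_ ?_
  · filter_upwards [eventually_ge_atTop 3] with n hn
    have hn' : (3 : ℝ) ≤ n := by exact_mod_cast hn
    rw [e n]
    have hs := (second_diff _ _ _ h1 h2 h3 (1 + n) t ht0.le (by linarith)).1
    have h5 := hlo (1 + n - t) (by linarith)
    have h6 : Real.log ((n : ℝ) + -2) ≤ Real.log (1 + n - t - 2) :=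
      Real.log_le_log (by linarith) (by linarith)
    have h7 : t ^ 2 * Real.log ((n : ℝ) + -2) ≤ t ^ 2 * deriv (deriv (LG G)) (1 + n - t) :=
      mul_le_mul_of_nonneg_left (h6.trans h5) (by positivity)
    linarith
  · filter_upwards [eventually_ge_atTop 3] with n hn
    have hn' : (3 : ℝ) ≤ n := by exact_mod_cast hn
    rw [e n]
    have hs := (second_diff _ _ _ h1 h2 h3 (1 + n) t ht0.le (by linarith)).2
    have h5 := hup (1 + n + t) (by linarith)
    have h6 : Real.log (1 + n + t) ≤ Real.log ((n : ℝ) + 2) :=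
      Real.log_le_log (by linarith) (by linarith)
    have h7 : t ^ 2 * deriv (deriv (LG G)) (1 + n + t) ≤ t ^ 2 * Real.log ((n : ℝ) + 2) :=
      mul_le_mul_of_nonneg_left (h5.trans h6) (by positivity)
    linarith

lemma IsBarnesG.real_limit2 (hG : IsBarnesG G) (t : ℝ) (ht0 : 0 < t) (ht1 : t < 1) :
    Tendsto (fun n : ℕ => rn n t * (G (1 + t) * G (1 - t))) atTop (𝓝 1) := by
  have h1 := (Real.continuous_exp.tendsto 0).comp (hG.real_limit t ht0 ht1)
  rw [Real.exp_zero] at h1
  have h2 := (Complex.continuous_ofReal.tendsto 1).comp h1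
  rw [Complex.ofReal_one] at h2
  refine h2.congr fun n => ?_
  simp only [Function.comp]
  unfold rn
  rw [Lam_ofReal]
  have e1 := hG.eq_re (1 + t) (by linarith)
  have e2 := hG.eq_re (1 - t) (by linarith)
  push_cast at e1 e2
  rw [e1, e2]
  rw [show LG G (1 + t) + LG G (1 - t) + Real.log (Lr n t) - t ^ 2 * Real.log n
    = (LG G (1 + t) + LG G (1 - t) + Real.log (Lr n t)) + -t ^ 2 * Real.log n by ring]
  rw [Real.exp_add, Real.exp_add, Real.exp_add, Real.exp_log (Lr_pos n t ht0 ht1)]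
  unfold LG
  rw [Real.exp_log (hG.re_pos (1 + t) (by linarith)), Real.exp_log (hG.re_pos (1 - t) (by linarith))]
  push_cast
  ring

/-- identification of the limit -/
lemma IsBarnesG.limit (hG : IsBarnesG G) (s : ℂ) (hs : s ∈ Sp) :
    rl s * (G (1 + s) * G (1 - s)) = 1 := by
  have hgd : Differentiable ℂ (fun s => G (1 + s) * G (1 - s)) :=
    (hG.entire.comp (by fun_prop : Differentiable ℂ fun s : ℂ => 1 + s)).mul
      (hG.entire.comp (by fun_prop : Differentiable ℂ fun s : ℂ => 1 - s))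
  have hA : AnalyticOnNhd ℂ (fun s => rl s * (G (1 + s) * G (1 - s))) Sp :=
    (rl_diff.mul hgd.differentiableOn).analyticOnNhd isOpen_Sp
  have hB : AnalyticOnNhd ℂ (fun _ : ℂ => (1 : ℂ)) Sp := analyticOnNhd_const
  have h0 : (0 : ℂ) ∈ Sp := by simp [Sp]
  have hc : IsPreconnected Sp := by
    have : Sp = {s : ℂ | -1 < s.re} ∩ {s : ℂ | s.re < 1} := by
      ext s
      simp [Sp, abs_lt]
    rw [this]
    exact ((convex_halfSpace_re_gt (-1)).inter (convex_halfSpace_re_lt 1)).isPreconnected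
  refine hA.eqOn_of_preconnected_of_frequently_eq hB hc h0 ?_ hs
  refine frequently_real Sp h0 _ _ fun t ht0 ht1 => ?_
  have h1 := hG.real_limit2 t ht0 ht1
  have hts : (t : ℂ) ∈ Sp := by
    simp only [Sp, Set.mem_ofPred_eq, Complex.ofReal_re, abs_of_pos ht0]
    exact ht1
  have h2 := (rn_tendsto (t : ℂ) hts).mul_const (G (1 + t) * G (1 - t))
  exact tendsto_nhds_unique h2 h1

/-- uniform convergence at the origin -/
lemma IsBarnesG.unif (hG : IsBarnesG G) (K : Set ℂ) (hK : IsCompact K) (hKS : K ⊆ Sp) :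
    TendstoUniformlyOn (fun n s => rn n s * (G (1 + s) * G (1 - s))) (fun _ => 1) atTop K := by
  have h := rn_unif K hK hKS
  have hg : ContinuousOn (fun s => ‖G (1 + s) * G (1 - s)‖) K := by
    apply Continuous.continuousOn
    exact ((hG.entire.continuous.comp (by fun_prop : Continuous fun s : ℂ => 1 + s)).mul
      (hG.entire.continuous.comp (by fun_prop : Continuous fun s : ℂ => 1 - s))).norm
  obtain ⟨B, hB⟩ := hK.bddAbove_image hg
  have hB' : ∀ s ∈ K, ‖G (1 + s) * G (1 - s)‖ ≤ |B| + 1 := fun s hs =>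
    ((hB (Set.mem_image_of_mem _ hs)).trans (le_abs_self B)).trans (by linarith)
  rw [Metric.tendstoUniformlyOn_iff] at h ⊢
  intro ε hε
  have hpos : 0 < |B| + 1 := by positivity
  filter_upwards [h (ε / (|B| + 1)) (by positivity)] with n hn s hs
  have h1 := hn s hs
  have e : (1 : ℂ) - rn n s * (G (1 + s) * G (1 - s))
      = (rl s - rn n s) * (G (1 + s) * G (1 - s)) := by
    linear_combination -hG.limit s (hKS hs)
  rw [dist_eq_norm, e, norm_mul]
  rw [dist_eq_norm] at h1
  calc ‖rl s - rn n s‖ * ‖G (1 + s) * G (1 - s)‖ ≤ ‖rl s - rn n s‖ * (|B| + 1) :=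
        mul_le_mul_of_nonneg_left (hB' s hs) (norm_nonneg _)
    _ < ε / (|B| + 1) * (|B| + 1) := mul_lt_mul_of_pos_right h1 hpos
    _ = ε := by field_simp

end Pool.Agent.Q293.FH
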