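import Mathlib
import Pool.Agent.Q293.FH.Strip

set_option linter.unusedSectionVars false

open MeasureTheory Complex ProbabilityTheory Filter Topology

namespace Pool.Agent.Q293.FH

lemma Gamma_shift_le (x : ℝ) (hx : 0 < x) (m : ℕ) :
    Real.Gamma (x + m) ≤ Real.Gamma x * (x + m) ^ m := by
  induction m with
  | zero => simp
  | succ m ih =>
    have h1 : Real.Gamma (x + (m + 1 : ℕ)) = (x + m) * Real.Gamma (x + m) := by
      rw [← Real.Gamma_add_one (by positivity)]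
      congr 1
      push_cast
      ring
    rw [h1]
    have hG : 0 < Real.Gamma x := Real.Gamma_pos_of_pos hx
    calc (x + m) * Real.Gamma (x + m) ≤ (x + m) * (Real.Gamma x * (x + m) ^ m) :=
          mul_le_mul_of_nonneg_left ih (by positivity)
      _ = Real.Gamma x * (x + m) ^ (m + 1) := by ring
      _ ≤ Real.Gamma x * (x + (m + 1 : ℕ)) ^ (m + 1) := by
          apply mul_le_mul_of_nonneg_left _ hG.le
          apply pow_le_pow_left₀ (by positivity)
          push_cast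
          linarith

lemma Gamma_up (x : ℝ) (hx : 0 < x) (m : ℕ) (α : ℝ) (h0 : 0 < α) (hm : α < m) :
    Real.Gamma (x + α) ≤ Real.Gamma x * (x + m) ^ α := by
  have hm0 : (0 : ℝ) < m := h0.trans hm
  have hG : 0 < Real.Gamma x := Real.Gamma_pos_of_pos hx
  have hG2 : 0 < Real.Gamma (x + m) := Real.Gamma_pos_of_pos (by positivity)
  have hb : α / m < 1 := by rw [div_lt_one hm0]; exact hm
  have h := Real.Gamma_mul_add_mul_le_rpow_Gamma_mul_rpow_Gamma (s := x) (t := x + m)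
    (a := 1 - α / m) (b := α / m) hx (by positivity) (by linarith) (by positivity) (by ring)
  have e1 : (1 - α / m) * x + α / m * (x + m) = x + α := by
    field_simp
    ring
  rw [e1] at h
  refine h.trans ?_
  have h2 : Real.Gamma (x + m) ^ (α / m) ≤ (Real.Gamma x * (x + m) ^ m) ^ (α / m) :=
    Real.rpow_le_rpow hG2.le (Gamma_shift_le x hx m) (by positivity)
  calc Real.Gamma x ^ (1 - α / m) * Real.Gamma (x + m) ^ (α / m)
      ≤ Real.Gamma x ^ (1 - α / m) * (Real.Gamma x * (x + m) ^ m) ^ (α / m) :=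
        mul_le_mul_of_nonneg_left h2 (Real.rpow_nonneg hG.le _)
    _ = Real.Gamma x * (x + m) ^ α := by
        rw [Real.mul_rpow hG.le (by positivity), ← mul_assoc, ← Real.rpow_add hG,
          ← Real.rpow_natCast, ← Real.rpow_mul (by positivity)]
        rw [show 1 - α / m + α / m = 1 by ring, Real.rpow_one]
        congr 2
        field_simp

lemma Gamma_down (x : ℝ) (hx : 0 < x) (β : ℝ) (h0 : 0 < β) (h1 : β < 1) :
    Real.Gamma (x + 1 - β) ≤ Real.Gamma (x + 1) * x ^ (-β) := by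
  have hG : 0 < Real.Gamma x := Real.Gamma_pos_of_pos hx
  have h := Real.Gamma_mul_add_mul_le_rpow_Gamma_mul_rpow_Gamma (s := x) (t := x + 1)
    (a := β) (b := 1 - β) hx (by positivity) (by linarith) (by linarith) (by ring)
  have e1 : β * x + (1 - β) * (x + 1) = x + 1 - β := by ring
  rw [e1] at h
  refine h.trans (le_of_eq ?_)
  rw [Real.Gamma_add_one hx.ne', Real.mul_rpow hx.le hG.le, ← mul_assoc,
    mul_comm (Real.Gamma x ^ β), mul_assoc, ← Real.rpow_add hG]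
  rw [show β + (1 - β) = 1 by ring, Real.rpow_one]
  rw [show (1 - β) = 1 + -β by ring, Real.rpow_add hx, Real.rpow_one]
  ring

lemma Mr_up (m : ℕ) (α : ℝ) (h0 : 0 < α) (hm : α < m) (n : ℕ) :
    Mr n α ≤ (((n + m).factorial : ℕ) : ℝ) ^ α := by
  induction n with
  | zero =>
    simp only [Mr, Finset.range_zero, Finset.prod_empty, zero_add]
    apply Real.one_le_rpow _ h0.le
    exact_mod_cast Nat.one_le_iff_ne_zero.2 (Nat.factorial_ne_zero m)
  | succ n ih =>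
    have h1 : Mr (n + 1) α = Mr n α * (Real.Gamma (n + 1 + α) / Real.Gamma (n + 1)) := by
      unfold Mr
      rw [Finset.prod_range_succ]
    rw [h1]
    have hG : 0 < Real.Gamma ((n : ℝ) + 1) := Real.Gamma_pos_of_pos (by positivity)
    have h2 : Real.Gamma (n + 1 + α) / Real.Gamma (n + 1) ≤ ((n : ℝ) + 1 + m) ^ α := by
      rw [div_le_iff₀ hG, mul_comm]
      exact Gamma_up _ (by positivity) m α h0 hm
    have h3 : 0 < Real.Gamma (n + 1 + α) / Real.Gamma (n + 1) :=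
      div_pos (Real.Gamma_pos_of_pos (by positivity)) hG
    refine (mul_le_mul ih h2 h3.le (by positivity)).trans (le_of_eq ?_)
    rw [← Real.mul_rpow (by positivity) (by positivity)]
    congr 1
    rw [show n + 1 + m = (n + m) + 1 by ring, Nat.factorial_succ]
    push_cast
    ring

lemma Mr_down (β : ℝ) (h0 : 0 < β) (h1 : β < 1) (n : ℕ) :
    Mr (n + 1) (-β) ≤ Real.Gamma (1 - β) * ((n.factorial : ℕ) : ℝ) ^ (-β) := by
  have hGb : 0 < Real.Gamma (1 - β) := Real.Gamma_pos_of_pos (by linarith)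
  induction n with
  | zero =>
    simp only [Mr, zero_add, Finset.range_one, Finset.prod_singleton, Nat.cast_zero,
      Nat.factorial_zero, Nat.cast_one, Real.Gamma_one, Real.one_rpow, mul_one, div_one]
    rw [← sub_eq_add_neg]
  | succ n ih =>
    have e1 : Mr (n + 1 + 1) (-β) = Mr (n + 1) (-β)
        * (Real.Gamma (((n + 1 : ℕ) : ℝ) + 1 + -β) / Real.Gamma (((n + 1 : ℕ) : ℝ) + 1)) := by
      unfold Mr
      rw [Finset.prod_range_succ _ (n + 1)]
    rw [e1]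
    have hG : 0 < Real.Gamma (((n + 1 : ℕ) : ℝ) + 1) := Real.Gamma_pos_of_pos (by positivity)
    have h2 : Real.Gamma (((n + 1 : ℕ) : ℝ) + 1 + -β) / Real.Gamma (((n + 1 : ℕ) : ℝ) + 1)
        ≤ (((n + 1 : ℕ) : ℝ)) ^ (-β) := by
      rw [div_le_iff₀ hG, mul_comm, ← sub_eq_add_neg]
      exact Gamma_down _ (by positivity) β h0 h1
    have h3 : 0 < Real.Gamma (((n + 1 : ℕ) : ℝ) + 1 + -β) / Real.Gamma (((n + 1 : ℕ) : ℝ) + 1) := by
      refine div_pos (Real.Gamma_pos_of_pos ?_) hG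
      have : (0 : ℝ) ≤ ((n + 1 : ℕ) : ℝ) := Nat.cast_nonneg _
      linarith
    refine (mul_le_mul ih h2 h3.le (by positivity)).trans (le_of_eq ?_)
    rw [mul_assoc, ← Real.mul_rpow (by positivity) (by positivity)]
    congr 2
    rw [Nat.factorial_succ]
    push_cast
    ring

/-- the Hoelder majorant grows at most polynomially -/
lemma QQ_poly (σ : ℝ) (h0 : 0 < σ) (h1 : σ < 1) :
    ∃ C : ℝ, 0 ≤ C ∧ ∃ m : ℕ, ∀ n : ℕ, QQ (n + 1) σ ≤ C * ((n : ℝ) + m + 1) ^ (m + 1) := by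
  obtain ⟨m, hm⟩ := exists_nat_gt (σ * (((1 + σ) / 2) / ((1 + σ) / 2 - σ)))
  have h2 : 0 < (1 + σ) / 2 - σ := by linarith
  have h3 : 0 < (1 + σ) / 2 := by linarith
  have h4 : (1 + σ) / 2 < 1 := by linarith
  set β := (1 + σ) / 2 with hβ
  set u := β / (β - σ) with hu
  have hu0 : 0 < u := by positivity
  have hGb : 0 < Real.Gamma (1 - β) := Real.Gamma_pos_of_pos (by linarith)
  refine ⟨Real.Gamma (1 - β) ^ (σ / β), Real.rpow_nonneg hGb.le _, m, fun n => ?_⟩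
  have hA : Mr (n + 1) (σ * u) ^ (1 / u) ≤ ((((n + 1 + m).factorial : ℕ) : ℝ)) ^ σ := by
    have h5 := Mr_up m (σ * u) (by positivity) hm (n + 1)
    have h6 := Real.rpow_le_rpow (Mr_pos (n + 1) (σ * u) (by
      have : 0 < σ * u := by positivity
      linarith)).le h5 (show 0 ≤ 1 / u by positivity)
    refine h6.trans (le_of_eq ?_)
    rw [← Real.rpow_mul (by positivity)]
    congr 1
    field_simp
  have hB : Mr (n + 1) (-β) ^ (1 / (β / σ))
      ≤ Real.Gamma (1 - β) ^ (σ / β) * ((n.factorial : ℕ) : ℝ) ^ (-σ) := by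
    have h5 := Mr_down β h3 h4 n
    have h6 := Real.rpow_le_rpow (Mr_pos (n + 1) (-β) (by linarith)).le h5
      (show 0 ≤ 1 / (β / σ) by positivity)
    refine h6.trans (le_of_eq ?_)
    rw [Real.mul_rpow hGb.le (by positivity), ← Real.rpow_mul (by positivity), one_div_div]
    congr 2
    field_simp
  have hC : QQ (n + 1) σ ≤ ((((n + 1 + m).factorial : ℕ) : ℝ)) ^ σ
      * (Real.Gamma (1 - β) ^ (σ / β) * ((n.factorial : ℕ) : ℝ) ^ (-σ)) := by
    unfold QQ
    rw [← hβ, ← hu]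
    refine mul_le_mul hA hB ?_ (by positivity)
    exact Real.rpow_nonneg (Mr_pos _ _ (by linarith)).le _
  refine hC.trans ?_
  have hfac : (((n + 1 + m).factorial : ℕ) : ℝ) ≤ ((n.factorial : ℕ) : ℝ)
      * ((n : ℝ) + m + 1) ^ (m + 1) := by
    have h7 : (n + 1 + m).factorial = n.factorial * (n + 1).ascFactorial (m + 1) := by
      rw [Nat.factorial_mul_ascFactorial]
      congr 1
      ring
    have h8 := Nat.ascFactorial_le_pow_add n (m + 1)
    rw [h7]
    have h9 : n.factorial * (n + 1).ascFactorial (m + 1) ≤ n.factorial * (n + (m + 1)) ^ (m + 1) :=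
      Nat.mul_le_mul_left _ h8
    have h10 : ((n.factorial * (n + 1).ascFactorial (m + 1) : ℕ) : ℝ)
        ≤ ((n.factorial * (n + (m + 1)) ^ (m + 1) : ℕ) : ℝ) := by exact_mod_cast h9
    refine h10.trans (le_of_eq ?_)
    push_cast
    ring
  have hf0 : (0 : ℝ) < ((n.factorial : ℕ) : ℝ) := by
    exact_mod_cast Nat.factorial_pos n
  have hp1 : (1 : ℝ) ≤ ((n : ℝ) + m + 1) ^ (m + 1) := by
    apply one_le_pow₀
    linarith [show (0 : ℝ) ≤ n from Nat.cast_nonneg n, show (0 : ℝ) ≤ m from Nat.cast_nonneg m]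
  have hD : ((((n + 1 + m).factorial : ℕ) : ℝ)) ^ σ
      ≤ ((n.factorial : ℕ) : ℝ) ^ σ * ((n : ℝ) + m + 1) ^ (m + 1) := by
    refine (Real.rpow_le_rpow (by positivity) hfac h0.le).trans ?_
    rw [Real.mul_rpow hf0.le (by positivity)]
    apply mul_le_mul_of_nonneg_left _ (by positivity)
    calc (((n : ℝ) + m + 1) ^ (m + 1)) ^ σ ≤ (((n : ℝ) + m + 1) ^ (m + 1)) ^ (1 : ℝ) :=
          Real.rpow_le_rpow_of_exponent_le hp1 h1.le
      _ = _ := Real.rpow_one _
  calc ((((n + 1 + m).factorial : ℕ) : ℝ)) ^ σ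
      * (Real.Gamma (1 - β) ^ (σ / β) * ((n.factorial : ℕ) : ℝ) ^ (-σ))
      ≤ (((n.factorial : ℕ) : ℝ) ^ σ * ((n : ℝ) + m + 1) ^ (m + 1))
        * (Real.Gamma (1 - β) ^ (σ / β) * ((n.factorial : ℕ) : ℝ) ^ (-σ)) :=
        mul_le_mul_of_nonneg_right hD (by positivity)
    _ = Real.Gamma (1 - β) ^ (σ / β) * ((n : ℝ) + m + 1) ^ (m + 1)
        * (((n.factorial : ℕ) : ℝ) ^ σ * ((n.factorial : ℕ) : ℝ) ^ (-σ)) := by ring
    _ = Real.Gamma (1 - β) ^ (σ / β) * ((n : ℝ) + m + 1) ^ (m + 1) := by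
        rw [← Real.rpow_add hf0, add_neg_cancel, Real.rpow_zero, mul_one]

/-- the error term tends to zero -/
lemma err_tendsto (σ : ℝ) (h0 : 0 < σ) (h1 : σ < 1) (θ δ A : ℝ) (hθ0 : 0 < θ) (hθ1 : θ < 1)
    (hδ : 0 < δ) (k : ℕ) :
    Tendsto (fun n : ℕ => (2 * θ ^ (n + 1)) ^ δ * (A * QQ n σ + 1) * (n : ℝ) ^ k) atTop (𝓝 0) := by
  obtain ⟨C, hC0, m, hQ⟩ := QQ_poly σ h0 h1
  rw [← tendsto_add_atTop_iff_nat 1]
  have hr0 : 0 < θ ^ δ := Real.rpow_pos_of_pos hθ0 _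
  have hr1 : θ ^ δ < 1 := Real.rpow_lt_one hθ0.le hθ1 hδ
  have hlim := tendsto_pow_const_mul_const_pow_of_abs_lt_one (m + 1 + k)
    (show |θ ^ δ| < 1 by rw [abs_of_pos hr0]; exact hr1)
  have hlim2 := (hlim.comp (tendsto_add_atTop_nat (m + 1))).const_mul
    (2 ^ δ * (|A| * C + 1) * ((θ ^ δ) ^ 2 / (θ ^ δ) ^ (m + 1)))
  rw [mul_zero] at hlim2
  rw [tendsto_zero_iff_norm_tendsto_zero]
  refine squeeze_zero (fun n => norm_nonneg _) (fun n => ?_) hlim2
  have hQn := hQ n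
  have hQ0 := QQ_nonneg (n := n + 1) σ h0 h1
  have hn0 : (0 : ℝ) ≤ n := Nat.cast_nonneg n
  have hm0 : (0 : ℝ) ≤ m := Nat.cast_nonneg m
  have hp1 : (1 : ℝ) ≤ ((n : ℝ) + m + 1) ^ (m + 1) := one_le_pow₀ (by linarith)
  have e1 : (2 * θ ^ (n + 1 + 1)) ^ δ = 2 ^ δ * (θ ^ δ) ^ (n + 2) := by
    rw [Real.mul_rpow (by norm_num) (by positivity), ← Real.rpow_natCast, ← Real.rpow_mul hθ0.le,
      mul_comm ((n + 1 + 1 : ℕ) : ℝ) δ, Real.rpow_mul hθ0.le, Real.rpow_natCast]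
  rw [norm_mul, norm_mul, e1]
  have e2 : ‖A * QQ (n + 1) σ + 1‖ ≤ (|A| * C + 1) * ((n : ℝ) + m + 1) ^ (m + 1) := by
    rw [Real.norm_eq_abs]
    calc |A * QQ (n + 1) σ + 1| ≤ |A * QQ (n + 1) σ| + |1| := abs_add_le _ _
      _ = |A| * QQ (n + 1) σ + 1 := by rw [abs_mul, abs_of_nonneg hQ0, abs_one]
      _ ≤ |A| * (C * ((n : ℝ) + m + 1) ^ (m + 1)) + ((n : ℝ) + m + 1) ^ (m + 1) :=
          add_le_add (mul_le_mul_of_nonneg_left hQn (abs_nonneg _)) hp1
      _ = _ := by ring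
  have e3 : ‖(((n + 1 : ℕ) : ℝ)) ^ k‖ ≤ ((n : ℝ) + m + 1) ^ k := by
    rw [Real.norm_of_nonneg (by positivity)]
    apply pow_le_pow_left₀ (by positivity)
    push_cast
    linarith
  have e4 : ‖(2 : ℝ) ^ δ * (θ ^ δ) ^ (n + 2)‖ = 2 ^ δ * (θ ^ δ) ^ (n + 2) :=
    Real.norm_of_nonneg (by positivity)
  rw [e4]
  calc 2 ^ δ * (θ ^ δ) ^ (n + 2) * ‖A * QQ (n + 1) σ + 1‖ * ‖(((n + 1 : ℕ) : ℝ)) ^ k‖
      ≤ 2 ^ δ * (θ ^ δ) ^ (n + 2) * ((|A| * C + 1) * ((n : ℝ) + m + 1) ^ (m + 1))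
        * ((n : ℝ) + m + 1) ^ k := by
        refine mul_le_mul (mul_le_mul_of_nonneg_left e2 (by positivity)) e3 (norm_nonneg _)
          (by positivity)
    _ = _ := by
        simp only [Function.comp]
        have hpw : (θ ^ δ) ^ (n + 2) = (θ ^ δ) ^ 2 / (θ ^ δ) ^ (m + 1)
            * (θ ^ δ) ^ (n + (m + 1)) := by
          rw [pow_add (θ ^ δ) n (m + 1), pow_add (θ ^ δ) n 2]
          field_simp
        rw [hpw]
        have hcast : ((n + (m + 1) : ℕ) : ℝ) = (n : ℝ) + m + 1 := by push_cast; ring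
        rw [hcast, pow_add ((n : ℝ) + m + 1) (m + 1) k]
        ring

end Pool.Agent.Q293.FH
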