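import Mathlib
import Pool.Agent.Q293.FH.Barnes
import Pool.Agent.Q293.FH.Grow

set_option linter.unusedSectionVars false

open MeasureTheory Complex ProbabilityTheory Filter Topology

namespace Pool.Agent.Q293.FH

variable {n : ℕ}

/-- the random variable of the problem -/
noncomputable def PP (n : ℕ) (z : ℂ) (p : (Ix n → ℂ) × (Ix n → ℂ)) : ℂ :=
  (z • (1 : Matrix (Fin n) (Fin n) ℂ) - toM p.1 * (toM p.2)⁻¹).det

lemma PP_mul (z : ℂ) (p : (Ix n → ℂ) × (Ix n → ℂ)) (h : (toM p.2).det ≠ 0) :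
    PP n z p * (toM p.2).det = (z • toM p.2 - toM p.1).det := by
  unfold PP
  rw [← Matrix.det_mul, sub_mul, Matrix.smul_mul, Matrix.one_mul,
    Matrix.nonsing_inv_mul_cancel_right _ _ (isUnit_iff_ne_zero.2 h)]

/-- correlation parameter -/
noncomputable def rr (z : ℂ) : ℝ := ‖z‖ / Real.sqrt (1 + ‖z‖ ^ 2)

lemma rr_nonneg (z : ℂ) : 0 ≤ rr z := by unfold rr; positivity

lemma rr_sq (z : ℂ) : rr z ^ 2 = ‖z‖ ^ 2 / (1 + ‖z‖ ^ 2) := by
  unfold rr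
  rw [div_pow, Real.sq_sqrt (by positivity)]

lemma rr_lt (z : ℂ) : rr z < 1 := by
  have h := rr_sq z
  have h2 : rr z ^ 2 < 1 := by
    rw [h, div_lt_one (by positivity)]
    linarith
  nlinarith [rr_nonneg z]

lemma one_sub_rr_sq (z : ℂ) : Real.sqrt (1 - rr z ^ 2) = 1 / Real.sqrt (1 + ‖z‖ ^ 2) := by
  rw [rr_sq]
  have : 1 - ‖z‖ ^ 2 / (1 + ‖z‖ ^ 2) = 1 / (1 + ‖z‖ ^ 2) := by
    field_simp
    ring
  rw [this, Real.sqrt_div zero_le_one, Real.sqrt_one]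

lemma exists_phase (z : ℂ) : ∃ c : ℂ, ‖c‖ = 1 ∧ z = ‖z‖ * c := by
  by_cases h : z = 0
  · exact ⟨1, norm_one, by simp [h]⟩
  · have h0 : (‖z‖ : ℂ) ≠ 0 := by exact_mod_cast norm_ne_zero_iff.2 h
    refine ⟨z / ‖z‖, ?_, ?_⟩
    · rw [norm_div, Complex.norm_real, norm_norm, div_self (norm_ne_zero_iff.2 h)]
    · field_simp

lemma toM_smul (c : ℂ) (v : Ix n → ℂ) : toM (c • v) = c • toM v := by
  ext i j
  simp [toM]

lemma toM_add (v w : Ix n → ℂ) : toM (v + w) = toM v + toM w := by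
  ext i j
  simp [toM]

lemma key_matrix (z c : ℂ) (hc : ‖c‖ = 1) (hz : z = ‖z‖ * c) (p : (Ix n → ℂ) × (Ix n → ℂ)) :
    z • toM p.2 - toM p.1 = ((Real.sqrt (1 + ‖z‖ ^ 2) : ℝ) * c : ℂ)
      • toM (VV (rr z) ((-c⁻¹) • p.1, p.2)) := by
  have hs : Real.sqrt (1 + ‖z‖ ^ 2) ≠ 0 := by positivity
  have hs' : ((Real.sqrt (1 + ‖z‖ ^ 2) : ℝ) : ℂ) ≠ 0 := by exact_mod_cast hs
  have hc0 : c ≠ 0 := by
    intro h
    rw [h, norm_zero] at hc
    exact zero_ne_one hc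
  unfold VV
  rw [toM_add, toM_smul, toM_smul, toM_smul, smul_add, smul_smul, smul_smul, smul_smul,
    one_sub_rr_sq]
  have e1 : ((Real.sqrt (1 + ‖z‖ ^ 2) : ℝ) * c : ℂ) * ((rr z : ℝ) : ℂ) = z := by
    unfold rr
    conv_rhs => rw [hz]
    push_cast
    field_simp
  have e2 : ((Real.sqrt (1 + ‖z‖ ^ 2) : ℝ) * c : ℂ)
      * ((1 / Real.sqrt (1 + ‖z‖ ^ 2) : ℝ) : ℂ) * -c⁻¹ = -1 := by
    push_cast
    field_simp
  rw [e1, e2]
  simp only [neg_smul, one_smul, sub_eq_add_neg]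

lemma norm_det_eq (z c : ℂ) (hc : ‖c‖ = 1) (hz : z = ‖z‖ * c) (p : (Ix n → ℂ) × (Ix n → ℂ)) :
    ‖(z • toM p.2 - toM p.1).det‖ = Real.sqrt (1 + ‖z‖ ^ 2) ^ n
      * ‖(toM (VV (rr z) ((-c⁻¹) • p.1, p.2))).det‖ := by
  rw [key_matrix z c hc hz, Matrix.det_smul, Fintype.card_fin, norm_mul, norm_pow, norm_mul, hc,
    mul_one, Complex.norm_real, Real.norm_of_nonneg (Real.sqrt_nonneg _)]

lemma pres_phase (c : ℂ) (hc : ‖c‖ = 1) :
    MeasurePreserving (fun p : (Ix n → ℂ) × (Ix n → ℂ) => ((-c⁻¹) • p.1, p.2)) (P2 n) (P2 n) :=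
  (gam_phase (-c⁻¹) (by rw [norm_neg, norm_inv, hc, inv_one])).prod (MeasurePreserving.id _)

lemma ae_det2 : ∀ᵐ p ∂(P2 n), (toM p.2).det ≠ 0 := by
  have hS : MeasurePreserving (Prod.snd : (Ix n → ℂ) × (Ix n → ℂ) → (Ix n → ℂ)) (P2 n)
      (gam (Ix n)) := measurePreserving_snd
  exact hS.quasiMeasurePreserving.ae (det_ae_ne_zero n)

lemma ae_VV (ρ : ℝ) (h0 : 0 ≤ ρ) (h1 : ρ < 1) (c : ℂ) (hc : ‖c‖ = 1) :
    ∀ᵐ p ∂(P2 n), (toM (VV ρ ((-c⁻¹) • p.1, p.2))).det ≠ 0 :=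
  ((VV_pres ρ h0 h1).comp (pres_phase c hc)).quasiMeasurePreserving.ae (det_ae_ne_zero n)

lemma ae_PP (z : ℂ) : ∀ᵐ p ∂(P2 n), PP n z p ≠ 0 := by
  obtain ⟨c, hc, hz⟩ := exists_phase z
  filter_upwards [ae_det2 (n := n), ae_VV (n := n) (rr z) (rr_nonneg z) (rr_lt z) c hc] with p h2 hV
  intro h
  have h3 := PP_mul z p h2
  rw [h, zero_mul] at h3
  have h4 := norm_det_eq z c hc hz p
  rw [← h3, norm_zero] at h4
  have h5 : 0 < Real.sqrt (1 + ‖z‖ ^ 2) ^ n * ‖(toM (VV (rr z) ((-c⁻¹) • p.1, p.2))).det‖ :=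
    mul_pos (by positivity) (norm_pos_iff.2 hV)
  linarith

lemma log_PP (z c : ℂ) (hc : ‖c‖ = 1) (hz : z = ‖z‖ * c) : ∀ᵐ p ∂(P2 n),
    Real.log ‖PP n z p‖ = n / 2 * Real.log (1 + ‖z‖ ^ 2)
      + YY (rr z) ((-c⁻¹) • p.1, p.2) / 2 := by
  filter_upwards [ae_det2 (n := n), ae_VV (n := n) (rr z) (rr_nonneg z) (rr_lt z) c hc,
    ae_PP (n := n) z] with p h2 hV hP
  have h3 := congrArg norm (PP_mul z p h2)
  rw [norm_mul, norm_det_eq z c hc hz p] at h3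
  have h4 := congrArg Real.log h3
  rw [Real.log_mul (norm_ne_zero_iff.2 hP) (norm_ne_zero_iff.2 h2),
    Real.log_mul (by positivity) (norm_ne_zero_iff.2 hV), Real.log_pow,
    Real.log_sqrt (by positivity)] at h4
  unfold YY ld
  simp only
  linarith

lemma integral_PP (z γ : ℂ) (hγ : |γ.re| < 2) :
    Integrable (fun p => Complex.exp (γ * (Real.log ‖PP n z p‖ : ℝ))) (P2 n) ∧
    ∫ p, Complex.exp (γ * (Real.log ‖PP n z p‖ : ℝ)) ∂(P2 n)
      = Complex.exp (γ * n / 2 * (Real.log (1 + ‖z‖ ^ 2) : ℝ)) * FF n (rr z) (γ / 2) := by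
  obtain ⟨c, hc, hz⟩ := exists_phase z
  have hre : |(γ / 2).re| < 1 := by
    have : (γ / 2).re = γ.re / 2 := by simp
    rw [this, abs_div, abs_two]
    linarith
  have hae : (fun p => Complex.exp (γ * (Real.log ‖PP n z p‖ : ℝ))) =ᵐ[P2 n]
      fun p => Complex.exp (γ * n / 2 * (Real.log (1 + ‖z‖ ^ 2) : ℝ))
        * Complex.exp (γ / 2 * (YY (rr z) ((-c⁻¹) • p.1, p.2) : ℝ)) := by
    filter_upwards [log_PP (n := n) z c hc hz] with p hp
    rw [hp, ← Complex.exp_add]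
    congr 1
    push_cast
    ring
  have hpr := pres_phase (n := n) c hc
  have hI : Integrable (fun p => Complex.exp (γ / 2 * (YY (rr z) p : ℝ))) (P2 n) := by
    have h1 := integrable_expYY (n := n) (rr z) (rr_nonneg z) (rr_lt z) (γ / 2).re hre
    refine (integrable_norm_iff ?_).1 ?_
    · exact (Complex.continuous_exp.measurable.comp
        ((Complex.continuous_ofReal.measurable.comp (measurable_YY (rr z))).const_mul
          (γ / 2))).aestronglyMeasurable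
    · refine h1.congr (Filter.Eventually.of_forall fun p => ?_)
      simp only
      rw [Complex.norm_exp, Complex.re_mul_ofReal]
  have hI2 : Integrable (fun p : (Ix n → ℂ) × (Ix n → ℂ) =>
      Complex.exp (γ / 2 * (YY (rr z) ((-c⁻¹) • p.1, p.2) : ℝ))) (P2 n) :=
    hpr.integrable_comp_of_integrable hI
  constructor
  · exact (hI2.const_mul _).congr hae.symm
  · rw [integral_congr_ae hae, integral_const_mul]
    congr 1
    unfold FF complexMGF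
    have h5 := integral_map (μ := P2 n) hpr.measurable.aemeasurable
      (f := fun ω => Complex.exp (γ / 2 * (YY (rr z) ω : ℝ)))
      (by rw [hpr.map_eq]; exact hI.aestronglyMeasurable)
    rw [hpr.map_eq] at h5
    exact h5.symm

/-- denominators of the problem -/
noncomputable def MM (G : ℂ → ℂ) (n : ℕ) (z γ : ℂ) : ℂ :=
  (n : ℂ) ^ (γ ^ 2 / 4) * ((1 + ‖z‖ ^ 2 : ℝ) : ℂ) ^ (γ * n / 2 - γ ^ 2 / 4)
    / (G (1 - γ / 2) * G (1 + γ / 2))

lemma ratio_eq (G : ℂ → ℂ) (z γ : ℂ) (hγ : |γ.re| < 2) (hn : 1 ≤ n) :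
    (∫ p, Complex.exp (γ * (Real.log ‖PP n z p‖ : ℝ)) ∂(P2 n)) / MM G n z γ
      = FF n (rr z) (γ / 2) * (G (1 + γ / 2) * G (1 - γ / 2))
        * Complex.exp (-(γ / 2) ^ 2 * (Real.log n : ℝ))
        * Complex.exp ((γ / 2) ^ 2 * (Real.log (1 + ‖z‖ ^ 2) : ℝ)) := by
  rw [(integral_PP z γ hγ).2]
  unfold MM
  have hn0 : (n : ℂ) ≠ 0 := by exact_mod_cast (show n ≠ 0 by omega)
  have hz0 : ((1 + ‖z‖ ^ 2 : ℝ) : ℂ) ≠ 0 := by
    exact_mod_cast (show (1 + ‖z‖ ^ 2 : ℝ) ≠ 0 by positivity)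
  rw [Complex.cpow_def_of_ne_zero hn0, Complex.cpow_def_of_ne_zero hz0,
    ← Complex.natCast_log, ← Complex.ofReal_log (by positivity)]
  set l := ((Real.log (1 + ‖z‖ ^ 2) : ℝ) : ℂ)
  set m := ((Real.log n : ℝ) : ℂ)
  have e1 : Complex.exp (-(γ / 2) ^ 2 * m) = (Complex.exp (m * (γ ^ 2 / 4)))⁻¹ := by
    rw [← Complex.exp_neg]
    congr 1
    ring
  have e2 : Complex.exp (γ * n / 2 * l) = Complex.exp (l * (γ * n / 2 - γ ^ 2 / 4))
      * Complex.exp ((γ / 2) ^ 2 * l) := by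
    rw [← Complex.exp_add]
    congr 1
    ring
  rw [e1, e2]
  have h1 := Complex.exp_ne_zero (m * (γ ^ 2 / 4))
  have h2 := Complex.exp_ne_zero (l * (γ * n / 2 - γ ^ 2 / 4))
  rw [div_div_eq_mul_div]
  field_simp

lemma ratio_diff (G : ℂ → ℂ) (z γ : ℂ) (hγ : |γ.re| < 2) (hn : 1 ≤ n) :
    (∫ p, Complex.exp (γ * (Real.log ‖PP n z p‖ : ℝ)) ∂(P2 n)) / MM G n z γ
      - rn n (γ / 2) * (G (1 + γ / 2) * G (1 - γ / 2))
      = (FF n (Real.sqrt (rr z ^ 2)) (γ / 2) - FF n 0 (γ / 2)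
          * Complex.exp ((γ / 2) ^ 2 * (Real.log (1 - rr z ^ 2) : ℝ)))
        * (G (1 + γ / 2) * G (1 - γ / 2))
        * Complex.exp (-(γ / 2) ^ 2 * (Real.log n : ℝ))
        * Complex.exp ((γ / 2) ^ 2 * (Real.log (1 + ‖z‖ ^ 2) : ℝ)) := by
  have hre : |(γ / 2).re| < 1 := by
    have : (γ / 2).re = γ.re / 2 := by simp
    rw [this, abs_div, abs_two]
    linarith
  rw [ratio_eq G z γ hγ hn, Real.sqrt_sq (rr_nonneg z), FF_zero _ hre]
  have hl : Real.log (1 - rr z ^ 2) = -Real.log (1 + ‖z‖ ^ 2) := by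
    rw [rr_sq, ← Real.log_inv]
    congr 1
    field_simp
    ring
  rw [hl]
  unfold rn
  have e : Complex.exp ((γ / 2) ^ 2 * ((-Real.log (1 + ‖z‖ ^ 2) : ℝ) : ℂ))
      * Complex.exp ((γ / 2) ^ 2 * ((Real.log (1 + ‖z‖ ^ 2) : ℝ) : ℂ)) = 1 := by
    rw [← Complex.exp_add]
    push_cast
    rw [show (γ / 2) ^ 2 * -((Real.log (1 + ‖z‖ ^ 2) : ℝ) : ℂ)
      + (γ / 2) ^ 2 * ((Real.log (1 + ‖z‖ ^ 2) : ℝ) : ℂ) = 0 by ring, Complex.exp_zero]
  linear_combination (Lam n (γ / 2) * (G (1 + γ / 2) * G (1 - γ / 2))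
        * Complex.exp (-(γ / 2) ^ 2 * (Real.log n : ℝ))) * e

lemma norm_exp_sq_le (s : ℂ) (R l : ℝ) (hl : 0 ≤ l) (hR : ‖s‖ ≤ R) :
    ‖Complex.exp (-s ^ 2 * (l : ℝ))‖ ≤ Real.exp (R ^ 2 * l) ∧
    ‖Complex.exp (s ^ 2 * (l : ℝ))‖ ≤ Real.exp (R ^ 2 * l) := by
  have h1 : |(s ^ 2).re| ≤ R ^ 2 := by
    refine (Complex.abs_re_le_norm _).trans ?_
    rw [norm_pow]
    exact pow_le_pow_left₀ (norm_nonneg _) hR 2
  have h2 := abs_le.1 h1
  constructor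
  · rw [Complex.norm_exp, Complex.re_mul_ofReal, Complex.neg_re]
    apply Real.exp_le_exp.2
    nlinarith
  · rw [Complex.norm_exp, Complex.re_mul_ofReal]
    apply Real.exp_le_exp.2
    nlinarith

/-- the main asymptotic -/
theorem main_unif (G : ℂ → ℂ) (hG : IsBarnesG G) (K L : Set ℂ) (hK : IsCompact K)
    (hL : IsCompact L) (hLS : L ⊆ {γ : ℂ | |γ.re| < 2}) :
    TendstoUniformlyOn (fun (n : ℕ) (q : ℂ × ℂ) =>
      (∫ p, Complex.exp (q.2 * (Real.log ‖PP n q.1 p‖ : ℝ)) ∂(P2 n)) / MM G n q.1 q.2)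
      (fun _ => 1) atTop (K ×ˢ L) := by
  -- compact data
  obtain ⟨Z0, hZ0, hZ⟩ := compact_data K hK
  set Z := max Z0 1 with hZd
  have hZ1 : 1 ≤ Z := le_max_right _ _
  have hZb : ∀ z ∈ K, ‖z‖ ≤ Z := fun z hz => (hZ z hz).trans (le_max_left _ _)
  set H : Set ℂ := (fun γ : ℂ => γ / 2) '' L with hH
  have hHc : IsCompact H := hL.image (by fun_prop)
  have hHS : H ⊆ Sp := by
    rintro _ ⟨γ, hγ, rfl⟩
    have h1 : |γ.re| < 2 := hLS hγ
    have : (γ / 2).re = γ.re / 2 := by simp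
    change |(γ / 2).re| < 1
    rw [this, abs_div, abs_two]
    linarith
  obtain ⟨R, hR0, hR⟩ := compact_data H hHc
  -- the strip
  obtain ⟨σ0, hσ00, hσ01, hσ0⟩ : ∃ σ0 : ℝ, 0 ≤ σ0 ∧ σ0 < 1 ∧ ∀ s ∈ H, |s.re| ≤ σ0 := by
    by_cases hne : H.Nonempty
    · obtain ⟨s0, hs0, hmax⟩ := hHc.exists_isMaxOn hne
        (Complex.continuous_re.abs.continuousOn (s := H))
      exact ⟨|s0.re|, abs_nonneg _, hHS hs0, fun s hs => hmax hs⟩
    · exact ⟨0, le_rfl, zero_lt_one, fun s hs => absurd ⟨s, hs⟩ hne⟩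
  set σ := (1 + σ0) / 2 with hσ
  have hσa : σ0 < σ := by rw [hσ]; linarith
  have hσb : σ < 1 := by rw [hσ]; linarith
  have hσc : 0 < σ := by linarith
  set x0 := Z ^ 2 / (1 + Z ^ 2) with hx0
  have hx0p : 0 < x0 := by rw [hx0]; positivity
  have hx01 : x0 < 1 := by rw [hx0, div_lt_one (by positivity)]; linarith
  set y := (1 + x0) / 2 with hy
  have hxy : x0 < y := by rw [hy]; linarith
  have hy1 : y < 1 := by rw [hy]; linarith
  have hy0 : 0 < y := by linarith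
  set θ := x0 / y with hθ
  have hθ0 : 0 < θ := by rw [hθ]; positivity
  have hθ1 : θ < 1 := by rw [hθ, div_lt_one hy0]; exact hxy
  have hrr : ∀ z ∈ K, rr z ^ 2 ≤ x0 := by
    intro z hz
    have h1 := hZb z hz
    have h2 : ‖z‖ ^ 2 ≤ Z ^ 2 := pow_le_pow_left₀ (norm_nonneg _) h1 2
    rw [rr_sq, hx0, div_le_div_iff₀ (by positivity) (by positivity)]
    nlinarith
  -- bounds for the Barnes factor
  have hg : ContinuousOn (fun s => ‖G (1 + s) * G (1 - s)‖) H := by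
    apply Continuous.continuousOn
    exact ((hG.entire.continuous.comp (by fun_prop : Continuous fun s : ℂ => 1 + s)).mul
      (hG.entire.continuous.comp (by fun_prop : Continuous fun s : ℂ => 1 - s))).norm
  obtain ⟨B, hB⟩ := hHc.bddAbove_image hg
  have hB' : ∀ s ∈ H, ‖G (1 + s) * G (1 - s)‖ ≤ |B| := fun s hs =>
    (hB (Set.mem_image_of_mem _ hs)).trans (le_abs_self B)
  obtain ⟨k, hk⟩ := exists_nat_ge (R ^ 2)
  set δ := 1 - σ0 / σ with hδ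
  have hδ0 : 0 < δ := by
    rw [hδ, sub_pos, div_lt_one hσc]
    exact hσa
  set A := 2 * Real.exp (-Real.log (1 - y)) with hA
  set E0 := Real.exp (-Real.log (1 - y) * R ^ 2) with hE0
  set W := Real.exp (R ^ 2 * Real.log (1 + Z ^ 2)) with hW
  have herr := (err_tendsto σ hσc hσb θ δ A hθ0 hθ1 hδ0 k).const_mul (E0 * |B| * W)
  rw [mul_zero] at herr
  have hpow : Tendsto (fun n : ℕ => 2 * θ ^ (n + 1)) atTop (𝓝 0) := by
    have h1 := (tendsto_pow_atTop_nhds_zero_of_lt_one hθ0.le hθ1).comp (tendsto_add_atTop_nat 1)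
    have h2 := h1.const_mul 2
    rw [mul_zero] at h2
    exact h2
  have hU := hG.unif H hHc hHS
  rw [Metric.tendstoUniformlyOn_iff] at hU ⊢
  intro ε hε
  filter_upwards [hU (ε / 2) (half_pos hε), herr.eventually (gt_mem_nhds (half_pos hε)),
    hpow.eventually (ge_mem_nhds zero_lt_one), eventually_ge_atTop 1] with n hn1 hn2 hn3 hn4 q hq
  obtain ⟨hqz, hqγ⟩ := hq
  have hqs : q.2 / 2 ∈ H := ⟨q.2, hqγ, rfl⟩
  have h1 := hn1 (q.2 / 2) hqs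
  have hd := ratio_diff (n := n) G q.1 q.2 (hLS hqγ) hn4
  have hsb := strip_bound (n := n) x0 y σ0 σ R hx0p.le hxy hy1 hσ00 hσa hσb hn3 (rr q.1 ^ 2)
    (by positivity) (hrr q.1 hqz) (q.2 / 2) (hσ0 _ hqs) (hR _ hqs)
  have hn0 : (1 : ℝ) ≤ n := by exact_mod_cast hn4
  have hl1 := (norm_exp_sq_le (q.2 / 2) R (Real.log n) (Real.log_nonneg hn0) (hR _ hqs)).1
  have hl2 := (norm_exp_sq_le (q.2 / 2) R (Real.log (1 + ‖q.1‖ ^ 2))
    (Real.log_nonneg (by nlinarith [norm_nonneg q.1])) (hR _ hqs)).2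
  have hl3 : Real.exp (R ^ 2 * Real.log n) ≤ (n : ℝ) ^ k := by
    have e : (n : ℝ) ^ k = Real.exp (k * Real.log n) := by
      rw [Real.exp_nat_mul, Real.exp_log (by linarith)]
    rw [e]
    apply Real.exp_le_exp.2
    exact mul_le_mul_of_nonneg_right hk (Real.log_nonneg hn0)
  have hl4 : Real.exp (R ^ 2 * Real.log (1 + ‖q.1‖ ^ 2)) ≤ W := by
    rw [hW]
    apply Real.exp_le_exp.2
    apply mul_le_mul_of_nonneg_left _ (by positivity)
    apply Real.log_le_log (by positivity)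
    have := pow_le_pow_left₀ (norm_nonneg _) (hZb q.1 hqz) 2
    linarith
  have hQ := QQ_nonneg (n := n) σ hσc hσb
  have hfinal : ‖(∫ p, Complex.exp (q.2 * (Real.log ‖PP n q.1 p‖ : ℝ)) ∂(P2 n)) / MM G n q.1 q.2
      - rn n (q.2 / 2) * (G (1 + q.2 / 2) * G (1 - q.2 / 2))‖ < ε / 2 := by
    rw [hd, norm_mul, norm_mul, norm_mul]
    refine lt_of_le_of_lt ?_ hn2
    have hX : 0 ≤ E0 * ((2 * θ ^ (n + 1)) ^ δ * (A * QQ n σ + 1)) := by
      rw [hE0, hA]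
      positivity
    calc ‖FF n (Real.sqrt (rr q.1 ^ 2)) (q.2 / 2) - FF n 0 (q.2 / 2)
          * Complex.exp ((q.2 / 2) ^ 2 * (Real.log (1 - rr q.1 ^ 2) : ℝ))‖
        * ‖G (1 + q.2 / 2) * G (1 - q.2 / 2)‖
        * ‖Complex.exp (-(q.2 / 2) ^ 2 * (Real.log n : ℝ))‖
        * ‖Complex.exp ((q.2 / 2) ^ 2 * (Real.log (1 + ‖q.1‖ ^ 2) : ℝ))‖
        ≤ (E0 * ((2 * θ ^ (n + 1)) ^ δ * (A * QQ n σ + 1))) * |B| * (n : ℝ) ^ k * W := by
          refine mul_le_mul (mul_le_mul (mul_le_mul hsb (hB' _ hqs) (norm_nonneg _) hX)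
            (hl1.trans hl3) (norm_nonneg _) (by positivity)) (hl2.trans hl4) (norm_nonneg _)
            (by positivity)
      _ = E0 * |B| * W * ((2 * θ ^ (n + 1)) ^ δ * (A * QQ n σ + 1) * (n : ℝ) ^ k) := by ring
  have htri := dist_triangle (1 : ℂ) (rn n (q.2 / 2) * (G (1 + q.2 / 2) * G (1 - q.2 / 2)))
    ((∫ p, Complex.exp (q.2 * (Real.log ‖PP n q.1 p‖ : ℝ)) ∂(P2 n)) / MM G n q.1 q.2)
  rw [dist_comm (rn n (q.2 / 2) * (G (1 + q.2 / 2) * G (1 - q.2 / 2))) _, dist_eq_norm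
    ((∫ p, Complex.exp (q.2 * (Real.log ‖PP n q.1 p‖ : ℝ)) ∂(P2 n)) / MM G n q.1 q.2)] at htri
  linarith

end Pool.Agent.Q293.FH
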